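import Pool.Agent.Lib.MP_5de024_nt.S.EtaX.Oi
import Pool.Agent.Lib.MP_5de024_nt.S.GeoB

/-!
# ETA: elementary facts on the ring at infinity
-/

set_option autoImplicit false
set_option linter.unusedSectionVars false

namespace Pool.Agent.AB3

open Polynomial

variable {K S H E : Type} [Field K] [CommRing S] [Algebra K[X] S] [Group H] [Finite H]
  [Field E] [Algebra S E] [IsFractionRing S E]

theorem toE_inj (C : Cov K S H) : Function.Injective (toE K S E) := by
  have : IsDomain S := cov_domain C
  exact (IsFractionRing.injective S E).comp C.inj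

/-! ### helpers -/

theorem infA_oi_ri {z : E} (hz : z ∈ Oi K S E) : z ∈ Ri K S E := by
  rw [mem_Ri]
  exact isIntegral_algebraMap (R := Oi K S E) (A := E) (x := ⟨z, hz⟩)

theorem infA_poly (q : E[X]) (hq : q.Monic) (hc : ∀ i, q.coeff i ∈ Oi K S E) (y : E)
    (hy : q.eval y = 0) : y ∈ Ri K S E := by
  rw [mem_Ri]
  have hs : (↑q.coeffs : Set E) ⊆ Oi K S E := by
    intro c hc'
    obtain ⟨i, _, hi⟩ := Polynomial.mem_coeffs_iff.mp hc'
    rw [hi]
    exact hc i
  refine ⟨q.toSubring (Oi K S E) hs, (Polynomial.monic_toSubring _ _ _).mpr hq, ?_⟩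
  rw [Polynomial.eval₂_eq_eval_map]
  have h1 : (q.toSubring (Oi K S E) hs).map (algebraMap (Oi K S E) E) = q :=
    Polynomial.map_toSubring _ _ _
  rw [h1, hy]

theorem infA_X_ne (C : Cov K S H) : toE K S E X ≠ 0 := by
  intro h
  have h1 : toE K S E X = toE K S E 0 := by rw [h, map_zero]
  exact X_ne_zero (toE_inj C h1)

theorem infA_u_ne (C : Cov K S H) : uE K S E ≠ 0 := inv_ne_zero (infA_X_ne C)

/-- `f / X ^ n` -/
theorem infA_mul (C : Cov K S H) (f : K[X]) (n : ℕ) :
    toE K S E f * uE K S E ^ n * toE K S E (X ^ n) = toE K S E f := by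
  rw [map_pow, mul_assoc, ← mul_pow]
  have h : uE K S E * toE K S E X = 1 := inv_mul_cancel₀ (infA_X_ne C)
  rw [h, one_pow, mul_one]

/-- the extension of the action to the field of fractions -/
theorem infA_ext (C : Cov K S H) (h : H) : ∃ σ : E ≃+* E,
    (∀ s : S, σ (algebraMap S E s) = algebraMap S E (C.act h s)) := by
  refine ⟨IsFractionRing.ringEquivOfRingEquiv (K := E) (L := E) (C.act h).toRingEquiv, ?_⟩
  intro s
  exact IsFractionRing.ringEquivOfRingEquiv_algebraMap (K := E) (L := E)
    (C.act h).toRingEquiv s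

theorem infA_act (C : Cov K S H) (h : H) (x : S) (d : ℕ)
    (hx : algebraMap S E x * uE K S E ^ d ∈ Ri K S E) :
    algebraMap S E (C.act h x) * uE K S E ^ d ∈ Ri K S E := by
  obtain ⟨σ, hσ⟩ := infA_ext (E := E) C h
  have hf : ∀ f : K[X], σ (toE K S E f) = toE K S E f := by
    intro f
    change σ (algebraMap S E (algebraMap K[X] S f)) = algebraMap S E (algebraMap K[X] S f)
    rw [hσ, AlgEquiv.commutes]
  have hu : σ (uE K S E) = uE K S E := by
    change σ ((toE K S E X)⁻¹) = (toE K S E X)⁻¹
    rw [map_inv₀, hf]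
  have hO : ∀ z ∈ Oi K S E, σ z = z := by
    rintro z ⟨f, g, hg, _, e⟩
    have hg' : toE K S E g ≠ 0 := by
      intro h0
      have h1 : toE K S E g = toE K S E 0 := by rw [h0, map_zero]
      exact hg (toE_inj C h1)
    have h1 := congrArg σ e
    rw [map_mul, hf, hf, ← e] at h1
    exact mul_right_cancel₀ hg' h1
  rw [mem_Ri] at hx ⊢
  obtain ⟨P, hP, hP0⟩ := hx
  refine ⟨P, hP, ?_⟩
  have h2 : (σ : E →+* E) (Polynomial.eval₂ (algebraMap (Oi K S E) E)
      (algebraMap S E x * uE K S E ^ d) P) = 0 := by rw [hP0, map_zero]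
  have h4 : (σ : E →+* E) (algebraMap S E x * uE K S E ^ d) =
      algebraMap S E (C.act h x) * uE K S E ^ d := by
    change σ (algebraMap S E x * uE K S E ^ d) = _
    rw [map_mul, hσ, map_pow, hu]
  have h3 : (σ : E →+* E).comp (algebraMap (Oi K S E) E) = algebraMap (Oi K S E) E := by
    ext z
    exact hO z z.2
  rw [Polynomial.hom_eval₂, h3, h4] at h2
  exact h2

/-- the polynomial with roots the conjugates -/
theorem infA_char (C : Cov K S H) [Fintype H] (x : S) :
    ∃ P : K[X][X], P.Monic ∧
      P.map (algebraMap K[X] S) = ∏ h : H, (X - Polynomial.C (C.act h x)) := by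
  have hdom : IsDomain S := cov_domain C
  have hl : (∏ h : H, (X - Polynomial.C (C.act h x)) : S[X]) ∈ Polynomial.lifts (algebraMap K[X] S) := by
    rw [Polynomial.lifts_iff_coeff_lifts]
    intro i
    have h1 : ∀ g : H, C.act g ((∏ h : H, (X - Polynomial.C (C.act h x)) : S[X]).coeff i) =
        (∏ h : H, (X - Polynomial.C (C.act h x)) : S[X]).coeff i := by
      intro g
      have h2 : (∏ h : H, (X - Polynomial.C (C.act h x)) : S[X]).map (C.act g : S →+* S) =
          ∏ h : H, (X - Polynomial.C (C.act h x)) := by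
        rw [Polynomial.map_prod]
        refine Fintype.prod_equiv (Equiv.mulLeft g) _ _ fun h => ?_
        rw [Polynomial.map_sub, Polynomial.map_X, Polynomial.map_C, Equiv.coe_mulLeft, map_mul]
        rfl
      conv_rhs => rw [← h2, Polynomial.coeff_map]
      rfl
    obtain ⟨f, hf⟩ := C.fixed _ h1
    exact ⟨f, hf⟩
  have hm : (∏ h : H, (X - Polynomial.C (C.act h x)) : S[X]).Monic :=
    Polynomial.monic_prod_of_monic _ _ fun h _ => Polynomial.monic_X_sub_C _
  obtain ⟨P, hP, _, hP'⟩ := Polynomial.lifts_and_natDegree_eq_and_monic hl hm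
  exact ⟨P, hP', hP⟩

theorem uE_mem : uE K S E ∈ Ri K S E := by
  by_cases h : toE K S E X = 0
  · have h1 : uE K S E = 0 := by
      change (toE K S E X)⁻¹ = 0
      rw [h, inv_zero]
    rw [h1]
    exact zero_mem _
  · refine infA_oi_ri ⟨1, X, X_ne_zero, ?_, ?_⟩
    · rw [natDegree_one]
      exact Nat.zero_le _
    · rw [map_one]
      exact inv_mul_cancel₀ h

theorem const_mem (c : K) : toE K S E (Polynomial.C c) ∈ Ri K S E := by
  refine infA_oi_ri ⟨Polynomial.C c, 1, one_ne_zero, ?_, ?_⟩
  · rw [natDegree_C]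
    exact Nat.zero_le _
  · rw [map_one, mul_one]

theorem infD_iff (C : Cov K S H) (x : S) (d : ℕ) :
    InfD K S x d ↔ algebraMap S E x * uE K S E ^ d ∈ Ri K S E := by
  classical
  have : Fintype H := Fintype.ofFinite H
  have hdom : IsDomain S := cov_domain C
  have hinj : Function.Injective (toE K S E) := toE_inj C
  constructor
  · rintro ⟨P, hP, hd, h0⟩
    have hPm : (P.map (toE K S E)).Monic := hP.map _
    have hdeg : (P.map (toE K S E)).natDegree = P.natDegree :=
      Polynomial.natDegree_map_eq_of_injective hinj P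
    refine infA_poly ((P.map (toE K S E)).scaleRoots (uE K S E ^ d))
      ((Polynomial.monic_scaleRoots_iff _).mpr hPm) ?_ _ ?_
    · intro i
      rw [Polynomial.coeff_scaleRoots, hdeg, Polynomial.coeff_map]
      rcases Nat.lt_or_ge P.natDegree i with hi | hi
      · rw [Polynomial.coeff_eq_zero_of_natDegree_lt hi, map_zero, zero_mul]
        exact zero_mem _
      · refine ⟨P.coeff i, X ^ ((P.natDegree - i) * d), pow_ne_zero _ X_ne_zero, ?_, ?_⟩
        · rw [natDegree_X_pow]
          exact hd i hi
        · rw [← pow_mul, mul_comm d, infA_mul C]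
    · rw [mul_comm, Polynomial.scaleRoots_eval_mul]
      have h1 : Polynomial.eval (algebraMap S E x) (P.map (toE K S E)) = 0 := by
        rw [← Polynomial.eval₂_eq_eval_map]
        change Polynomial.eval₂ ((algebraMap S E).comp (algebraMap K[X] S)) _ P = 0
        rw [← Polynomial.hom_eval₂, h0, map_zero]
      rw [h1, mul_zero]
  · intro hx
    obtain ⟨P, hP, hPm⟩ := infA_char C x
    refine ⟨P, hP, ?_, ?_⟩
    · intro i hi
      -- the scaled polynomial
      have h1 : (P.map (toE K S E)).scaleRoots (uE K S E ^ d) =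
          ∏ h : H, (X - Polynomial.C (algebraMap S E (C.act h x) * uE K S E ^ d)) := by
        have h2 : P.map (toE K S E) =
            ∏ h : H, (X - Polynomial.C (algebraMap S E (C.act h x))) := by
          change P.map ((algebraMap S E).comp (algebraMap K[X] S)) = _
          rw [← Polynomial.map_map, hPm, Polynomial.map_prod]
          refine Finset.prod_congr rfl fun h _ => ?_
          rw [Polynomial.map_sub, Polynomial.map_X, Polynomial.map_C]
        rw [h2]
        have h3 : ∀ s : Finset H, (∏ h ∈ s, (X - Polynomial.C (algebraMap S E (C.act h x)))).scaleRoots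
            (uE K S E ^ d) =
            ∏ h ∈ s, (X - Polynomial.C (algebraMap S E (C.act h x) * uE K S E ^ d)) := by
          intro s
          induction s using Finset.induction_on with
          | empty => rw [Finset.prod_empty, Finset.prod_empty, Polynomial.one_scaleRoots]
          | insert a s ha ih =>
            rw [Finset.prod_insert ha, Finset.prod_insert ha,
              Polynomial.mul_scaleRoots_of_noZeroDivisors, ih, Polynomial.X_sub_C_scaleRoots]
        exact h3 _
      -- its coefficients are integral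
      have h2 : ((P.map (toE K S E)).scaleRoots (uE K S E ^ d)).coeff i ∈ Ri K S E := by
        rw [h1]
        have h4 : (∏ h : H, (X - Polynomial.C (algebraMap S E (C.act h x) * uE K S E ^ d)) : E[X]) =
            (∏ h : H, (X - Polynomial.C (⟨_, infA_act C h x d hx⟩ : Ri K S E))).map
              (Ri K S E).subtype := by
          rw [Polynomial.map_prod]
          refine Finset.prod_congr rfl fun h _ => ?_
          rw [Polynomial.map_sub, Polynomial.map_X, Polynomial.map_C]
          rfl
        rw [h4, Polynomial.coeff_map]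
        exact Subtype.property _
      rw [Polynomial.coeff_scaleRoots, Polynomial.coeff_map,
        Polynomial.natDegree_map_eq_of_injective hinj P, ← pow_mul, mul_comm d] at h2
      have h5 := oi_int hinj (P.coeff i) (X ^ ((P.natDegree - i) * d)) (pow_ne_zero _ X_ne_zero)
        _ (infA_mul C _ _) h2
      rw [natDegree_X_pow] at h5
      exact h5
    · rw [Polynomial.eval₂_eq_eval_map, hPm, Polynomial.eval_prod]
      refine Finset.prod_eq_zero (Finset.mem_univ 1) ?_
      rw [map_one, Polynomial.eval_sub, Polynomial.eval_X, Polynomial.eval_C]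
      exact sub_self x

theorem infD_exists (C : Cov K S H) (x : S) : ∃ d, InfD K S x d := by
  have hfin := cov_finite C
  obtain ⟨P, hP, h0⟩ := (Algebra.IsIntegral.of_finite K[X] S).isIntegral x
  refine ⟨(Finset.range P.natDegree).sup fun i => (P.coeff i).natDegree, P, hP, ?_, h0⟩
  intro i hi
  rcases Nat.lt_or_ge i P.natDegree with h | h
  · have h1 : (P.coeff i).natDegree ≤
        (Finset.range P.natDegree).sup fun i => (P.coeff i).natDegree :=
      Finset.le_sup (f := fun i => (P.coeff i).natDegree) (Finset.mem_range.mpr h)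
    exact h1.trans (Nat.le_mul_of_pos_left _ (by omega))
  · have h1 : i = P.natDegree := le_antisymm hi h
    rw [h1, hP.coeff_natDegree, natDegree_one]
    exact Nat.zero_le _

/-- every element of `E` is a fraction with denominator in `K[X]` -/
theorem frac_eq (C : Cov K S H) (z : E) : ∃ (s : S) (f : K[X]), f ≠ 0 ∧
    z * toE K S E f = algebraMap S E s := by
  classical
  have : Fintype H := Fintype.ofFinite H
  have hdom : IsDomain S := cov_domain C
  obtain ⟨s, t, ht, rfl⟩ := IsFractionRing.div_surjective (A := S) z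
  have ht0 : t ≠ 0 := nonZeroDivisors.ne_zero ht
  obtain ⟨f, hf⟩ := C.fixed (∏ h : H, C.act h t) (by
    intro g
    rw [map_prod]
    refine Fintype.prod_equiv (Equiv.mulLeft g) _ _ fun h => ?_
    rw [Equiv.coe_mulLeft, map_mul]
    rfl)
  have hft : (∏ h : H, C.act h t) = t * ∏ h ∈ Finset.univ.erase 1, C.act h t := by
    rw [← Finset.mul_prod_erase Finset.univ _ (Finset.mem_univ 1), map_one]
    rfl
  refine ⟨s * ∏ h ∈ Finset.univ.erase 1, C.act h t, f, ?_, ?_⟩
  · intro h0
    rw [h0, map_zero] at hf
    have h1 := hf.symm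
    rw [Finset.prod_eq_zero_iff] at h1
    obtain ⟨h, _, hh⟩ := h1
    exact ht0 ((map_eq_zero_iff _ (C.act h).injective).mp hh)
  · change algebraMap S E s / algebraMap S E t * algebraMap S E (algebraMap K[X] S f) = _
    have ht1 : algebraMap S E t ≠ 0 := by
      intro h0
      exact ht0 ((map_eq_zero_iff _ (IsFractionRing.injective S E)).mp h0)
    rw [hf, hft, map_mul, map_mul]
    field_simp

theorem ri_pow (C : Cov K S H) (z : E) : ∃ d : ℕ, z * uE K S E ^ d ∈ Ri K S E := by
  obtain ⟨s, f, hf, h⟩ := frac_eq C z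
  obtain ⟨d, hd⟩ := infD_exists C s
  have h1 := (infD_iff (E := E) C s d).mp hd
  refine ⟨d, ?_⟩
  have hf' : toE K S E f ≠ 0 := by
    intro h0
    have h1 : toE K S E f = toE K S E 0 := by rw [h0, map_zero]
    exact hf (toE_inj C h1)
  have h2 : (toE K S E f)⁻¹ ∈ Ri K S E := by
    refine infA_oi_ri ⟨1, f, hf, ?_, ?_⟩
    · rw [natDegree_one]
      exact Nat.zero_le _
    · rw [map_one]
      exact inv_mul_cancel₀ hf'
  have h3 : z * uE K S E ^ d = algebraMap S E s * uE K S E ^ d * (toE K S E f)⁻¹ := by
    rw [← h]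
    field_simp
  rw [h3]
  exact mul_mem h1 h2

theorem ri_zero (C : Cov K S H) (x : S)
    (hx : algebraMap S E (algebraMap K[X] S X * x) ∈ Ri K S E) : x = 0 := by
  have hdom : IsDomain S := cov_domain C
  by_contra hx0
  have h1 : InfD K S (algebraMap K[X] S X * x) 0 := by
    rw [infD_iff (E := E) C, pow_zero, mul_one]
    exact hx
  obtain ⟨P, hP, hd, h0⟩ := h1
  have hX0 : algebraMap K[X] S X ≠ 0 := by
    intro h
    have h2 : algebraMap K[X] S X = algebraMap K[X] S 0 := by rw [h, map_zero]
    exact X_ne_zero (C.inj h2)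
  let _ : Algebra K S := ((algebraMap K[X] S).comp Polynomial.C).toAlgebra
  have hint : IsIntegral K (algebraMap K[X] S X * x) := by
    refine ⟨P.map (Polynomial.evalRingHom 0), hP.map _, ?_⟩
    have h3 : (P.map (Polynomial.evalRingHom 0)).map (Polynomial.C : K →+* K[X]) = P := by
      ext1 i
      rw [Polynomial.coeff_map, Polynomial.coeff_map, Polynomial.coe_evalRingHom]
      rcases Nat.lt_or_ge P.natDegree i with hi | hi
      · rw [Polynomial.coeff_eq_zero_of_natDegree_lt hi, Polynomial.eval_zero, map_zero]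
      · have h4 := hd i hi
        rw [mul_zero] at h4
        have h5 := Polynomial.eq_C_of_natDegree_le_zero h4
        rw [h5, Polynomial.eval_C]
    change Polynomial.eval₂ ((algebraMap K[X] S).comp Polynomial.C) _ _ = 0
    rw [← Polynomial.eval₂_map, h3, h0]
  have hu : IsUnit (algebraMap K[X] S X * x) := hint.isUnit (mul_ne_zero hX0 hx0)
  have hu2 : IsUnit (algebraMap K[X] S X) := isUnit_of_mul_isUnit_left hu
  obtain ⟨w, hw⟩ := hu2.exists_right_inv
  obtain ⟨f, hf⟩ := C.fixed w (by
    intro g
    have h6 : algebraMap K[X] S X * C.act g w = algebraMap K[X] S X * w := by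
      have h7 := congrArg (C.act g) hw
      rw [map_mul, AlgEquiv.commutes, map_one] at h7
      rw [h7, hw]
    exact mul_left_cancel₀ hX0 h6)
  rw [← hf, ← map_mul, ← map_one (algebraMap K[X] S)] at hw
  have h8 := C.inj hw
  exact Polynomial.not_isUnit_X (IsUnit.of_mul_eq_one f h8)

end Pool.Agent.AB3
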