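import Pool.Agent.Lib.MP_5de024_nt.S.EtaX.Rb
import Pool.Agent.Lib.MP_5de024_nt.S.EtaX.InfA

/-!
# ETA: the adapted basis
-/

set_option autoImplicit false
set_option linter.unusedSectionVars false

namespace Pool.Agent.AB3

open Polynomial

/-- the filtration by the pole order at infinity -/
noncomputable def RbX_md (K S : Type) [Field K] [CommRing S] [IsDomain S] [Algebra K[X] S]
    (d : ℕ) : AddSubgroup S where
  carrier := {x | algebraMap S (FractionRing S) x * uE K S (FractionRing S) ^ d ∈
    Ri K S (FractionRing S)}
  zero_mem' := by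
    rw [Set.mem_ofPred_eq, map_zero, zero_mul]
    exact zero_mem _
  add_mem' := by
    intro x y hx hy
    rw [Set.mem_ofPred_eq] at hx hy ⊢
    rw [map_add, add_mul]
    exact add_mem hx hy
  neg_mem' := by
    intro x hx
    rw [Set.mem_ofPred_eq] at hx ⊢
    rw [map_neg, neg_mul]
    exact neg_mem hx

theorem RbX_mem (K S : Type) [Field K] [CommRing S] [IsDomain S] [Algebra K[X] S]
    (d : ℕ) (x : S) : x ∈ RbX_md K S d ↔
      algebraMap S (FractionRing S) x * uE K S (FractionRing S) ^ d ∈
        Ri K S (FractionRing S) := Iff.rfl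

/-- the automorphisms preserve the pole order -/
theorem RbX_act {K S H : Type} [Field K] [CommRing S] [Algebra K[X] S]
    [Group H] (C : Cov K S H) (h : H) (x : S) (d : ℕ) (hx : InfD K S x d) :
    InfD K S (C.act h x) d := by
  obtain ⟨P, hP, hd, hPx⟩ := hx
  refine ⟨P, hP, hd, ?_⟩
  have h1 := congrArg (C.act h : S →+* S) hPx
  rw [Polynomial.hom_eval₂, map_zero] at h1
  have h2 : (C.act h : S →+* S).comp (algebraMap K[X] S) = algebraMap K[X] S := by
    refine RingHom.ext fun f => ?_
    exact (C.act h).commutes f
  rw [h2] at h1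
  exact h1

theorem exists_rbas (K S H : Type) [Field K] [CommRing S] [Algebra K[X] S]
    [Group H] [Finite H] (C : Cov K S H) :
    ∃ (N : ℕ) (B : RBas K S N), B.Stab C ∧ ∀ (x : S) (d : ℕ), InfD K S x d → B.Lt x (d + 1) := by
  have hdom : IsDomain S := cov_domain C
  have hfin : Module.Finite K[X] S := cov_finite C
  have hinj := toE_inj (E := FractionRing S) C
  have hX0 : toE K S (FractionRing S) X ≠ 0 := (map_ne_zero_iff _ hinj).2 Polynomial.X_ne_zero
  have hXu : toE K S (FractionRing S) X * uE K S (FractionRing S) = 1 := mul_inv_cancel₀ hX0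
  have hiff : ∀ (x : S) (d : ℕ), InfD K S x d ↔ x ∈ RbX_md K S d := fun x d =>
    infD_iff (E := FractionRing S) C x d
  have hsm : ∀ (f : K[X]) (x : S), algebraMap S (FractionRing S) (f • x) =
      toE K S (FractionRing S) f * algebraMap S (FractionRing S) x := by
    intro f x
    rw [Algebra.smul_def, map_mul]
    rfl
  obtain ⟨N, b, dd, hb⟩ := red_basis K S (RbX_md K S)
    (by
      intro d x c hx
      rw [RbX_mem] at hx ⊢
      rw [hsm, mul_assoc]
      exact mul_mem (const_mem c) hx)
    (by
      intro d x hx
      rw [RbX_mem] at hx ⊢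
      rw [pow_succ, ← mul_assoc]
      exact mul_mem hx uE_mem)
    (by
      intro x
      obtain ⟨d, hd⟩ := infD_exists C x
      exact ⟨d, (hiff x d).1 hd⟩)
    (by
      intro d x hx
      rw [RbX_mem] at hx ⊢
      have e1 : algebraMap S (FractionRing S) ((X : K[X]) • x) *
          uE K S (FractionRing S) ^ (d + 1) =
          algebraMap S (FractionRing S) x * uE K S (FractionRing S) ^ d := by
        rw [hsm, pow_succ]
        linear_combination (algebraMap S (FractionRing S) x * uE K S (FractionRing S) ^ d) * hXu
      rw [e1]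
      exact hx)
    (by
      intro d x hx
      rw [RbX_mem] at hx ⊢
      have e1 : algebraMap S (FractionRing S) ((X : K[X]) • x) *
          uE K S (FractionRing S) ^ (d + 1) =
          algebraMap S (FractionRing S) x * uE K S (FractionRing S) ^ d := by
        rw [hsm, pow_succ]
        linear_combination (algebraMap S (FractionRing S) x * uE K S (FractionRing S) ^ d) * hXu
      rw [← e1]
      exact hx)
    (by
      intro x hx
      rw [RbX_mem, pow_zero, mul_one, Algebra.smul_def] at hx
      exact ri_zero C x hx)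
  have hbi : ∀ i, b i ∈ RbX_md K S (dd i) := by
    intro i
    rw [hb]
    intro l
    rw [Module.Basis.repr_self]
    by_cases hl : i = l
    · right
      rw [hl, Finsupp.single_eq_same, Polynomial.natDegree_one, zero_add]
    · left
      rw [Finsupp.single_apply, if_neg hl]
  have hmul : ∀ (x y : S) (d e : ℕ), x ∈ RbX_md K S d → y ∈ RbX_md K S e →
      x * y ∈ RbX_md K S (d + e) := by
    intro x y d e hx hy
    rw [RbX_mem] at hx hy ⊢
    have e1 : algebraMap S (FractionRing S) (x * y) * uE K S (FractionRing S) ^ (d + e) =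
        (algebraMap S (FractionRing S) x * uE K S (FractionRing S) ^ d) *
        (algebraMap S (FractionRing S) y * uE K S (FractionRing S) ^ e) := by
      rw [map_mul, pow_add]
      ring
    rw [e1]
    exact mul_mem hx hy
  refine ⟨N, { e := b, d := dd, mul := ?_, one := ?_ }, ?_, ?_⟩
  · intro i j l
    exact (hb _ _).1 (hmul _ _ _ _ (hbi i) (hbi j)) l
  · intro l
    refine (hb _ _).1 ?_ l
    rw [RbX_mem, map_one, pow_zero, mul_one]
    exact one_mem _
  · intro h i l
    exact (hb _ _).1 ((hiff _ _).1 (RbX_act C h _ _ ((hiff _ _).2 (hbi i)))) l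
  · intro x d hx l
    rcases (hb _ _).1 ((hiff _ _).1 hx) l with h1 | h1
    · exact Or.inl h1
    · exact Or.inr (Nat.lt_succ_of_le h1)

end Pool.Agent.AB3
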