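import Pool.Agent.Lib.MP_5de024_nt.S.EtaX.Ds
import Pool.Agent.Lib.MP_5de024_nt.S.EtaX.RbX
import Pool.Agent.Lib.MP_5de024_nt.S.GeoV
import Pool.Agent.Lib.MP_5de024_nt.S.GeoN

/-!
# ETA: descent to a finite field
-/

set_option autoImplicit false
set_option linter.unusedSectionVars false

namespace Pool.Agent.AB3

open Polynomial

/-- merging two finite fields of definition -/
theorem fi_and {k K : Type} [Field k] [Finite k] [Field K] [Algebra k K]
    {P Q : IntermediateField k K → Prop}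
    (hP : ∃ F : IntermediateField k K, Finite F ∧ ∀ F' : IntermediateField k K, F ≤ F' → P F')
    (hQ : ∃ F : IntermediateField k K, Finite F ∧ ∀ F' : IntermediateField k K, F ≤ F' → Q F') :
    ∃ F : IntermediateField k K, Finite F ∧ ∀ F' : IntermediateField k K, F ≤ F' →
      P F' ∧ Q F' := by
  obtain ⟨F1, h1, h2⟩ := hP
  obtain ⟨F2, h3, h4⟩ := hQ
  exact ⟨F1 ⊔ F2, ds_sup F1 F2, fun F' h => ⟨h2 F' (le_sup_left.trans h),
    h4 F' (le_sup_right.trans h)⟩⟩

/-- descent of the element over the algebraic closure -/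
theorem eta_desc (p : ℕ) [Fact p.Prime] (k K R H : Type) [Field k] [Finite k] [Field K]
    [IsAlgClosed K] [Algebra k K] [Algebra.IsAlgebraic k K] [CharP k p] [CommRing R]
    [Algebra k[X] R] [Group H] [Finite H] (C : Cov k R H) (n r : ℕ) (hn : n.Coprime p)
    (hn0 : 0 < n) (hr0 : 0 < r) (m : ℕ) (hm : 2 ≤ m) (hmp : m.Coprime p) (η : Fam k K (X ^ m) R) (D : ℕ)
    (hD : 0 < n * D) (hc : Cert n η)
    (hi : InfD K (Fam k K (X ^ m) R) (η - algebraMap K[X] (Fam k K (X ^ m) R) (X ^ (n * D)))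
      (n * D - 1))
    (hy : ∃ y : K[X], (∏ᶠ h : H, Bs.act (evg k K (X ^ m)) C.act h η) =
      algebraMap K[X] (Fam k K (X ^ m) R) y ^ n)
    (hind : ∀ (e : H → ℕ) (c : K) (w : Fam k K (X ^ m) R), c ≠ 0 →
      (∏ᶠ h : H, (Bs.act (evg k K (X ^ m)) C.act h η) ^ e h) =
        algebraMap K[X] (Fam k K (X ^ m) R) (Polynomial.C c) * w ^ n →
      ∀ h h' : H, e h ≡ e h' [MOD n]) :
    ∃ (F : Type) (_ : Field F) (_ : Finite F) (_ : Algebra k F)
      (C' : Cov F (Fam k F (X ^ m) R) H) (N : ℕ) (B : RBas F (Fam k F (X ^ m) R) N),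
      (∀ h z, C'.act h z = Bs.act (evg k F (X ^ m)) C.act h z) ∧
      B.Stab C' ∧ EtaD C' B n ∧ (∃ ζ : F, IsPrimitiveRoot ζ m) ∧
      (∃ ζ : F, IsPrimitiveRoot ζ n) ∧ Nat.card {a : F // a ^ p ^ r = a} = p ^ r := by
  classical
  have := Fintype.ofFinite H
  have hKp : CharP K p := charP_of_injective_algebraMap (algebraMap k K).injective p
  have hp : p.Prime := Fact.out
  have hne : ∀ j : ℕ, j.Coprime p → (j : K) ≠ 0 := by
    intro j hj h
    rw [CharP.cast_eq_zero_iff K p] at h
    exact hp.one_lt.ne' (Nat.eq_one_of_dvd_coprimes hj h (dvd_refl p))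
  have : NeZero (m : K) := ⟨hne m hmp⟩
  have : NeZero (n : K) := ⟨hne n hn⟩
  obtain ⟨ζm, hζm⟩ := HasEnoughRootsOfUnity.exists_primitiveRoot K m
  obtain ⟨ζn, hζn⟩ := HasEnoughRootsOfUnity.exists_primitiveRoot K n
  obtain ⟨a0, a1, c0, c1, d0, d1, e0, e1, e2⟩ := hc
  obtain ⟨y, hy⟩ := hy
  obtain ⟨P, hP1, hP2, hP3⟩ := hi
  let g : (F : IntermediateField k K) → F[X] := fun _ => X ^ m
  have hg : ∀ F : IntermediateField k K, (g F).map (algebraMap F K) = X ^ m := fun F => by
    simp [g]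
  have D1 := ds_elt C (X ^ m) g hg
  have hq : 1 < p ^ r := Nat.one_lt_pow (by omega) hp.one_lt
  have hfinr : {a : K | a ^ p ^ r = a}.Finite := by
    refine ((X ^ p ^ r - X : K[X]).roots.toFinset.finite_toSet).subset (fun a ha => ?_)
    have hne0 : (X ^ p ^ r - X : K[X]) ≠ 0 := FiniteField.X_pow_card_sub_X_ne_zero K hq
    rw [Finset.mem_coe, Multiset.mem_toFinset, mem_roots hne0, IsRoot.def]
    have ha' : a ^ p ^ r = a := ha
    simp [ha']
  obtain ⟨F0, hF0, hall⟩ := fi_and (D1 η) (fi_and (D1 a0) (fi_and (D1 a1) (fi_and (D1 c0)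
    (fi_and (D1 c1) (fi_and (D1 d0) (fi_and (D1 d1) (fi_and (ds_poly y) (fi_and (ds_poly2 P)
    (fi_and (ds_const {ζm, ζn} (Set.toFinite _)) (ds_const _ hfinr))))))))))
  obtain ⟨⟨η', hη'⟩, ⟨a0', ha0'⟩, ⟨a1', ha1'⟩, ⟨c0', hc0'⟩, ⟨c1', hc1'⟩, ⟨d0', hd0'⟩,
    ⟨d1', hd1'⟩, ⟨y', hy'⟩, ⟨P', hP'⟩, hζ, hroots⟩ := hall F0 le_rfl
  have hinjF : Function.Injective (algebraMap F0 K) := (algebraMap F0 K).injective
  obtain ⟨C', hC'⟩ := cov_bc k R H C F0 (X ^ m : F0[X]) (by
    intro F' _ _ _ _
    rw [Polynomial.map_pow, Polynomial.map_X]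
    exact fam_pow_domain C m (by omega))
  obtain ⟨N, B, hS, hB⟩ := exists_rbas F0 (Fam k F0 (X ^ m) R) H C'
  have hinj := incF_inj C F0 (g F0) (X ^ m) (hg F0)
  have halg := incF_alg (k := k) (R := R) F0 (g F0) (X ^ m) (hg F0)
  have hact := incF_act C F0 (g F0) (X ^ m) (hg F0)
  set ι := incF k K R F0 (g F0) (X ^ m) (hg F0) with hι
  have hXF : (X ^ (n * D) : F0[X]).map (algebraMap F0 K) = X ^ (n * D) := by
    rw [Polynomial.map_pow, Polynomial.map_X]
  have hprod : ∀ e : H → ℕ, ι (∏ᶠ h : H, (C'.act h η') ^ e h) =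
      ∏ᶠ h : H, (Bs.act (evg k K (X ^ m)) C.act h η) ^ e h := by
    intro e
    rw [finprod_eq_prod_of_fintype, finprod_eq_prod_of_fintype, map_prod]
    refine Finset.prod_congr rfl (fun h _ => ?_)
    rw [map_pow, hC' h η']
    have h1 := hact h η'
    rw [hη'] at h1
    exact congrArg (fun t => t ^ e h) h1
  refine ⟨F0, inferInstance, hF0, inferInstance, C', N, B, hC', hS, ?_, ?_, ?_, ?_⟩
  · refine ⟨η', D, ⟨a0', a1', c0', c1', d0', d1', hinj ?_, hinj ?_, hinj ?_⟩, ?_, ⟨y', hinj ?_⟩,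
      ?_⟩
    · change ι (a0' ^ n) = ι (η' * c0')
      rw [map_pow, map_mul, ha0', hη', hc0', e0]
    · change ι (a1' ^ n) = ι (η' * c1')
      rw [map_pow, map_mul, ha1', hη', hc1', e1]
    · change ι (d0' * c0' + d1' * c1') = ι 1
      rw [map_add, map_mul, map_mul, hd0', hc0', hd1', hc1', e2, map_one]
    · have hinf : InfD F0 (Fam k F0 (X ^ m) R)
          (η' - algebraMap F0[X] (Fam k F0 (X ^ m) R) (X ^ (n * D))) (n * D - 1) := by
        have hinjm : Function.Injective (Polynomial.mapRingHom (algebraMap F0 K)) :=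
          Polynomial.map_injective _ hinjF
        have hdeg : P'.natDegree = P.natDegree := by
          rw [← hP', Polynomial.natDegree_map_eq_of_injective hinjm]
        refine ⟨P', ?_, ?_, hinj ?_⟩
        · exact Polynomial.monic_of_injective hinjm (by rw [hP']; exact hP1)
        · intro i hi
          rw [hdeg] at hi ⊢
          have h1 := hP2 i hi
          have h3 : (P.coeff i).natDegree = (P'.coeff i).natDegree := by
            rw [← hP', Polynomial.coeff_map, Polynomial.coe_mapRingHom,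
              Polynomial.natDegree_map_eq_of_injective hinjF]
          rwa [h3] at h1
        · change ι _ = ι 0
          rw [map_zero, Polynomial.hom_eval₂]
          have hcomp : ι.comp (algebraMap F0[X] (Fam k F0 (X ^ m) R)) =
              (algebraMap K[X] (Fam k K (X ^ m) R)).comp
                (Polynomial.mapRingHom (algebraMap F0 K)) := by
            exact RingHom.ext (fun f => halg f)
          rw [hcomp, ← Polynomial.eval₂_map, hP']
          have hx : ι (η' - algebraMap F0[X] (Fam k F0 (X ^ m) R) (X ^ (n * D))) =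
              η - algebraMap K[X] (Fam k K (X ^ m) R) (X ^ (n * D)) := by
            rw [map_sub, hη']
            congr 1
            exact (halg (X ^ (n * D))).trans (by rw [hXF])
          rw [hx, hP3]
      have h2 := hB _ _ hinf
      rwa [Nat.sub_add_cancel (by omega)] at h2
    · change ι _ = ι _
      have h1 := hprod (fun _ => 1)
      simp only [pow_one] at h1
      rw [h1, hy, map_pow]
      congr 1
      exact ((halg y').trans (by rw [hy'])).symm
    · intro e c w hc0 hrel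
      have h1 := congrArg ι hrel
      rw [hprod e, map_mul, map_pow] at h1
      have h2 : ι (algebraMap F0[X] (Fam k F0 (X ^ m) R) (Polynomial.C c)) =
          algebraMap K[X] (Fam k K (X ^ m) R) (Polynomial.C (algebraMap F0 K c)) :=
        (halg (Polynomial.C c)).trans (by rw [Polynomial.map_C])
      rw [h2] at h1
      exact hind e (algebraMap F0 K c) (ι w) (fun h => hc0 (hinjF (by rw [h, map_zero]))) h1
  · obtain ⟨z, hz⟩ := hζ ζm (by simp)
    exact ⟨z, IsPrimitiveRoot.of_map_of_injective (f := algebraMap F0 K)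
      (by rw [hz]; exact hζm) hinjF⟩
  · obtain ⟨z, hz⟩ := hζ ζn (by simp)
    exact ⟨z, IsPrimitiveRoot.of_map_of_injective (f := algebraMap F0 K)
      (by rw [hz]; exact hζn) hinjF⟩
  · have hq0 : ((p ^ r : ℕ) : K) = 0 := by
      rw [Nat.cast_pow, CharP.cast_eq_zero, zero_pow (by omega)]
    have hne0 : (X ^ p ^ r - X : K[X]) ≠ 0 := FiniteField.X_pow_card_sub_X_ne_zero K hq
    have hsep : (X ^ p ^ r - X : K[X]).Separable := by
      have := galois_poly_separable (K := K) p (p ^ r) (dvd_pow_self p (by omega))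
      exact this
    have hcardK : (X ^ p ^ r - X : K[X]).roots.toFinset.card = p ^ r := by
      rw [Multiset.toFinset_card_of_nodup (nodup_roots hsep),
        splits_iff_card_roots.1 (IsAlgClosed.splits (X ^ p ^ r - X : K[X])),
        FiniteField.X_pow_card_sub_X_natDegree_eq K hq]
    have hbij : {a : F0 // a ^ p ^ r = a} ≃ {a : K // a ∈ (X ^ p ^ r - X : K[X]).roots.toFinset} := by
      refine Equiv.ofBijective (fun a => ⟨algebraMap F0 K a.1, ?_⟩) ⟨?_, ?_⟩
      · rw [Multiset.mem_toFinset, mem_roots hne0, IsRoot.def]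
        have h1 : (algebraMap F0 K a.1) ^ p ^ r = algebraMap F0 K a.1 := by
          rw [← map_pow, a.2]
        rw [eval_sub, eval_pow, eval_X, h1, sub_self]
      · intro a b hab
        exact Subtype.ext (hinjF (congrArg (fun t => t.1) hab))
      · rintro ⟨b, hb⟩
        rw [Multiset.mem_toFinset, mem_roots hne0, IsRoot.def] at hb
        have hb1 : b ^ p ^ r = b := by
          simpa [sub_eq_zero] using hb
        obtain ⟨c, hc⟩ := hroots b hb1
        refine ⟨⟨c, hinjF ?_⟩, Subtype.ext hc⟩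
        rw [map_pow, hc, hb1]
    rw [Nat.card_congr hbij, Nat.card_eq_fintype_card, Fintype.card_coe, hcardK]

end Pool.Agent.AB3
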