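import Pool.Agent.Lib.MP_5de024_nt.S.GeoB

/-!
# ETA: the primes of a cover over an algebraically closed field
-/

set_option autoImplicit false
set_option linter.unusedSectionVars false

namespace Pool.Agent.AB3

open Polynomial

variable {K S H : Type} [Field K] [IsAlgClosed K] [CommRing S] [Algebra K[X] S] [Group H]
  [Finite H]

theorem qa_int (C : Cov K S H) : (algebraMap K[X] S).IsIntegral := by
  have hfin := cov_finite C
  exact fun r => (Algebra.IsIntegral.of_finite K[X] S).isIntegral r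

theorem qa_over (C : Cov K S H) (Q : Ideal S) [Q.IsMaximal] : ∃ α : K,
    algebraMap K[X] S (X - Polynomial.C α) ∈ Q := by
  have hfin := cov_finite C
  have hint : Algebra.IsIntegral K[X] S := Algebra.IsIntegral.of_finite K[X] S
  have hP : (Q.comap (algebraMap K[X] S)).IsMaximal :=
    Ideal.isMaximal_comap_of_isIntegral_of_isMaximal Q
  obtain ⟨P, hPd⟩ : ∃ P : Ideal K[X], P = Q.comap (algebraMap K[X] S) := ⟨_, rfl⟩
  rw [← hPd] at hP
  have hb : P ≠ ⊥ := Ring.ne_bot_of_isMaximal_of_not_isField hP (Polynomial.not_isField K)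
  obtain ⟨p, hp⟩ := IsPrincipalIdealRing.principal P
  have hp' : P = Ideal.span {p} := hp
  have hp0 : p ≠ 0 := by
    intro h0
    apply hb
    rw [hp', h0]
    exact Ideal.span_singleton_eq_bot.2 rfl
  have hpp : Prime p := by
    rw [← Ideal.span_singleton_prime hp0, ← hp']
    exact hP.isPrime
  have hd : p.degree ≠ 0 := by
    rw [IsAlgClosed.degree_eq_one_of_irreducible K hpp.irreducible]
    exact one_ne_zero
  obtain ⟨α, hα⟩ := IsAlgClosed.exists_root p hd
  have h1 : (X - Polynomial.C α) ∣ p := dvd_iff_isRoot.2 hα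
  have h2 : p ∣ (X - Polynomial.C α) :=
    (irreducible_X_sub_C α).dvd_symm hpp.irreducible h1
  refine ⟨α, ?_⟩
  have h3 : X - Polynomial.C α ∈ P := by
    rw [hp']
    exact Ideal.mem_span_singleton.2 h2
  rw [hPd] at h3
  exact h3

/-- the residue fields are `K` -/
theorem qa_res (C : Cov K S H) (Q : Ideal S) [Q.IsMaximal] (x : S) :
    ∃ c : K, x - algebraMap K[X] S (Polynomial.C c) ∈ Q := by
  obtain ⟨α, hα⟩ := qa_over C Q
  obtain ⟨φ, hφ⟩ : ∃ φ : K →+* S ⧸ Q, φ = (Ideal.Quotient.mk Q).comp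
    ((algebraMap K[X] S).comp Polynomial.C) := ⟨_, rfl⟩
  have h1 : (Ideal.Quotient.mk Q).comp (algebraMap K[X] S) =
      φ.comp (Polynomial.evalRingHom α) := by
    refine Polynomial.ringHom_ext ?_ ?_
    · intro a
      rw [hφ]
      simp
    · have h2 := Ideal.Quotient.eq_zero_iff_mem.2 hα
      rw [map_sub, map_sub, sub_eq_zero] at h2
      rw [hφ]
      simpa using h2
  have h2 : (φ.comp (Polynomial.evalRingHom α)).IsIntegral := by
    rw [← h1]
    exact (qa_int C).trans _ _
      (RingHom.isIntegral_of_surjective _ Ideal.Quotient.mk_surjective)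
  have h3 : φ.IsIntegral := RingHom.IsIntegral.tower_top _ _ h2
  letI : Field (S ⧸ Q) := Ideal.Quotient.field Q
  have h4 := IsAlgClosed.ringHom_bijective_of_isIntegral φ h3
  obtain ⟨c, hc⟩ := h4.2 (Ideal.Quotient.mk Q x)
  refine ⟨c, ?_⟩
  rw [← Ideal.Quotient.eq, ← hc, hφ]
  rfl

/-- there is no decomposition group -/
theorem qa_dist (C : Cov K S H) (Q : Ideal S) [Q.IsMaximal] (h : H) (hh : h ≠ 1) :
    Q.map (C.act h : S →+* S) ≠ Q := by
  intro hQ
  have h1 : ∀ y : S, C.act h y - y ∈ Q := by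
    intro y
    obtain ⟨c, hc⟩ := qa_res C Q y
    have h2 := Ideal.mem_map_of_mem (C.act h : S →+* S) hc
    rw [hQ] at h2
    have h3 : (C.act h : S →+* S) (y - algebraMap K[X] S (Polynomial.C c)) =
        C.act h y - algebraMap K[X] S (Polynomial.C c) := by
      change C.act h (y - algebraMap K[X] S (Polynomial.C c)) = _
      rw [map_sub, AlgEquiv.commutes]
    rw [h3] at h2
    have h4 := Q.sub_mem h2 hc
    have h5 : C.act h y - algebraMap K[X] S (Polynomial.C c) -
        (y - algebraMap K[X] S (Polynomial.C c)) = C.act h y - y := by ring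
    rwa [h5] at h4
  obtain ⟨m, x, y, hxy⟩ := C.coord
  have h2 : (1 : S) = ∑ i, x i * (y i - C.act h (y i)) := by
    have e1 := (hxy 1).1 rfl
    have e2 := (hxy h).2 hh
    have e3 : ∑ i, x i * (y i - C.act h (y i)) = ∑ i, x i * y i - ∑ i, x i * C.act h (y i) := by
      rw [← Finset.sum_sub_distrib]
      exact Finset.sum_congr rfl fun i _ => by ring
    have e4 : ∑ i, x i * C.act 1 (y i) = ∑ i, x i * y i := by
      refine Finset.sum_congr rfl fun i _ => ?_
      rw [map_one]
      rfl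
    rw [e3, e2, sub_zero, ← e4, e1]
  have h3 : (1 : S) ∈ Q := by
    rw [h2]
    refine Q.sum_mem fun i _ => Q.mul_mem_left _ ?_
    have h4 := Q.neg_mem (h1 (y i))
    rwa [neg_sub] at h4
  exact (inferInstance : Q.IsMaximal).ne_top ((Ideal.eq_top_iff_one _).2 h3)

/-- divisibility descends -/
theorem qa_dvd (C : Cov K S H) {f g : K[X]} (hf : f ≠ 0)
    (h : algebraMap K[X] S f ∣ algebraMap K[X] S g) : f ∣ g := by
  have hdom := cov_domain C
  have hs0 : algebraMap K[X] S f ≠ 0 := by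
    intro h0
    exact hf (C.inj (h0.trans (map_zero _).symm))
  obtain ⟨w, hw⟩ := h
  have hfix : ∀ σ, C.act σ w = w := by
    intro σ
    have h1 := congrArg (C.act σ) hw
    rw [map_mul, AlgEquiv.commutes, AlgEquiv.commutes, hw] at h1
    exact (mul_left_cancel₀ hs0 h1).symm
  obtain ⟨a, ha⟩ := C.fixed w hfix
  refine ⟨a, C.inj ?_⟩
  rw [hw, ← ha, map_mul]

theorem qa_exists (C : Cov K S H) (α : K) : ∃ Q : Ideal S, Q.IsMaximal ∧
    algebraMap K[X] S (X - Polynomial.C α) ∈ Q := by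
  have h1 : ¬ IsUnit (algebraMap K[X] S (X - Polynomial.C α)) := by
    intro hu
    have h2 : (X - Polynomial.C α) ∣ (1 : K[X]) := by
      apply qa_dvd C (X_sub_C_ne_zero α)
      rw [map_one]
      exact hu.dvd
    exact (irreducible_X_sub_C α).not_isUnit (isUnit_of_dvd_one h2)
  obtain ⟨Q, hQ, hsQ⟩ := Ideal.exists_le_maximal
    (Ideal.span {algebraMap K[X] S (X - Polynomial.C α)})
    (fun h => h1 (Ideal.span_singleton_eq_top.1 h))
  exact ⟨Q, hQ, hsQ (Ideal.mem_span_singleton_self _)⟩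

/-- `X - α` is reduced -/
theorem qa_red (C : Cov K S H) (α : K) (z : S)
    (hz : algebraMap K[X] S (X - Polynomial.C α) ∣ z ^ 2) :
    algebraMap K[X] S (X - Polynomial.C α) ∣ z := by
  classical
  have hfin : Fintype H := Fintype.ofFinite H
  obtain ⟨s, hs⟩ : ∃ s : S, s = algebraMap K[X] S (X - Polynomial.C α) := ⟨_, rfl⟩
  rw [← hs] at hz ⊢
  obtain ⟨m, x, y, hxy⟩ := C.coord
  choose f hf using fun i => geoA_tr C (y i * z)
  have h1 : ∀ i, s ∣ algebraMap K[X] S (f i) := by
    intro i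
    have h2 : algebraMap K[X] S (f i) ∈ (Ideal.span {s}).radical := by
      rw [hf]
      refine Ideal.sum_mem _ fun h _ => ?_
      rw [map_mul]
      refine Ideal.mul_mem_left _ _ ?_
      refine ⟨2, ?_⟩
      obtain ⟨w, hw⟩ := hz
      rw [← map_pow, hw, map_mul, hs, AlgEquiv.commutes, ← hs]
      exact Ideal.mul_mem_right _ _ (Ideal.mem_span_singleton_self s)
    obtain ⟨N, hN⟩ := h2
    rw [Ideal.mem_span_singleton, ← map_pow, hs] at hN
    have h3 := qa_dvd C (X_sub_C_ne_zero α) hN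
    rw [hs]
    exact map_dvd _ ((prime_X_sub_C α).dvd_of_dvd_pow h3)
  rw [← geoA_exp C x y hxy z]
  refine Finset.dvd_sum fun i _ => ?_
  rw [← hf]
  exact (h1 i).mul_left _

/-- the cover is unramified -/
theorem qa_unram (C : Cov K S H) (Q : Ideal S) [Q.IsMaximal] (α : K) :
    algebraMap K[X] S (X - Polynomial.C α) ∉ Q ^ 2 := by
  intro h
  have hded : IsDedekindDomain S := cov_dedekind C
  obtain ⟨s, hs⟩ : ∃ s : S, s = algebraMap K[X] S (X - Polynomial.C α) := ⟨_, rfl⟩
  rw [← hs] at h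
  have hs0 : s ≠ 0 := by
    intro h0
    rw [hs] at h0
    exact X_sub_C_ne_zero α (C.inj (h0.trans (map_zero _).symm))
  have h1 : Ideal.span {s} ≤ Q ^ 2 := (Ideal.span_singleton_le_iff_mem _).2 h
  obtain ⟨J, hJ⟩ := Ideal.dvd_iff_le.2 h1
  rw [pow_two, mul_assoc] at hJ
  have hspan : (Ideal.span {s} : Ideal S) ≠ 0 := by
    rw [Ne, Ideal.zero_eq_bot, Ideal.span_singleton_eq_bot]
    exact hs0
  have hQJ : Q * J ≠ 0 := by
    intro h0
    apply hspan
    rw [hJ, h0, mul_zero]
  have hlt : ¬ (Q * J ≤ Ideal.span {s}) := by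
    intro hle
    have heq : Q * J = Q * (Q * J) := by
      refine le_antisymm (hle.trans_eq hJ) ?_
      exact Ideal.mul_le_inf.trans inf_le_right
    have h2 : 1 * (Q * J) = Q * (Q * J) := by
      rw [one_mul]
      exact heq
    have h3 : (1 : Ideal S) = Q := mul_right_cancel₀ hQJ h2
    exact (inferInstance : Q.IsMaximal).ne_top (by rw [← h3, Ideal.one_eq_top])
  obtain ⟨z, hz, hz'⟩ := SetLike.not_le_iff_exists.1 hlt
  apply hz'
  rw [Ideal.mem_span_singleton, hs]
  apply qa_red C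
  rw [← hs, ← Ideal.mem_span_singleton, hJ, pow_two]
  have h4 : z * z ∈ (Q * J) * (Q * J) := Ideal.mul_mem_mul hz hz
  have h5 : (Q * J) * (Q * J) ≤ Q * (Q * J) :=
    Ideal.mul_mono_left (Ideal.mul_le_inf.trans inf_le_left)
  exact h5 h4

end Pool.Agent.AB3
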