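import Pool.Agent.Lib.MP_5de024_nt.S.EtaX.Ds
import Pool.Agent.Lib.MP_5de024_nt.S.EtaX.Qa
import Pool.Agent.Lib.MP_5de024_nt.S.GeoV
import Pool.Agent.Lib.MP_5de024_nt.S.Div

/-!
# ETA: the ideal over zero
-/

set_option autoImplicit false
set_option linter.unusedSectionVars false

namespace Pool.Agent.AB3

open Polynomial

/-- transitivity of base change, with a named composition -/
theorem sa_trans {k R A F : Type} [Field k] [CommRing R] [Algebra k[X] R] [CommRing A] [Field F]
    (φ : k[X] →+* F[X]) (ψ : F[X] →+* A) (χ : k[X] →+* A) (h : ∀ f, ψ (φ f) = χ f) :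
    ∃ e : Bs ψ (Bs φ R) ≃+* Bs χ R, ∀ z : Bs φ R, e (Bs.inR ψ (Bs φ R) z) = Bs.map φ ψ χ h z := by
  obtain rfl : ψ.comp φ = χ := RingHom.ext h
  obtain ⟨e, -, he⟩ := bs_trans (R := R) φ ψ
  exact ⟨e, he⟩

/-- finitely many elements come from a finite intermediate field -/
theorem sa_fin {k K R H : Type} [Field k] [Finite k] [Field K] [Algebra k K]
    [Algebra.IsAlgebraic k K] [CommRing R] [Algebra k[X] R] [Group H] [Finite H]
    (C : Cov k R H) (s : Finset (Fam k K X R)) :
    ∃ F : IntermediateField k K, Finite F ∧ ∀ F' : IntermediateField k K, F ≤ F' → ∀ z ∈ s,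
      ∃ z' : Fam k F' X R, incF k K R F' X X (Polynomial.map_X _) z' = z := by
  classical
  induction s using Finset.induction_on with
  | empty =>
    obtain ⟨F, hF, -⟩ := ds_elt C X (fun F => X) (fun F => Polynomial.map_X _)
      (0 : Fam k K X R)
    exact ⟨F, hF, fun F' _ z hz => absurd hz (Finset.notMem_empty z)⟩
  | insert z s _ ih =>
    obtain ⟨F1, hF1, h1⟩ := ih
    obtain ⟨F2, hF2, h2⟩ := ds_elt C X (fun F => X) (fun F => Polynomial.map_X _) z
    refine ⟨F1 ⊔ F2, ds_sup F1 F2, fun F' hF' w hw => ?_⟩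
    rcases Finset.mem_insert.mp hw with rfl | hw
    · exact h2 F' (le_sup_right.trans hF')
    · exact h1 F' (le_sup_left.trans hF') w hw

theorem eta_ideal (k K R H : Type) [Field k] [Finite k] [Field K] [Algebra k K]
    [IsAlgClosed K] [Algebra.IsAlgebraic k K] [CommRing R] [Algebra k[X] R] [Group H]
    [Finite H] (C : Cov k R H) (n : ℕ) (hn : (n : k) ≠ 0) :
    ∃ (Q A : Ideal (Fam k K X R)) (a : Fam k K X R), Q.IsMaximal ∧
      algebraMap K[X] (Fam k K X R) X ∈ Q ∧ a ≠ 0 ∧ Q * A ^ n = Ideal.span {a} := by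
  classical
  have hdomK : IsDomain (Fam k K X R) := C.geom K
  have hded : IsDedekindDomain (Fam k K X R) := fam_dedekind C X
  obtain ⟨CK, -⟩ := cov_bc k R H C K X (fun F' _ _ _ _ => by
    rw [Polynomial.map_X]
    exact C.geom F')
  obtain ⟨Q, hQ, hXQ⟩ := qa_exists CK (0 : K)
  rw [C_0, sub_zero] at hXQ
  obtain ⟨s, hs⟩ := (IsNoetherian.noetherian Q : Q.FG)
  obtain ⟨F1, hF1, hlift⟩ := sa_fin C s
  have hlift1 := hlift F1 le_rfl
  obtain ⟨ι, hι⟩ : ∃ ι, ι = incF k K R F1 X X (Polynomial.map_X _) := ⟨_, rfl⟩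
  have hmap : (Q.comap ι).map ι = Q := by
    apply le_antisymm Ideal.map_comap_le
    conv_lhs => rw [← hs]
    rw [Ideal.span_le]
    intro z hz
    obtain ⟨z', hz'⟩ := hlift1 z hz
    rw [← hι] at hz'
    have h1 : z' ∈ Q.comap ι := by
      rw [Ideal.mem_comap, hz', ← hs]
      exact Ideal.subset_span hz
    have h2 := Ideal.mem_map_of_mem ι h1
    rw [hz'] at h2
    exact h2
  have hI : Q.comap ι ≠ ⊥ := by
    intro h
    rw [h, Ideal.map_bot] at hmap
    rw [← hmap, Ideal.mem_bot] at hXQ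
    have h3 := bs_inj C (evg k K X)
    exact X_ne_zero (h3 (hXQ.trans (map_zero _).symm))
  obtain ⟨C1, -⟩ := cov_bc k R H C F1 X (fun F' _ _ _ _ => by
    rw [Polynomial.map_X]
    exact C.geom F')
  have hn1 : (n : F1) ≠ 0 := by
    intro h
    apply hn
    apply (algebraMap k F1).injective
    rw [map_natCast, map_zero]
    exact h
  obtain ⟨F2, _, _, _, A, a, ha, hA⟩ := div_main F1 (Fam k F1 X R) H C1 (Q.comap ι) hI n hn1
  have halg : Algebra.IsAlgebraic F1 F2 := by
    have : Module.Finite F1 F2 := Module.Finite.of_finite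
    exact Algebra.IsAlgebraic.of_finite F1 F2
  obtain ⟨l, hl⟩ : ∃ l : F2 →+* K, ∀ c : F1, l (algebraMap F1 F2 c) = algebraMap F1 K c :=
    ⟨(IsAlgClosed.lift : F2 →ₐ[F1] K).toRingHom, fun c => AlgHom.commutes _ c⟩
  have hcomp : ∀ f : F1[X], Polynomial.mapRingHom l (evg F1 F2 X f) =
      Polynomial.mapRingHom (algebraMap F1 K) f := by
    intro f
    have h : (Polynomial.mapRingHom l).comp (evg F1 F2 X) =
        Polynomial.mapRingHom (algebraMap F1 K) := by
      refine Polynomial.ringHom_ext ?_ ?_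
      · intro c
        simp [evg, hl]
      · simp [evg]
    exact RingHom.congr_fun h f
  have hMinj := bs_map_inj C1 (evg F1 F2 X) (Polynomial.mapRingHom l)
    (Polynomial.mapRingHom (algebraMap F1 K)) hcomp (Polynomial.map_injective l l.injective)
  obtain ⟨e, he⟩ := sa_trans (R := R) (evg k F1 X) (Polynomial.mapRingHom (algebraMap F1 K))
    (evg k K X) (incF_aux k K F1 X X (Polynomial.map_X _))
  obtain ⟨Θ, hΘ⟩ : ∃ Θ : Fam F1 F2 X (Fam k F1 X R) →+* Fam k K X R,
      Θ = (e : _ →+* _).comp (Bs.map (evg F1 F2 X) (Polynomial.mapRingHom l)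
        (Polynomial.mapRingHom (algebraMap F1 K)) hcomp) := ⟨_, rfl⟩
  have hΘinj : Function.Injective Θ := by
    rw [hΘ]
    exact e.injective.comp hMinj
  have hΘr : Θ.comp (Bs.inR (evg F1 F2 X) (Fam k F1 X R)) = ι := by
    ext r
    rw [RingHom.comp_apply, hΘ, RingHom.comp_apply, Bs.map_inR, RingHom.coe_coe, he, hι]
    rfl
  refine ⟨Q, A.map Θ, Θ a, hQ, hXQ, ?_, ?_⟩
  · intro h
    exact ha (hΘinj (h.trans (map_zero _).symm))
  · have h1 := congrArg (Ideal.map Θ) hA
    rw [Ideal.map_mul, Ideal.map_pow, Ideal.map_map, hΘr, hmap, Ideal.map_span,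
      Set.image_singleton] at h1
    exact h1

end Pool.Agent.AB3
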