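import Pool.Agent.Lib.MP_5de024_nt.S.EtaX.InfB

/-!
# ETA: strong approximation at infinity
-/

set_option autoImplicit false
set_option linter.unusedSectionVars false

namespace Pool.Agent.AB3

open Polynomial

variable {K S H E : Type} [Field K] [CommRing S] [Algebra K[X] S] [Group H] [Finite H]
  [Field E] [Algebra S E] [IsFractionRing S E]

theorem apx_oi {z : E} (hz : z ∈ Oi K S E) : z ∈ Ri K S E :=
  (mem_Ri z).2 (isIntegral_algebraMap (x := (⟨z, hz⟩ : Oi K S E)))

/-- a proper fraction, times `X`, has no pole at infinity -/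
theorem apx_mod (hinj : Function.Injective (toE K S E)) (f g : K[X]) (hf : f ≠ 0) :
    toE K S E X * toE K S E (g % f) / toE K S E f ∈ Ri K S E := by
  refine apx_oi ⟨X * (g % f), f, hf, ?_, ?_⟩
  · by_cases h : g % f = 0
    · rw [h, mul_zero, natDegree_zero]
      exact Nat.zero_le _
    · rw [natDegree_X_mul h]
      exact natDegree_lt_natDegree h (EuclideanDomain.mod_lt g hf)
  · have h : toE K S E f ≠ 0 := by
      intro h0
      exact hf (hinj (by rw [h0, map_zero]))
    rw [div_mul_cancel₀ _ h, map_mul]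

/-- the division of the coordinates -/
theorem apx_div {ι : Type} [Fintype ι] (b : Module.Basis ι K[X] S) (s : S) (f : K[X]) :
    algebraMap S E s = algebraMap S E (∑ i, (b.repr s i / f) • b i) * toE K S E f +
      ∑ i, toE K S E (b.repr s i % f) * algebraMap S E (b i) := by
  have h1 : s = (∑ i, (b.repr s i / f) • b i) * algebraMap K[X] S f +
      ∑ i, algebraMap K[X] S (b.repr s i % f) * b i := by
    conv_lhs => rw [← b.sum_repr s]
    rw [Finset.sum_mul, ← Finset.sum_add_distrib]
    refine Finset.sum_congr rfl fun i _ => ?_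
    conv_lhs => rw [← EuclideanDomain.div_add_mod (b.repr s i) f]
    rw [Algebra.smul_def, Algebra.smul_def, map_add, map_mul]
    ring
  conv_lhs => rw [h1]
  rw [map_add, map_mul]
  refine congrArg₂ _ rfl ?_
  rw [map_sum]
  refine Finset.sum_congr rfl fun i _ => ?_
  rw [map_mul]
  rfl

theorem ri_approx (C : Cov K S H) (r : E) (hr : r ≠ 0) :
    ∃ (y : S) (D : ℕ) (t : E), 0 < D ∧ y ≠ 0 ∧ t ∈ Ri K S E ∧
      algebraMap S E y = r * toE K S E X ^ D * (1 + uE K S E * t) := by
  classical
  obtain ⟨b⟩ := cov_basis C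
  have hinj : Function.Injective (toE K S E) := toE_inj C
  have hx : toE K S E X ≠ 0 := by
    intro h0
    exact X_ne_zero (hinj (by rw [h0, map_zero]))
  choose d hd using fun i => ri_pow C (algebraMap S E (b i) * r⁻¹)
  have hc : ∀ i, algebraMap S E (b i) * r⁻¹ * uE K S E ^ (∑ i, d i + 1) ∈ Ri K S E := by
    intro i
    have h1 : d i ≤ ∑ i, d i :=
      Finset.single_le_sum (fun _ _ => Nat.zero_le _) (Finset.mem_univ i)
    obtain ⟨e, he⟩ := Nat.exists_eq_add_of_le h1
    rw [he, add_assoc, pow_add, ← mul_assoc]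
    exact (Ri K S E).mul_mem (hd i) ((Ri K S E).pow_mem uE_mem _)
  generalize hD : ∑ i, d i + 1 = D at hc
  obtain ⟨s, f, hf, hs⟩ := frac_eq C (r * toE K S E X ^ D)
  have hfE : toE K S E f ≠ 0 := by
    intro h0
    exact hf (hinj (by rw [h0, map_zero]))
  have hdiv := apx_div (E := E) b s f
  set y := ∑ i, (b.repr s i / f) • b i with hy
  set t := -∑ i, toE K S E X * toE K S E (b.repr s i % f) / toE K S E f *
    (algebraMap S E (b i) * r⁻¹ * uE K S E ^ D) with ht
  have htR : t ∈ Ri K S E :=
    (Ri K S E).neg_mem ((Ri K S E).sum_mem fun i _ =>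
      (Ri K S E).mul_mem (apx_mod hinj f _ hf) (hc i))
  have hut : r * toE K S E X ^ D * (uE K S E * t) * toE K S E f =
      -∑ i, toE K S E (b.repr s i % f) * algebraMap S E (b i) := by
    rw [ht, mul_neg, mul_neg, neg_mul, Finset.mul_sum, Finset.mul_sum, Finset.sum_mul]
    refine congrArg _ (Finset.sum_congr rfl fun i _ => ?_)
    have h1 : toE K S E X * uE K S E = 1 := mul_inv_cancel₀ hx
    calc r * toE K S E X ^ D * (uE K S E * (toE K S E X * toE K S E (b.repr s i % f) /
          toE K S E f * (algebraMap S E (b i) * r⁻¹ * uE K S E ^ D))) * toE K S E f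
        = (r * r⁻¹) * (toE K S E X * uE K S E) ^ D * (toE K S E X * uE K S E) *
          (toE K S E f / toE K S E f) *
          (toE K S E (b.repr s i % f) * algebraMap S E (b i)) := by
            rw [mul_pow]
            ring
      _ = toE K S E (b.repr s i % f) * algebraMap S E (b i) := by
        rw [h1, mul_inv_cancel₀ hr, div_self hfE, one_pow, one_mul, one_mul, one_mul, one_mul]
  have hmain : algebraMap S E y = r * toE K S E X ^ D * (1 + uE K S E * t) := by
    refine mul_right_cancel₀ hfE ?_
    rw [mul_add, mul_one, add_mul, hut, hs, hdiv]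
    ring
  refine ⟨y, D, t, by omega, ?_, htR, hmain⟩
  intro hy0
  rw [hy0, map_zero] at hmain
  exact mul_ne_zero (mul_ne_zero hr (pow_ne_zero _ hx)) (ri_jac C t htR).1 hmain.symm

end Pool.Agent.AB3
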