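import Pool.Agent.Lib.MP_5de024_nt.S.Defs

/-!
# ETA: the ring at infinity
-/

set_option autoImplicit false
set_option linter.unusedSectionVars false

namespace Pool.Agent.AB3

open Polynomial

/-- the map of `K[X]` to the field `E` of fractions of `S` -/
noncomputable def toE (K S E : Type) [Field K] [CommRing S] [Algebra K[X] S] [Field E]
    [Algebra S E] : K[X] →+* E := (algebraMap S E).comp (algebraMap K[X] S)

/-- the inverse of `X` in `E` -/
noncomputable def uE (K S E : Type) [Field K] [CommRing S] [Algebra K[X] S] [Field E]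
    [Algebra S E] : E := (toE K S E X)⁻¹

/-- the rational functions without pole at infinity -/
def Oi (K S E : Type) [Field K] [CommRing S] [Algebra K[X] S] [Field E] [Algebra S E] :
    Subring E where
  carrier := {z | ∃ f g : K[X], g ≠ 0 ∧ f.natDegree ≤ g.natDegree ∧
    z * toE K S E g = toE K S E f}
  zero_mem' := ⟨0, 1, one_ne_zero, by simp, by simp⟩
  one_mem' := ⟨1, 1, one_ne_zero, le_refl _, by simp⟩
  add_mem' := by
    rintro z1 z2 ⟨f1, g1, h1, d1, e1⟩ ⟨f2, g2, h2, d2, e2⟩
    refine ⟨f1 * g2 + f2 * g1, g1 * g2, mul_ne_zero h1 h2, ?_, ?_⟩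
    · rw [natDegree_mul h1 h2]
      refine (natDegree_add_le _ _).trans (max_le ?_ ?_)
      · exact natDegree_mul_le.trans (by omega)
      · exact natDegree_mul_le.trans (by omega)
    · rw [map_add, map_mul, map_mul, map_mul, ← e1, ← e2]; ring
  mul_mem' := by
    rintro z1 z2 ⟨f1, g1, h1, d1, e1⟩ ⟨f2, g2, h2, d2, e2⟩
    refine ⟨f1 * f2, g1 * g2, mul_ne_zero h1 h2, ?_, ?_⟩
    · rw [natDegree_mul h1 h2]
      exact natDegree_mul_le.trans (by omega)
    · rw [map_mul, map_mul, ← e1, ← e2]; ring
  neg_mem' := by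
    rintro z ⟨f, g, h, d, e⟩
    exact ⟨-f, g, h, by rwa [natDegree_neg], by rw [map_neg, ← e]; ring⟩

/-- the elements of `E` integral over the ring of rational functions without pole at
infinity -/
noncomputable def Ri (K S E : Type) [Field K] [CommRing S] [Algebra K[X] S] [Field E]
    [Algebra S E] : Subring E := (integralClosure (Oi K S E) E).toSubring

theorem mem_Ri {K S E : Type} [Field K] [CommRing S] [Algebra K[X] S] [Field E]
    [Algebra S E] (z : E) : z ∈ Ri K S E ↔ IsIntegral (Oi K S E) z := Iff.rfl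

/-- the poles of `x` at infinity are bounded by `d` (polynomial form) -/
def InfD (K S : Type) [Field K] [CommRing S] [Algebra K[X] S] (x : S) (d : ℕ) : Prop :=
  ∃ P : K[X][X], P.Monic ∧ (∀ i ≤ P.natDegree, (P.coeff i).natDegree ≤ (P.natDegree - i) * d) ∧
    P.eval₂ (algebraMap K[X] S) x = 0

/-- the substitution `X ↦ X ^ m` -/
noncomputable def exm (K : Type) [Field K] (m : ℕ) : K[X] →+* K[X] :=
  Polynomial.eval₂RingHom Polynomial.C (X ^ m)

theorem exm_evg {k K : Type} [Field k] [Field K] [Algebra k K] (m : ℕ) (f : k[X]) :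
    exm K m (evg k K X f) = evg k K (X ^ m) f := by
  have h : (exm K m).comp (evg k K X) = evg k K (X ^ m) := by
    ext a
    · simp [exm, evg]
    · simp [exm, evg]
  exact RingHom.congr_fun h f

/-- the inclusion of the cover into its base change -/
noncomputable def iim (k K R : Type) [Field k] [Field K] [Algebra k K] [CommRing R]
    [Algebra k[X] R] (m : ℕ) : Fam k K X R →+* Fam k K (X ^ m) R :=
  Bs.map (evg k K X) (exm K m) (evg k K (X ^ m)) (exm_evg m)

end Pool.Agent.AB3
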