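import Pool.Agent.Lib.MP_5de024_nt.S.EtaX.Def
import Pool.Agent.Lib.MP_5de024_nt.S.GeoM

/-!
# ETA: descent of finitely many elements to a finite field of constants
-/

set_option autoImplicit false
set_option linter.unusedSectionVars false

namespace Pool.Agent.AB3

open Polynomial

theorem incF_aux (k K : Type) [Field k] [Field K] [Algebra k K]
    (F : IntermediateField k K) (g : F[X]) (g' : K[X]) (h : g.map (algebraMap F K) = g')
    (f : k[X]) : Polynomial.mapRingHom (algebraMap F K) (evg k F g f) = evg k K g' f := by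
  subst h
  have h : (Polynomial.mapRingHom (algebraMap F K)).comp (evg k F g) =
      evg k K (g.map (algebraMap F K)) := by
    ext a
    · simp [evg]
    · simp [evg]
  exact RingHom.congr_fun h f

/-- the inclusion of the cover over an intermediate field -/
noncomputable def incF (k K R : Type) [Field k] [Field K] [Algebra k K] [CommRing R]
    [Algebra k[X] R] (F : IntermediateField k K) (g : F[X]) (g' : K[X])
    (h : g.map (algebraMap F K) = g') : Fam k F g R →+* Fam k K g' R :=
  Bs.map (evg k F g) (Polynomial.mapRingHom (algebraMap F K)) (evg k K g')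
    (incF_aux k K F g g' h)

variable {k K R H : Type} [Field k] [Field K] [Algebra k K] [CommRing R]
  [Algebra k[X] R] [Group H] [Finite H]

theorem incF_inj (C : Cov k R H) (F : IntermediateField k K) (g : F[X]) (g' : K[X])
    (h : g.map (algebraMap F K) = g') : Function.Injective (incF k K R F g g' h) := by
  refine bs_map_inj C _ _ _ _ ?_
  rw [Polynomial.coe_mapRingHom]
  exact Polynomial.map_injective _ (algebraMap F K).injective

theorem incF_inR (F : IntermediateField k K) (g : F[X]) (g' : K[X])
    (h : g.map (algebraMap F K) = g') (r : R) :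
    incF k K R F g g' h (Bs.inR (evg k F g) R r) = Bs.inR (evg k K g') R r := by
  exact Bs.map_inR _ _ _ _ _

theorem incF_alg (F : IntermediateField k K) (g : F[X]) (g' : K[X])
    (h : g.map (algebraMap F K) = g') (f : F[X]) :
    incF k K R F g g' h (algebraMap F[X] (Fam k F g R) f) =
      algebraMap K[X] (Fam k K g' R) (f.map (algebraMap F K)) := by
  exact Bs.map_alg _ _ _ _ _

theorem incF_act (C : Cov k R H) (F : IntermediateField k K) (g : F[X]) (g' : K[X])
    (h : g.map (algebraMap F K) = g') (σ : H)
    (z : Fam k F g R) : incF k K R F g g' h (Bs.act (evg k F g) C.act σ z) =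
      Bs.act (evg k K g') C.act σ (incF k K R F g g' h z) := by
  exact bs_map_act C _ _ _ _ _ _

/-- finitely many constants lie in a finite intermediate field -/
theorem ds_const [Finite k] [Algebra.IsAlgebraic k K] (s : Set K) (hs : s.Finite) :
    ∃ F : IntermediateField k K, Finite F ∧ ∀ F' : IntermediateField k K, F ≤ F' →
      ∀ c ∈ s, ∃ c' : F', algebraMap F' K c' = c := by
  have hfin : Finite s := hs
  have h1 : FiniteDimensional k (IntermediateField.adjoin k s) :=
    IntermediateField.finiteDimensional_adjoin fun x _ => Algebra.IsIntegral.isIntegral x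
  refine ⟨IntermediateField.adjoin k s, Module.finite_of_finite k, ?_⟩
  intro F' hF' c hc
  exact ⟨⟨c, hF' (IntermediateField.subset_adjoin k s hc)⟩, rfl⟩

/-- finitely many polynomials have coefficients in a finite intermediate field -/
theorem ds_fam [Finite k] [Algebra.IsAlgebraic k K] {ι : Type} {t : Set ι} (ht : t.Finite)
    (g : ι → K[X]) :
    ∃ F : IntermediateField k K, Finite F ∧ ∀ F' : IntermediateField k K, F ≤ F' →
      ∀ i ∈ t, g i ∈ Polynomial.lifts (algebraMap F' K) := by
  have hs : (⋃ i ∈ t, (g i).coeff '' ((g i).support : Set ℕ)).Finite :=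
    ht.biUnion fun i _ => (Finset.finite_toSet _).image _
  obtain ⟨F, hF, h⟩ := ds_const (k := k) _ hs
  refine ⟨F, hF, fun F' hF' i hi => ?_⟩
  rw [Polynomial.lifts_iff_coeff_lifts]
  intro n
  by_cases hn : n ∈ (g i).support
  · exact h F' hF' _ (Set.mem_biUnion hi ⟨n, Finset.mem_coe.2 hn, rfl⟩)
  · rw [Polynomial.notMem_support_iff.1 hn]
    exact ⟨0, map_zero _⟩

/-- a polynomial has coefficients in a finite intermediate field -/
theorem ds_poly [Finite k] [Algebra.IsAlgebraic k K] (f : K[X]) :
    ∃ F : IntermediateField k K, Finite F ∧ ∀ F' : IntermediateField k K, F ≤ F' →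
      ∃ f' : F'[X], f'.map (algebraMap F' K) = f := by
  obtain ⟨F, hF, h⟩ := ds_fam (k := k) (Set.finite_singleton ()) fun _ => f
  refine ⟨F, hF, fun F' hF' => ?_⟩
  exact (Polynomial.mem_lifts f).1 (h F' hF' () (Set.mem_singleton ()))

theorem ds_poly2 [Finite k] [Algebra.IsAlgebraic k K] (f : K[X][X]) :
    ∃ F : IntermediateField k K, Finite F ∧ ∀ F' : IntermediateField k K, F ≤ F' →
      ∃ f' : F'[X][X], f'.map (Polynomial.mapRingHom (algebraMap F' K)) = f := by
  obtain ⟨F, hF, h⟩ := ds_fam (k := k) (Finset.finite_toSet f.support) fun i => f.coeff i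
  refine ⟨F, hF, fun F' hF' => ?_⟩
  refine (Polynomial.mem_lifts f).1 ((Polynomial.lifts_iff_coeff_lifts f).2 fun i => ?_)
  by_cases hi : i ∈ f.support
  · obtain ⟨q, hq⟩ := (Polynomial.mem_lifts _).1 (h F' hF' i (Finset.mem_coe.2 hi))
    exact ⟨q, hq⟩
  · rw [Polynomial.notMem_support_iff.1 hi]
    exact ⟨0, map_zero _⟩

/-- an element of the base change comes from a finite intermediate field -/
theorem ds_elt [Finite k] [Algebra.IsAlgebraic k K] (C : Cov k R H) (g' : K[X])
    (g : (F : IntermediateField k K) → F[X])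
    (hg : ∀ F : IntermediateField k K, (g F).map (algebraMap F K) = g') (z : Fam k K g' R) :
    ∃ F : IntermediateField k K, Finite F ∧ ∀ F' : IntermediateField k K, F ≤ F' →
      ∃ z' : Fam k F' (g F') R, incF k K R F' (g F') g' (hg F') z' = z := by
  obtain ⟨b⟩ := cov_basis C
  obtain ⟨F, hF, h⟩ := ds_fam (k := k) (Set.finite_univ (α := Fin (Nat.card H)))
    fun i => (Bs.basis (evg k K g') b).repr z i
  refine ⟨F, hF, fun F' hF' => ?_⟩
  have h1 : ∀ i, ∃ q : F'[X], q.map (algebraMap F' K) = (Bs.basis (evg k K g') b).repr z i :=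
    fun i => (Polynomial.mem_lifts _).1 (h F' hF' i (Set.mem_univ i))
  choose q hq using h1
  refine ⟨∑ i, algebraMap F'[X] (Fam k F' (g F') R) (q i) * Bs.inR (evg k F' (g F')) R (b i), ?_⟩
  rw [map_sum]
  conv_rhs => rw [← (Bs.basis (evg k K g') b).sum_repr z]
  refine Finset.sum_congr rfl fun i _ => ?_
  rw [map_mul, incF_alg, incF_inR, hq, Bs.basis_apply, Algebra.smul_def]

theorem ds_sup (F1 F2 : IntermediateField k K) [Finite F1] [Finite F2] [Finite k] :
    Finite (F1 ⊔ F2 : IntermediateField k K) := by
  have h1 : FiniteDimensional k F1 := inferInstance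
  have h2 : FiniteDimensional k F2 := inferInstance
  have h3 : FiniteDimensional k (F1 ⊔ F2 : IntermediateField k K) :=
    IntermediateField.finiteDimensional_sup F1 F2
  exact Module.finite_of_finite k

end Pool.Agent.AB3
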