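import Pool.Agent.Lib.MP_5de024_nt.S.EtaX.Def
import Pool.Agent.Lib.MP_5de024_nt.S.GeoP

/-!
# ETA: the substitution `X ↦ X ^ m`
-/

set_option autoImplicit false
set_option linter.unusedSectionVars false

namespace Pool.Agent.AB3

open Polynomial

section exmPart

variable {K : Type} [Field K]

theorem ii_exm_eq (m : ℕ) (f : K[X]) : exm K m f = expand K m f := by
  rw [expand_eq_comp_X_pow]
  rfl

theorem ii_exm_inj (m : ℕ) (hm : 0 < m) : Function.Injective (exm K m) := by
  intro f g h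
  rw [ii_exm_eq, ii_exm_eq] at h
  exact expand_injective hm h

/-- the decomposition of a polynomial -/
theorem ii_dec (m : ℕ) (hm : 0 < m) (f : K[X]) :
    ∃ g : Fin m → K[X], f = ∑ j : Fin m, X ^ (j : ℕ) * exm K m (g j) := by
  induction f using Polynomial.induction_on' with
  | add f1 f2 h1 h2 =>
    obtain ⟨g1, hg1⟩ := h1
    obtain ⟨g2, hg2⟩ := h2
    refine ⟨fun j => g1 j + g2 j, ?_⟩
    simp only [map_add, mul_add, Finset.sum_add_distrib]
    rw [← hg1, ← hg2]
  | monomial d a =>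
    refine ⟨fun j => if (j : ℕ) = d % m then monomial (d / m) a else 0, ?_⟩
    rw [Finset.sum_eq_single (⟨d % m, Nat.mod_lt d hm⟩ : Fin m)]
    · simp only [if_true]
      rw [ii_exm_eq, expand_monomial, X_pow_mul_monomial]
      congr 1
      rw [mul_comm, Nat.div_add_mod]
    · intro j _ hj
      have hne : ¬ ((j : ℕ) = d % m) := fun h => hj (Fin.ext h)
      simp only [if_neg hne, map_zero, mul_zero]
    · intro h
      exact absurd (Finset.mem_univ _) h

/-- uniqueness of the decomposition -/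
theorem ii_uniq (m : ℕ) (hm : 0 < m) (g : Fin m → K[X])
    (hg : ∑ j : Fin m, X ^ (j : ℕ) * exm K m (g j) = 0) (j : Fin m) : g j = 0 := by
  ext l
  have h := congrArg (fun f : K[X] => f.coeff (l * m + j)) hg
  simp only [finsetSum_coeff, coeff_zero] at h
  rw [Finset.sum_eq_single j] at h
  · rw [coeff_X_pow_mul', if_pos (Nat.le_add_left _ _), Nat.add_sub_cancel, ii_exm_eq,
      coeff_expand_mul hm] at h
    rw [h, coeff_zero]
  · intro j' _ hj'
    rw [coeff_X_pow_mul']
    split_ifs with hle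
    · rw [ii_exm_eq, coeff_expand hm, if_neg]
      rintro ⟨c, hc⟩
      apply hj'
      have h1 : l * m + (j : ℕ) = m * c + j' := by omega
      have h2 : (l * m + (j : ℕ)) % m = j := by
        rw [mul_comm, Nat.mul_add_mod, Nat.mod_eq_of_lt j.2]
      have h3 : (m * c + (j' : ℕ)) % m = j' := by
        rw [Nat.mul_add_mod, Nat.mod_eq_of_lt j'.2]
      apply Fin.ext
      rw [← h3, ← h1, h2]
    · rfl
  · intro h
    exact absurd (Finset.mem_univ _) h

end exmPart

variable {k K R H : Type} [Field k] [Field K] [Algebra k K] [CommRing R] [Algebra k[X] R]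
  [Group H] [Finite H]

theorem iim_inj (C : Cov k R H) (m : ℕ) (hm : 0 < m) :
    Function.Injective (iim k K R m) :=
  bs_map_inj C _ _ _ _ (ii_exm_inj m hm)

theorem iim_alg (m : ℕ) (f : K[X]) : iim k K R m (algebraMap K[X] (Fam k K X R) f) =
    algebraMap K[X] (Fam k K (X ^ m) R) (exm K m f) :=
  Bs.map_alg _ _ _ _ _

theorem iim_act (C : Cov k R H) (m : ℕ) (h : H) (z : Fam k K X R) :
    iim k K R m (Bs.act (evg k K X) C.act h z) =
      Bs.act (evg k K (X ^ m)) C.act h (iim k K R m z) :=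
  bs_map_act C _ _ _ _ _ _

/-- the coordinates of a sum -/
theorem ii_repr {N : ℕ} (b : Module.Basis (Fin N) k[X] R) (m : ℕ) (w : Fin m → Fam k K X R)
    (i : Fin N) :
    (Bs.basis (evg k K (X ^ m)) b).repr
      (∑ j : Fin m, algebraMap K[X] (Fam k K (X ^ m) R) (X ^ (j : ℕ)) * iim k K R m (w j)) i =
      ∑ j : Fin m, X ^ (j : ℕ) * exm K m ((Bs.basis (evg k K X) b).repr (w j) i) := by
  rw [map_sum, Finsupp.finsetSum_apply]
  refine Finset.sum_congr rfl fun j _ => ?_
  rw [← Algebra.smul_def, map_smul, Finsupp.smul_apply, smul_eq_mul]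
  congr 1
  exact bs_map_repr _ _ _ _ _ _ _

theorem iim_dec (C : Cov k R H) (m : ℕ) (hm : 0 < m) (z : Fam k K (X ^ m) R) :
    ∃ w : Fin m → Fam k K X R,
      z = ∑ j : Fin m, algebraMap K[X] (Fam k K (X ^ m) R) (X ^ (j : ℕ)) * iim k K R m (w j) := by
  obtain ⟨b⟩ := cov_basis C
  choose g hg using fun i => ii_dec (K := K) m hm ((Bs.basis (evg k K (X ^ m)) b).repr z i)
  refine ⟨fun j => (Bs.basis (evg k K X) b).equivFun.symm fun i => g i j, ?_⟩
  apply (Bs.basis (evg k K (X ^ m)) b).repr.injective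
  ext1 i
  rw [ii_repr, hg i]
  refine Finset.sum_congr rfl fun j _ => ?_
  rw [← Module.Basis.equivFun_apply, LinearEquiv.apply_symm_apply]

theorem iim_uniq (C : Cov k R H) (m : ℕ) (hm : 0 < m) (w : Fin m → Fam k K X R)
    (hw : ∑ j : Fin m, algebraMap K[X] (Fam k K (X ^ m) R) (X ^ (j : ℕ)) * iim k K R m (w j) = 0)
    (j : Fin m) : w j = 0 := by
  obtain ⟨b⟩ := cov_basis C
  apply (Bs.basis (evg k K X) b).repr.injective
  ext1 i
  rw [map_zero, Finsupp.zero_apply]
  refine ii_uniq m hm (fun j => (Bs.basis (evg k K X) b).repr (w j) i) ?_ j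
  rw [← ii_repr, hw, map_zero, Finsupp.zero_apply]

/-- the automorphism `X ↦ ζ X` -/
theorem iim_tau (m : ℕ) (ζ : K) (hζ : ζ ^ m = 1) :
    ∃ τ : Fam k K (X ^ m) R →+* Fam k K (X ^ m) R,
      (∀ z, τ (iim k K R m z) = iim k K R m z) ∧
      (∀ c : K, τ (algebraMap K[X] (Fam k K (X ^ m) R) (C c)) =
        algebraMap K[X] (Fam k K (X ^ m) R) (C c)) ∧
      τ (algebraMap K[X] (Fam k K (X ^ m) R) X) =
        algebraMap K[X] (Fam k K (X ^ m) R) (C ζ * X) := by
  obtain ⟨σ, hσ⟩ : ∃ σ : K[X] →+* K[X], σ = eval₂RingHom Polynomial.C (C ζ * X) := ⟨_, rfl⟩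
  have hσC : ∀ c, σ (C c) = C c := fun c => by rw [hσ, coe_eval₂RingHom, eval₂_C]
  have hσX : σ X = C ζ * X := by rw [hσ, coe_eval₂RingHom, eval₂_X]
  have hσm : σ (X ^ m) = X ^ m := by
    rw [map_pow, hσX, mul_pow, ← C_pow, hζ, C_1, one_mul]
  have hσe : ∀ f, σ (exm K m f) = exm K m f := by
    intro f
    have h : σ.comp (exm K m) = exm K m := by
      refine Polynomial.ringHom_ext (fun a => ?_) ?_
      · rw [RingHom.comp_apply, exm, coe_eval₂RingHom, eval₂_C, hσC]
      · rw [RingHom.comp_apply, exm, coe_eval₂RingHom, eval₂_X, hσm]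
    exact RingHom.congr_fun h f
  have hσv : ∀ f, σ (evg k K (X ^ m) f) = evg k K (X ^ m) f := by
    intro f
    rw [← exm_evg, hσe]
  refine ⟨Bs.map (evg k K (X ^ m)) σ (evg k K (X ^ m)) hσv, fun z => ?_, fun c => ?_, ?_⟩
  · have h : (Bs.map (evg k K (X ^ m)) σ (evg k K (X ^ m)) hσv :
        Fam k K (X ^ m) R →+* Fam k K (X ^ m) R).comp (iim k K R m) = iim k K R m := by
      apply Bs.hom_ext
      · intro a
        rw [RingHom.comp_apply, iim_alg, Bs.map_alg, hσe]
      · intro r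
        rw [RingHom.comp_apply, iim, Bs.map_inR, Bs.map_inR]
    exact RingHom.congr_fun h z
  · rw [Bs.map_alg, hσC]
  · rw [Bs.map_alg, hσX]

end Pool.Agent.AB3
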