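import Pool.Agent.Lib.MP_5de024_nt.S.EtaX.InfA

/-!
# ETA: the ring at infinity is a principal ideal domain
-/

set_option autoImplicit false
set_option linter.unusedSectionVars false

namespace Pool.Agent.AB3

open Polynomial

variable {K S H E : Type} [Field K] [CommRing S] [Algebra K[X] S] [Group H] [Finite H]
  [Field E] [Algebra S E] [IsFractionRing S E]

/-- the extension of the action to the field of fractions -/
noncomputable def infB_ex (E : Type) [Field E] [Algebra S E] [IsFractionRing S E]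
    (C : Cov K S H) (h : H) : E ≃+* E :=
  IsFractionRing.ringEquivOfRingEquiv (C.act h).toRingEquiv

theorem infB_ex_alg (C : Cov K S H) (h : H) (s : S) :
    infB_ex E C h (algebraMap S E s) = algebraMap S E (C.act h s) :=
  IsFractionRing.ringEquivOfRingEquiv_algebraMap _ _

theorem infB_ex_one (C : Cov K S H) (z : E) : infB_ex E C 1 z = z := by
  obtain ⟨s, f, hf, hz⟩ := frac_eq C z
  have h0 : toE K S E f ≠ 0 := fun h => hf (toE_inj (E := E) C (by rw [h, map_zero]))
  have h1 := congrArg (infB_ex E C 1) hz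
  rw [map_mul, infB_ex_alg, map_one, AlgEquiv.one_apply, ← hz, toE, RingHom.comp_apply,
    infB_ex_alg, AlgEquiv.commutes] at h1
  exact mul_right_cancel₀ h0 h1

theorem infB_ex_mul (C : Cov K S H) (g h : H) (z : E) :
    infB_ex E C (g * h) z = infB_ex E C g (infB_ex E C h z) := by
  obtain ⟨s, f, hf, hz⟩ := frac_eq C z
  have h0 : toE K S E f ≠ 0 := fun h => hf (toE_inj (E := E) C (by rw [h, map_zero]))
  have h2 : ∀ g : H, infB_ex E C g (toE K S E f) = toE K S E f := by
    intro g
    rw [toE, RingHom.comp_apply, infB_ex_alg, AlgEquiv.commutes]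
  have h1 := congrArg (infB_ex E C (g * h)) hz
  have h3 : infB_ex E C g (infB_ex E C h (z * toE K S E f)) =
      infB_ex E C g (infB_ex E C h (algebraMap S E s)) := by rw [hz]
  rw [map_mul, infB_ex_alg, h2] at h1
  rw [map_mul, h2, map_mul, h2, infB_ex_alg, infB_ex_alg, ← AlgEquiv.mul_apply, ← map_mul,
    ← h1] at h3
  exact (mul_right_cancel₀ h0 h3).symm

/-- the action on the field of fractions -/
@[reducible] noncomputable def infB_act (E : Type) [Field E] [Algebra S E] [IsFractionRing S E]
    (C : Cov K S H) : MulSemiringAction H E where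
  smul h z := infB_ex E C h z
  one_smul z := infB_ex_one C z
  mul_smul g h z := infB_ex_mul C g h z
  smul_zero _ := map_zero _
  smul_add _ x y := map_add _ x y
  smul_one _ := map_one _
  smul_mul _ x y := map_mul _ x y

theorem infB_fix (C : Cov K S H) (z : E) (hz : ∀ h, infB_ex E C h z = z) :
    ∃ f g : K[X], g ≠ 0 ∧ z * toE K S E g = toE K S E f := by
  obtain ⟨s, f, hf, hs⟩ := frac_eq C z
  have : IsDomain S := cov_domain C
  obtain ⟨f', hf'⟩ := C.fixed s (fun h => IsFractionRing.injective S E (by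
    rw [← infB_ex_alg, ← hs, map_mul, hz, toE, RingHom.comp_apply, infB_ex_alg,
      AlgEquiv.commutes]))
  exact ⟨f', f, hf, by rw [hs, ← hf']; rfl⟩

theorem infB_oi_fix (C : Cov K S H) (z : E) (hz : z ∈ Oi K S E) (h : H) :
    infB_ex E C h z = z := by
  obtain ⟨f, g, hg, -, e⟩ := hz
  have h0 : toE K S E g ≠ 0 := fun h => hg (toE_inj (E := E) C (by rw [h, map_zero]))
  have h1 := congrArg (infB_ex E C h) e
  have h2 : ∀ f, infB_ex E C h (toE K S E f) = toE K S E f := by
    intro g
    rw [toE, RingHom.comp_apply, infB_ex_alg, AlgEquiv.commutes]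
  rw [map_mul, h2, h2, ← e] at h1
  exact mul_right_cancel₀ h0 h1

theorem infB_main (C : Cov K S H) :
    Module.Finite (Oi K S E) (integralClosure (Oi K S E) E) ∧
      IsDedekindDomain (integralClosure (Oi K S E) E) := by
  have hinj : Function.Injective (toE K S E) := toE_inj C
  have : IsPrincipalIdealRing (Oi K S E) := oi_pid hinj
  let _ : MulSemiringAction H E := infB_act E C
  let E0 := FixedPoints.subfield H E
  let ρ : Oi K S E →+* E0 :=
    { toFun := fun z => ⟨z.1, fun h => infB_oi_fix C z.1 z.2 h⟩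
      map_one' := rfl
      map_mul' := fun _ _ => rfl
      map_zero' := rfl
      map_add' := fun _ _ => rfl }
  let _ : Algebra (Oi K S E) E0 := RingHom.toAlgebra ρ
  have : IsScalarTower (Oi K S E) E0 E := IsScalarTower.of_algebraMap_eq (fun _ => rfl)
  have hρ : Function.Injective ρ := fun a b hab => Subtype.ext (congrArg (fun z => z.1) hab)
  have : FaithfulSMul (Oi K S E) E0 := (faithfulSMul_iff_algebraMap_injective _ _).2 hρ
  have hx : toE K S E X ≠ 0 := fun h => X_ne_zero (hinj (by rw [h, map_zero]))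
  have hmem : ∀ (f : K[X]) (d : ℕ), f.natDegree ≤ d → toE K S E f / toE K S E X ^ d ∈
      Oi K S E := by
    intro f d hd
    refine ⟨f, X ^ d, pow_ne_zero _ X_ne_zero, by rwa [natDegree_X_pow], ?_⟩
    rw [map_pow, div_mul_cancel₀ _ (pow_ne_zero _ hx)]
  have : IsFractionRing (Oi K S E) E0 := by
    refine IsFractionRing.of_field _ _ (fun z => ?_)
    obtain ⟨f, g, hg, e⟩ := infB_fix C z.1 (fun h => z.2 h)
    have hg0 : toE K S E g ≠ 0 := fun h => hg (hinj (by rw [h, map_zero]))
    refine ⟨⟨_, hmem f (max f.natDegree g.natDegree) (le_max_left _ _)⟩,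
      ⟨_, hmem g (max f.natDegree g.natDegree) (le_max_right _ _)⟩, ?_⟩
    apply Subtype.ext
    change z.1 = (toE K S E f / toE K S E X ^ (max f.natDegree g.natDegree)) /
      (toE K S E g / toE K S E X ^ (max f.natDegree g.natDegree))
    rw [div_div_div_cancel_right₀ (pow_ne_zero _ hx), eq_div_iff hg0]
    exact e
  refine ⟨IsIntegralClosure.finite (Oi K S E) E0 E _, integralClosure.isDedekindDomain
    (Oi K S E) E0 E⟩

theorem ri_finite (C : Cov K S H) :
    Module.Finite (Oi K S E) (integralClosure (Oi K S E) E) := (infB_main C).1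

/-- `1 + u z` is a unit -/
theorem infB_jac (C : Cov K S H) (u z : integralClosure (Oi K S E) E)
    (hu : (u : E) = uE K S E) : IsUnit (1 + u * z) := by
  have hinj : Function.Injective (toE K S E) := toE_inj C
  by_contra hnu
  obtain ⟨M, hM, hmem⟩ := exists_max_ideal_of_mem_nonunits hnu
  have hM' : (M.comap (algebraMap (Oi K S E) (integralClosure (Oi K S E) E))).IsMaximal :=
    Ideal.isMaximal_comap_of_isIntegral_of_isMaximal M
  let u' : Oi K S E := ⟨uE K S E, by
    have := (oi_unit hinj 1 (one_mem _)).1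
    rwa [one_mul] at this⟩
  have huu : algebraMap (Oi K S E) (integralClosure (Oi K S E) E) u' = u := by
    apply Subtype.ext
    rw [hu]; rfl
  have huM : u ∈ M := by
    by_contra hn
    have hn' : u' ∉ M.comap (algebraMap (Oi K S E) (integralClosure (Oi K S E) E)) := by
      rw [Ideal.mem_comap, huu]; exact hn
    obtain ⟨a, x, hx, hax⟩ := (Ideal.IsMaximal.exists_inv hM' hn')
    obtain ⟨-, h1, h2, -⟩ := oi_unit hinj (-(a : E)) (neg_mem a.2)
    refine hM'.ne_top (Ideal.eq_top_of_isUnit_mem _ hx (IsUnit.of_mul_eq_one ⟨_, h2⟩ ?_))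
    apply Subtype.ext
    change (x : E) * (1 + -(a : E) * uE K S E)⁻¹ = 1
    have h3 : (x : E) = 1 + -(a : E) * uE K S E := by
      have h4 : (a : E) * uE K S E + (x : E) = 1 :=
        congrArg (fun t : Oi K S E => (t : E)) hax
      rw [← h4]; ring
    rw [h3, mul_inv_cancel₀ h1]
  refine hM.ne_top ((Ideal.eq_top_iff_one _).2 ?_)
  have : (1 : integralClosure (Oi K S E) E) = (1 + u * z) - z * u := by ring
  rw [this]
  exact M.sub_mem hmem (M.mul_mem_left _ huM)

theorem ri_pid (C : Cov K S H) : IsPrincipalIdealRing (Ri K S E) := by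
  have hinj : Function.Injective (toE K S E) := toE_inj C
  obtain ⟨hfin, hded⟩ := infB_main (E := E) C
  let B := integralClosure (Oi K S E) E
  let u : B := ⟨uE K S E, uE_mem⟩
  have hu0 : u ≠ 0 := by
    intro h
    have h1 : (toE K S E X)⁻¹ = 0 := congrArg (fun t : B => (t : E)) h
    rw [inv_eq_zero] at h1
    exact X_ne_zero (hinj (by rw [h1, map_zero]))
  have hsub : {I : Ideal B | I.IsMaximal} ⊆ {I : Ideal B | I ∣ Ideal.span {u}} := by
    intro M hM
    have hM1 : M.IsMaximal := hM
    change M ∣ Ideal.span {u}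
    rw [Ideal.dvd_span_singleton]
    by_contra hn
    obtain ⟨a, x, hx, hax⟩ := Ideal.IsMaximal.exists_inv hM1 hn
    refine hM1.ne_top (Ideal.eq_top_of_isUnit_mem _ hx ?_)
    have : x = 1 + u * (-a) := by rw [← hax]; ring
    rw [this]
    exact infB_jac C u (-a) rfl
  have hfin2 : {I : Ideal B | I ∣ Ideal.span {u}}.Finite := by
    have hne : Ideal.span {u} ≠ ⊥ := by rwa [Ne, Ideal.span_singleton_eq_bot]
    have := UniqueFactorizationMonoid.fintypeSubtypeDvd (Ideal.span {u}) hne
    exact (Set.finite_range (fun I : {I : Ideal B // I ∣ Ideal.span {u}} => I.1)).subset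
      (fun I hI => ⟨⟨I, hI⟩, rfl⟩)
  have hpid : IsPrincipalIdealRing B :=
    IsPrincipalIdealRing.of_finite_maximals (hfin2.subset hsub)
  let e : B →+* Ri K S E :=
    { toFun := fun z => ⟨z.1, z.2⟩
      map_one' := rfl
      map_mul' := fun _ _ => rfl
      map_zero' := rfl
      map_add' := fun _ _ => rfl }
  exact IsPrincipalIdealRing.of_surjective e (fun z => ⟨⟨z.1, z.2⟩, rfl⟩)

theorem ri_jac (C : Cov K S H) (z : E) (hz : z ∈ Ri K S E) :
    1 + uE K S E * z ≠ 0 ∧ (1 + uE K S E * z)⁻¹ ∈ Ri K S E := by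
  let u : integralClosure (Oi K S E) E := ⟨uE K S E, uE_mem⟩
  obtain ⟨w, hw⟩ := (infB_jac C u ⟨z, hz⟩ rfl).exists_right_inv
  have h1 : (1 + uE K S E * z) * (w : E) = 1 :=
    congrArg (fun t : integralClosure (Oi K S E) E => (t : E)) hw
  have h0 : 1 + uE K S E * z ≠ 0 := left_ne_zero_of_mul_eq_one h1
  refine ⟨h0, ?_⟩
  rw [← eq_inv_of_mul_eq_one_right h1]
  exact w.2

end Pool.Agent.AB3
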