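import Pool.Agent.Lib.MP_5de024_nt.S.EtaX.InfB

/-!
# ETA: roots of units modulo `u`
-/

set_option autoImplicit false
set_option linter.unusedSectionVars false

namespace Pool.Agent.AB3

open Polynomial

/-- roots modulo nilpotents -/
theorem InfC_nil (K B : Type) [Field K] [IsAlgClosed K] [CommRing B] [Algebra K B]
    [Module.Finite K B] (n : ℕ) (hn0 : 0 < n) (b : B) : ∃ z : B, IsNilpotent (z ^ n - b) := by
  have hart : IsArtinianRing B := IsArtinianRing.of_finite K B
  have h1 : ∀ m : MaximalSpectrum B, ∃ c : K, (algebraMap K B c) ^ n - b ∈ m.asIdeal := by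
    intro m
    have hmax := m.isMaximal
    let F := B ⧸ m.asIdeal
    have hfin : Module.Finite K F := inferInstance
    have hint : Algebra.IsIntegral K F := inferInstance
    obtain ⟨β, hβ⟩ := (IsAlgClosed.algebraMap_bijective_of_isIntegral (k := K) (K := F)).2
      (Ideal.Quotient.mk m.asIdeal b)
    obtain ⟨c, hc⟩ := IsAlgClosed.exists_pow_nat_eq β hn0
    refine ⟨c, ?_⟩
    rw [← Ideal.Quotient.eq_zero_iff_mem, map_sub, map_pow, ← hβ, ← hc, map_pow]
    exact sub_self _
  choose c hc using h1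
  have hcop : Pairwise (Function.onFun IsCoprime fun m : MaximalSpectrum B => m.asIdeal) := by
    intro m m' hmm
    refine Ideal.isCoprime_iff_sup_eq.mpr ?_
    exact m.isMaximal.coprime_of_ne m'.isMaximal fun h => hmm (MaximalSpectrum.ext h)
  obtain ⟨z, hz⟩ := Ideal.exists_forall_sub_mem_ideal hcop fun m => algebraMap K B (c m)
  refine ⟨z, ?_⟩
  rw [nilpotent_iff_mem_prime]
  intro J hJ
  have hmax : J.IsMaximal := IsArtinianRing.isMaximal_of_isPrime J
  have h2 := hz ⟨J, hmax⟩
  have h3 := hc ⟨J, hmax⟩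
  have h4 : z ^ n - (algebraMap K B (c ⟨J, hmax⟩)) ^ n ∈ J :=
    J.mem_of_dvd (sub_dvd_pow_sub_pow _ _ n) h2
  have h5 := J.add_mem h4 h3
  rwa [sub_add_sub_cancel] at h5

/-- units of a finite-dimensional algebra have `n`-th roots -/
theorem root_art (K B : Type) [Field K] [IsAlgClosed K] (p : ℕ) [Fact p.Prime] [CharP K p]
    [CommRing B] [Algebra K B] [Module.Finite K B] (n : ℕ) (hn : n.Coprime p) (hn0 : 0 < n)
    (b : B) (hb : IsUnit b) : ∃ z : B, z ^ n = b := by
  rcases subsingleton_or_nontrivial B with hB | hB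
  · exact ⟨b, Subsingleton.elim _ _⟩
  have hchar : CharP B p := charP_of_injective_algebraMap (algebraMap K B).injective p
  obtain ⟨z0, N, hN⟩ := InfC_nil K B n hn0 b
  have hp := (Fact.out : p.Prime)
  have h1 : (z0 ^ n - b) ^ p ^ N = 0 := by
    have h2 : N ≤ p ^ N := (Nat.lt_pow_self hp.one_lt).le
    rw [← Nat.sub_add_cancel h2, pow_add, hN, mul_zero]
  rw [sub_pow_char_pow, sub_eq_zero, ← pow_mul, mul_comm, pow_mul] at h1
  obtain ⟨β, rfl⟩ := hb
  have h2 : IsUnit (z0 ^ p ^ N) := by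
    rw [← isUnit_pow_iff hn0.ne', h1]
    exact β.isUnit.pow _
  obtain ⟨ω, hω⟩ := h2
  rw [← hω] at h1
  have h3 : ω ^ n = β ^ p ^ N := by
    refine Units.ext ?_
    rw [Units.val_pow_eq_pow_val, Units.val_pow_eq_pow_val]
    exact h1
  have h4 : IsCoprime (n : ℤ) ((p ^ N : ℕ) : ℤ) :=
    Nat.isCoprime_iff_coprime.mpr (Nat.Coprime.pow_right N hn)
  obtain ⟨s, t, hst⟩ := h4
  refine ⟨((β ^ s * ω ^ t : Bˣ) : B), ?_⟩
  rw [← Units.val_pow_eq_pow_val]
  have h5 : (β ^ s * ω ^ t) ^ n = β := by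
    rw [mul_pow, ← zpow_natCast (β ^ s), ← zpow_natCast (ω ^ t), ← zpow_mul, ← zpow_mul,
      mul_comm t (n : ℤ), zpow_mul ω, zpow_natCast ω n, h3, ← zpow_natCast β (p ^ N), ← zpow_mul,
      ← zpow_add, mul_comm ((p ^ N : ℕ) : ℤ) t, hst, zpow_one]
  rw [h5]

variable {K S H E : Type} [Field K] [CommRing S] [Algebra K[X] S] [Group H] [Finite H]
  [Field E] [Algebra S E] [IsFractionRing S E]

/-- the rational functions without pole at infinity are integral -/
theorem InfC_oi (t : E) (ht : t ∈ Oi K S E) : t ∈ Ri K S E :=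
  (mem_Ri t).mpr (isIntegral_algebraMap (R := Oi K S E) (A := E) (x := ⟨t, ht⟩))

/-- the constants in the ring at infinity -/
noncomputable def InfCc (K S E : Type) [Field K] [CommRing S] [Algebra K[X] S] [Field E]
    [Algebra S E] [IsFractionRing S E] : K →+* Ri K S E where
  toFun c := ⟨toE K S E (C c), const_mem c⟩
  map_one' := Subtype.ext (by
    change toE K S E (C 1) = 1
    rw [map_one, map_one])
  map_mul' a b := Subtype.ext (by
    change toE K S E (C (a * b)) = toE K S E (C a) * toE K S E (C b)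
    rw [map_mul, map_mul])
  map_zero' := Subtype.ext (by
    change toE K S E (C 0) = 0
    rw [map_zero, map_zero])
  map_add' a b := Subtype.ext (by
    change toE K S E (C (a + b)) = toE K S E (C a) + toE K S E (C b)
    rw [map_add, map_add])

/-- `u` as an element of the ring at infinity -/
noncomputable def InfCu (K S E : Type) [Field K] [CommRing S] [Algebra K[X] S] [Field E]
    [Algebra S E] [IsFractionRing S E] : Ri K S E := ⟨uE K S E, uE_mem⟩

/-- the ring at infinity modulo `u` -/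
abbrev InfCB (K S E : Type) [Field K] [CommRing S] [Algebra K[X] S] [Field E]
    [Algebra S E] [IsFractionRing S E] : Type :=
  Ri K S E ⧸ Ideal.span {InfCu K S E}

/-- the constants modulo `u` -/
noncomputable def InfCh (K S E : Type) [Field K] [CommRing S] [Algebra K[X] S] [Field E]
    [Algebra S E] [IsFractionRing S E] : K →+* InfCB K S E :=
  (Ideal.Quotient.mk _).comp (InfCc K S E)

theorem InfC_fin (C : Cov K S H) :
    @Module.Finite K (InfCB K S E) _ _ (InfCh K S E).toAlgebra.toModule := by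
  classical
  let alg : Algebra K (InfCB K S E) := (InfCh K S E).toAlgebra
  obtain ⟨s, hs⟩ := (ri_finite (E := E) C).fg_top
  let g : integralClosure (Oi K S E) E → InfCB K S E := fun x =>
    Ideal.Quotient.mk (Ideal.span {InfCu K S E}) ⟨(x : E), (mem_Ri (x : E)).mpr x.2⟩
  have hg0 : g 0 = 0 := map_zero (Ideal.Quotient.mk (Ideal.span {InfCu K S E}))
  have hga : ∀ x y, g (x + y) = g x + g y := fun x y =>
    map_add (Ideal.Quotient.mk (Ideal.span {InfCu K S E}))
      ⟨(x : E), (mem_Ri (x : E)).mpr x.2⟩ ⟨(y : E), (mem_Ri (y : E)).mpr y.2⟩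
  have key : ∀ x, g x ∈ Submodule.span K ((s.image g : Finset (InfCB K S E)) :
      Set (InfCB K S E)) := by
    intro x
    have hx : x ∈ Submodule.span (Oi K S E) (s : Set (integralClosure (Oi K S E) E)) := by
      rw [hs]
      trivial
    induction hx using Submodule.span_induction with
    | mem x hx =>
      refine Submodule.subset_span ?_
      rw [Finset.coe_image]
      exact ⟨x, hx, rfl⟩
    | zero =>
      rw [hg0]
      exact Submodule.zero_mem _
    | add x y _ _ hx hy =>
      rw [hga]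
      exact Submodule.add_mem _ hx hy
    | smul o x _ hx =>
      obtain ⟨c, t, ht, hc⟩ := oi_const (toE_inj C) (o : E) o.2
      have h1 : g (o • x) = c • g x := by
        rw [Algebra.smul_def]
        change Ideal.Quotient.mk (Ideal.span {InfCu K S E}) _ =
          Ideal.Quotient.mk (Ideal.span {InfCu K S E}) (InfCc K S E c) *
          Ideal.Quotient.mk (Ideal.span {InfCu K S E}) _
        rw [← map_mul, Ideal.Quotient.eq, Ideal.mem_span_singleton']
        refine ⟨⟨t * (x : E), (Ri K S E).mul_mem (InfC_oi t ht) ((mem_Ri (x : E)).mpr x.2)⟩,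
          Subtype.ext ?_⟩
        change t * (x : E) * uE K S E = (o : E) * (x : E) - toE K S E (Polynomial.C c) * (x : E)
        rw [hc]
        ring
      rw [h1]
      exact Submodule.smul_mem _ _ hx
  refine ⟨⟨s.image g, ?_⟩⟩
  rw [eq_top_iff]
  rintro b -
  obtain ⟨a, rfl⟩ := Ideal.Quotient.mk_surjective b
  exact key ⟨(a : E), (mem_Ri (a : E)).mp a.2⟩

theorem ri_root (C : Cov K S H) [IsAlgClosed K] (p : ℕ) [Fact p.Prime] [CharP K p] (n : ℕ)
    (hn : n.Coprime p) (hn0 : 0 < n) (v : E) (hv : v ∈ Ri K S E) (hv0 : v ≠ 0)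
    (hv1 : v⁻¹ ∈ Ri K S E) :
    ∃ z t : E, z ∈ Ri K S E ∧ z ≠ 0 ∧ t ∈ Ri K S E ∧ v * z ^ n = 1 + uE K S E * t := by
  let alg : Algebra K (InfCB K S E) := (InfCh K S E).toAlgebra
  have hfin : Module.Finite K (InfCB K S E) := InfC_fin C
  have hunit : IsUnit (Ideal.Quotient.mk (Ideal.span {InfCu K S E}) ⟨v⁻¹, hv1⟩) := by
    refine IsUnit.of_mul_eq_one (Ideal.Quotient.mk (Ideal.span {InfCu K S E}) ⟨v, hv⟩) ?_
    rw [← map_mul, ← map_one (Ideal.Quotient.mk (Ideal.span {InfCu K S E}))]
    congr 1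
    exact Subtype.ext (inv_mul_cancel₀ hv0)
  obtain ⟨z', hz'⟩ := root_art K (InfCB K S E) p n hn hn0 _ hunit
  obtain ⟨z, rfl⟩ := Ideal.Quotient.mk_surjective z'
  rw [← map_pow, Ideal.Quotient.eq, Ideal.mem_span_singleton'] at hz'
  obtain ⟨t, ht⟩ := hz'
  have h1 : (t : E) * uE K S E = (z : E) ^ n - v⁻¹ := congrArg (fun x : Ri K S E => (x : E)) ht
  have hvt : v * (t : E) ∈ Ri K S E := (Ri K S E).mul_mem hv t.2
  have h2 : v * (z : E) ^ n = 1 + uE K S E * (v * (t : E)) := by
    have h3 : (z : E) ^ n = v⁻¹ + (t : E) * uE K S E := by rw [h1]; ring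
    rw [h3, mul_add, mul_inv_cancel₀ hv0]
    ring
  refine ⟨z, v * (t : E), z.2, ?_, hvt, h2⟩
  intro hz
  rw [hz, zero_pow hn0.ne', mul_zero] at h2
  exact (ri_jac C _ hvt).1 h2.symm

end Pool.Agent.AB3
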