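import Mathlib

/-!
# ETA: ramification indices in an extension of principal ideal domains
-/

set_option autoImplicit false
set_option linter.unusedSectionVars false

namespace Pool.Agent.AB3

open Polynomial

theorem pid_bound (A : Type) [CommRing A] [IsDomain A] [IsPrincipalIdealRing A] (u : A)
    (hu : u ≠ 0) : ∃ M : ℕ, ∀ π : A, Prime π → ¬ π ^ (M + 1) ∣ u := by
  induction u using UniqueFactorizationMonoid.induction_on_prime with
  | h₁ => exact absurd rfl hu
  | h₂ x hx =>
    refine ⟨0, fun π hπ hd => hπ.not_isUnit ?_⟩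
    rw [zero_add, pow_one] at hd
    exact isUnit_of_dvd_unit hd hx
  | h₃ a q ha hq ih =>
    obtain ⟨M, hM⟩ := ih ha
    refine ⟨M + 1, fun π hπ hd => hM π hπ ?_⟩
    by_cases hpq : π ∣ q
    · have hass : Associated π q := hπ.associated_of_dvd hq hpq
      obtain ⟨e, he⟩ := hass
      rw [← he, pow_succ', mul_assoc] at hd
      have h1 : π ^ (M + 1) ∣ (e : A) * a := (mul_dvd_mul_iff_left hπ.ne_zero).mp hd
      exact (e.isUnit.dvd_mul_left).mp h1
    · have h1 : π ^ (M + 1 + 1) ∣ a := hπ.pow_dvd_of_dvd_mul_left _ hpq hd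
      exact (pow_dvd_pow π (Nat.le_succ _)).trans h1

/-- an element whose multiplicities are divisible by `n` is a unit times an `n`-th power -/
theorem pid_pow (B : Type) [CommRing B] [IsDomain B] [IsPrincipalIdealRing B] (n : ℕ)
    (hn0 : 0 < n) (x : B) : x ≠ 0 → (∀ w : B, Prime w → n ∣ multiplicity w x) →
      ∃ b w : B, b ≠ 0 ∧ IsUnit w ∧ x = w * b ^ n := by
  have wf : WellFounded (DvdNotUnit : B → B → Prop) := wellFounded_dvdNotUnit
  induction x using wf.induction with
  | _ x ih =>
    intro hx0 hx
    by_cases hxu : IsUnit x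
    · exact ⟨1, x, one_ne_zero, hxu, by rw [one_pow, mul_one]⟩
    · obtain ⟨q, hqi, hqx⟩ := WfDvdMonoid.exists_irreducible_factor hxu hx0
      have hq : Prime q := hqi.prime
      have hfin : FiniteMultiplicity q x := FiniteMultiplicity.of_prime_left hq hx0
      have hm0 : multiplicity q x ≠ 0 := multiplicity_ne_zero.mpr hqx
      have hnm : n ≤ multiplicity q x := Nat.le_of_dvd (Nat.pos_of_ne_zero hm0) (hx q hq)
      have hqn : q ^ n ∣ x := hfin.pow_dvd_iff_le_multiplicity.mpr hnm
      obtain ⟨y, hy⟩ := hqn
      have hy0 : y ≠ 0 := by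
        rintro rfl
        exact hx0 (by rw [hy, mul_zero])
      have hdn : DvdNotUnit y x := by
        refine ⟨hy0, q ^ n, ?_, by rw [hy, mul_comm]⟩
        intro hu
        exact hq.not_isUnit ((isUnit_pow_iff hn0.ne').mp hu)
      have hy' : ∀ w : B, Prime w → n ∣ multiplicity w y := by
        intro w hw
        have h1 : multiplicity w x = n * multiplicity w q + multiplicity w y := by
          have hfx : FiniteMultiplicity w (q ^ n * y) := by
            rw [← hy]; exact FiniteMultiplicity.of_prime_left hw hx0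
          have hfq : FiniteMultiplicity w q := FiniteMultiplicity.of_prime_left hw hq.ne_zero
          rw [hy, multiplicity_mul hw hfx, hfq.multiplicity_pow hw]
        have h2 := hx w hw
        rw [h1] at h2
        exact (Nat.dvd_add_right (Dvd.intro _ rfl)).mp h2
      obtain ⟨b, w, hb0, hwu, hyb⟩ := ih y hdn hy0 hy'
      refine ⟨q * b, w, mul_ne_zero hq.ne_zero hb0, hwu, ?_⟩
      rw [hy, hyb, mul_pow]
      ring

theorem pid_ram (A B : Type) [CommRing A] [IsDomain A] [IsPrincipalIdealRing A] [CommRing B]
    [IsDomain B] [IsPrincipalIdealRing B] (j : A →+* B) (hj : Function.Injective j) (u : A)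
    (hu : u ≠ 0) (hA : ∀ π : A, Prime π → π ∣ u) (p n : ℕ) (hp : p.Prime) (hn : n.Coprime p)
    (hn0 : 0 < n) (M : ℕ) (hM : ∀ π : A, Prime π → ¬ π ^ (M + 1) ∣ u) (m : ℕ)
    (hm : n * ordCompl[p] M.factorial ∣ m) (v : B) (hv : j u = v ^ m) (a : A) (ha : a ≠ 0) :
    ∃ b w : B, b ≠ 0 ∧ IsUnit w ∧ j a = w * b ^ n := by
  have j0 : ∀ x : A, x ≠ 0 → j x ≠ 0 := fun x hx h => hx (hj (by rw [h, map_zero]))
  refine pid_pow B n hn0 (j a) (j0 a ha) ?_
  intro w hw
  by_cases hex : ∃ π : A, Prime π ∧ w ∣ j π
  · obtain ⟨π, hπ, hwπ⟩ := hex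
    have key : ∀ x : A, x ≠ 0 →
        multiplicity w (j x) = multiplicity π x * multiplicity w (j π) := by
      intro x hx
      have hfin : FiniteMultiplicity π x := FiniteMultiplicity.of_prime_left hπ hx
      obtain ⟨y, hy, hyd⟩ := hfin.exists_eq_pow_mul_and_not_dvd
      set k := multiplicity π x with hk
      obtain ⟨α, β, hab⟩ := (hπ.coprime_iff_not_dvd).mpr hyd
      have hwy : ¬ w ∣ j y := by
        intro hwy
        apply hw.not_dvd_one
        have h1 : j (α * π + β * y) = 1 := by rw [hab, map_one]
        rw [← h1, map_add, map_mul, map_mul]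
        exact dvd_add (hwπ.mul_left _) (hwy.mul_left _)
      have hjx : j x = j π ^ k * j y := by rw [hy, map_mul, map_pow]
      have hf1 : FiniteMultiplicity w (j π ^ k * j y) := by
        rw [← hjx]; exact FiniteMultiplicity.of_prime_left hw (j0 x hx)
      have hf2 : FiniteMultiplicity w (j π) :=
        FiniteMultiplicity.of_prime_left hw (j0 π hπ.ne_zero)
      rw [hjx, multiplicity_mul hw hf1, hf2.multiplicity_pow hw, multiplicity_eq_zero.mpr hwy,
        add_zero]
    set c := multiplicity w (j π) with hc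
    set e := multiplicity π u with he
    have hfu : FiniteMultiplicity π u := FiniteMultiplicity.of_prime_left hπ hu
    have he1 : e ≠ 0 := multiplicity_ne_zero.mpr (hA π hπ)
    have heM : e ≤ M := by
      by_contra hlt
      push Not at hlt
      exact hM π hπ (hfu.pow_dvd_iff_le_multiplicity.mpr hlt)
    have hec : multiplicity w (j u) = e * c := key u hu
    have hmd : m ∣ e * c := by
      rcases Nat.eq_zero_or_pos m with hm0 | hmpos
      · exfalso
        rw [hm0, pow_zero] at hv
        have : w ∣ j u := hwπ.trans (map_dvd j (hA π hπ))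
        rw [hv] at this
        exact hw.not_dvd_one this
      · have hv0 : v ≠ 0 := by
          rintro rfl
          rw [zero_pow hmpos.ne'] at hv
          exact j0 u hu hv
        have hfv : FiniteMultiplicity w v := FiniteMultiplicity.of_prime_left hw hv0
        rw [← hec, hv, hfv.multiplicity_pow hw]
        exact Dvd.intro _ rfl
    have h1 : n * ordCompl[p] e ∣ e * c := by
      refine ((Nat.mul_dvd_mul_left n ?_).trans hm).trans hmd
      exact Nat.ordCompl_dvd_ordCompl_of_dvd (Nat.dvd_factorial (Nat.pos_of_ne_zero he1) heM) p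
    have h2 : ordProj[p] e * ordCompl[p] e = e := Nat.ordProj_mul_ordCompl_eq_self e p
    have h3 : 0 < ordCompl[p] e := Nat.ordCompl_pos p he1
    have h4 : n ∣ ordProj[p] e * c := by
      have h5 : ordCompl[p] e * n ∣ ordCompl[p] e * (ordProj[p] e * c) := by
        have h6 : ordCompl[p] e * (ordProj[p] e * c) = e * c := by
          rw [← mul_assoc, mul_comm (ordCompl[p] e), h2]
        rw [h6, mul_comm]
        exact h1
      exact (Nat.mul_dvd_mul_iff_left h3).mp h5
    have h5 : n.Coprime (ordProj[p] e) := Nat.Coprime.pow_right _ hn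
    have h6 : n ∣ c := h5.dvd_of_dvd_mul_left h4
    rw [key a ha]
    exact h6.mul_left _
  · have hnd : ∀ x : A, x ≠ 0 → ¬ w ∣ j x := by
      intro x hx
      induction x using UniqueFactorizationMonoid.induction_on_prime with
      | h₁ => exact absurd rfl hx
      | h₂ x hxu =>
        intro hd
        exact hw.not_isUnit (isUnit_of_dvd_unit hd (hxu.map j))
      | h₃ y q hy hq ih =>
        intro hd
        rw [map_mul] at hd
        rcases hw.dvd_or_dvd hd with h | h
        · exact hex ⟨q, hq, h⟩
        · exact ih hy h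
    rw [multiplicity_eq_zero.mpr (hnd a ha)]
    exact dvd_zero n

end Pool.Agent.AB3
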