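import Pool.Agent.Lib.MP_5de024_nt.S.EtaX.InfC
import Pool.Agent.Lib.MP_5de024_nt.S.EtaX.Apx
import Pool.Agent.Lib.MP_5de024_nt.S.EtaX.Pid

/-!
# ETA: the construction at infinity
-/

set_option autoImplicit false
set_option linter.unusedSectionVars false

namespace Pool.Agent.AB3

open Polynomial

theorem InfM_exm {K : Type} [Field K] (m : ℕ) (f : K[X]) : exm K m f = f.comp (X ^ m) := rfl

theorem InfM_deg {K : Type} [Field K] (m : ℕ) (f : K[X]) :
    (exm K m f).natDegree = f.natDegree * m := by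
  rw [InfM_exm, natDegree_comp, natDegree_X_pow]

theorem InfM_ne {K : Type} [Field K] {m : ℕ} (hm : 0 < m) (f : K[X]) (hf : f ≠ 0) :
    exm K m f ≠ 0 := by
  intro h
  rw [InfM_exm, comp_eq_zero_iff] at h
  rcases h with h | ⟨_, h⟩
  · exact hf h
  · have h1 := congrArg natDegree h
    rw [natDegree_X_pow, natDegree_C] at h1
    omega

section map

variable {K S S1 E0 E1 : Type} [Field K] [CommRing S] [Algebra K[X] S] [Field E0] [Algebra S E0]
  [CommRing S1] [Algebra K[X] S1] [Field E1] [Algebra S1 E1] {m : ℕ} (hm : 0 < m)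
  (j : E0 →+* E1) (hj : ∀ f, j (toE K S E0 f) = toE K S1 E1 (exm K m f))

include hm hj

theorem InfM_oi (z : E0) (hz : z ∈ Oi K S E0) : j z ∈ Oi K S1 E1 := by
  obtain ⟨f, g, hg, hd, he⟩ := hz
  refine ⟨exm K m f, exm K m g, InfM_ne hm g hg, ?_, ?_⟩
  · rw [InfM_deg, InfM_deg]
    exact Nat.mul_le_mul_right m hd
  · rw [← hj, ← hj, ← map_mul, he]

theorem InfM_ri (z : E0) (hz : z ∈ Ri K S E0) : j z ∈ Ri K S1 E1 := by
  rw [mem_Ri] at hz ⊢
  exact IsIntegral.map_of_comp_eq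
    ((j.comp (Oi K S E0).subtype).codRestrict (Oi K S1 E1)
      (fun z => InfM_oi hm j hj (z : E0) z.2)) j rfl hz

theorem InfM_u : j (uE K S E0) = uE K S1 E1 ^ m := by
  have h : exm K m X = X ^ m := by
    rw [InfM_exm, X_comp]
  rw [uE, uE, map_inv₀, hj, h, map_pow, inv_pow]

end map

section one

variable {K S H E : Type} [Field K] [CommRing S] [Algebra K[X] S] [Group H] [Finite H]
  [Field E] [Algebra S E] [IsFractionRing S E]

theorem InfM_X (C : Cov K S H) : toE K S E X ≠ 0 := by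
  intro h
  have h1 : toE K S E X = toE K S E 0 := by rw [h, map_zero]
  exact X_ne_zero (toE_inj C h1)

theorem InfM_Xu (C : Cov K S H) : toE K S E X * uE K S E = 1 :=
  mul_inv_cancel₀ (InfM_X C)

/-- every prime at infinity divides `u` -/
theorem InfM_dvd (C : Cov K S H) (π : Ri K S E) (hπ : Prime π) : π ∣ InfCu K S E := by
  have hpid := ri_pid (E := E) C
  by_contra hcon
  have h1 : IsCoprime π (InfCu K S E) := (hπ.irreducible.coprime_iff_not_dvd).mpr hcon
  obtain ⟨α, β, hαβ⟩ := h1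
  have h2 : (α : E) * (π : E) + (β : E) * uE K S E = 1 := congrArg (fun x : Ri K S E => (x : E)) hαβ
  obtain ⟨h3, h4⟩ := ri_jac C (-(β : E)) ((Ri K S E).neg_mem β.2)
  refine hπ.not_isUnit (IsUnit.of_mul_eq_one (α * ⟨(1 + uE K S E * -(β : E))⁻¹, h4⟩) ?_)
  refine Subtype.ext ?_
  change (π : E) * ((α : E) * (1 + uE K S E * -(β : E))⁻¹) = 1
  rw [← mul_assoc]
  have h5 : (π : E) * (α : E) = 1 + uE K S E * -(β : E) := by
    linear_combination h2
  rw [h5]
  exact mul_inv_cancel₀ h3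

theorem InfM_pow (t : E) (ht : t ∈ Ri K S E) (n : ℕ) :
    ∃ s ∈ Ri K S E, (1 + uE K S E * t) ^ n = 1 + uE K S E * s := by
  induction n with
  | zero => exact ⟨0, (Ri K S E).zero_mem, by rw [pow_zero, mul_zero, add_zero]⟩
  | succ n ih =>
    obtain ⟨s, hs, he⟩ := ih
    have hu : uE K S E ∈ Ri K S E := uE_mem
    refine ⟨s + t + uE K S E * (s * t), ?_, ?_⟩
    · exact (Ri K S E).add_mem ((Ri K S E).add_mem hs ht)
        ((Ri K S E).mul_mem hu ((Ri K S E).mul_mem hs ht))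
    · rw [pow_succ, he]
      ring

/-- the last step -/
theorem InfM_last (C : Cov K S H) (p : ℕ) [IsAlgClosed K] [Fact p.Prime] [CharP K p] (n : ℕ)
    (hn : n.Coprime p) (hn0 : 0 < n) (a : S) (w b : E) (hw : w ∈ Ri K S E) (hw0 : w ≠ 0)
    (hw1 : w⁻¹ ∈ Ri K S E) (hb : b ≠ 0) (ha : algebraMap S E a = w * b ^ n) :
    ∃ (y : S) (D : ℕ), 0 < D ∧ y ≠ 0 ∧
      InfD K S (a * y ^ n - algebraMap K[X] S (X ^ (n * D))) (n * D - 1) := by
  obtain ⟨z, t, hz, hz0, ht, hwz⟩ := ri_root C p n hn hn0 w hw hw0 hw1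
  have hr : z / b ≠ 0 := div_ne_zero hz0 hb
  obtain ⟨y, D, t', hD, hy, ht', he⟩ := ri_approx C (z / b) hr
  refine ⟨y, D, hD, hy, ?_⟩
  rw [infD_iff (E := E) C]
  obtain ⟨s, hs, hse⟩ := InfM_pow t' ht' n
  have hu : uE K S E ∈ Ri K S E := uE_mem
  have hXu := InfM_Xu (E := E) C
  have hmem : t + s + uE K S E * (t * s) ∈ Ri K S E :=
    (Ri K S E).add_mem ((Ri K S E).add_mem ht hs)
        ((Ri K S E).mul_mem hu ((Ri K S E).mul_mem ht hs))
  have h1 : algebraMap S E (a * y ^ n - algebraMap K[X] S (X ^ (n * D))) *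
      uE K S E ^ (n * D - 1) = t + s + uE K S E * (t * s) := by
    have h2 : algebraMap S E (algebraMap K[X] S (X ^ (n * D))) = toE K S E X ^ (n * D) := by
      rw [map_pow, map_pow]
      rfl
    have h3 : toE K S E X ^ (n * D) * uE K S E ^ (n * D - 1) = toE K S E X := by
      have h4 : n * D = (n * D - 1) + 1 := by
        have : 0 < n * D := Nat.mul_pos hn0 hD
        omega
      conv_lhs => rw [h4]
      rw [Nat.add_sub_cancel, pow_succ, mul_assoc, mul_comm (toE K S E X), ← mul_assoc,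
        ← mul_pow, hXu, one_pow, one_mul]
    have h5 : algebraMap S E (a * y ^ n) = toE K S E X ^ (n * D) *
        ((1 + uE K S E * t) * (1 + uE K S E * s)) := by
      rw [map_mul, map_pow, he, mul_pow, mul_pow, hse, ← pow_mul, mul_comm D n, div_pow, ha,
        ← hwz]
      field_simp
    rw [map_sub, h2, h5]
    calc (toE K S E X ^ (n * D) * ((1 + uE K S E * t) * (1 + uE K S E * s)) -
          toE K S E X ^ (n * D)) * uE K S E ^ (n * D - 1)
        = (toE K S E X ^ (n * D) * uE K S E ^ (n * D - 1)) * (uE K S E *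
          (t + s + uE K S E * (t * s))) := by ring
      _ = (toE K S E X * uE K S E) * (t + s + uE K S E * (t * s)) := by rw [h3]; ring
      _ = _ := by rw [hXu, one_mul]
  rw [h1]
  exact hmem

end one

/-- the construction for one map `i` -/
theorem InfM_step (K S S1 H E0 E1 : Type) [Field K] [IsAlgClosed K] [CommRing S] [Algebra K[X] S]
    [Group H] [Finite H] (C : Cov K S H) (p : ℕ) [Fact p.Prime] [CharP K p] (n : ℕ)
    (hn : n.Coprime p) (hn0 : 0 < n) [Field E0] [Algebra S E0] [IsFractionRing S E0]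
    (M : ℕ) (hM : ∀ π : Ri K S E0, Prime π → ¬ π ^ (M + 1) ∣ InfCu K S E0)
    (m : ℕ) (hm0 : 0 < m) (hm : n * ordCompl[p] M.factorial ∣ m)
    [CommRing S1] [Algebra K[X] S1] (C1 : Cov K S1 H) [Field E1] [Algebra S1 E1]
    [IsFractionRing S1 E1] (i : S →+* S1) (hi : Function.Injective i)
    (hiX : ∀ f : K[X], i (algebraMap K[X] S f) = algebraMap K[X] S1 (exm K m f)) (a : S)
    (ha : a ≠ 0) : ∃ (y : S1) (D : ℕ), 0 < D ∧ y ≠ 0 ∧
      InfD K S1 (i a * y ^ n - algebraMap K[X] S1 (X ^ (n * D))) (n * D - 1) := by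
  have hdS : IsDomain S := cov_domain C
  have hdS1 : IsDomain S1 := cov_domain C1
  have hpidA := ri_pid (E := E0) C
  have hpidB := ri_pid (E := E1) C1
  have hinj : Function.Injective ((algebraMap S1 E1).comp i) :=
    (IsFractionRing.injective S1 E1).comp hi
  let j : E0 →+* E1 := IsFractionRing.lift hinj
  have hjs : ∀ s : S, j (algebraMap S E0 s) = algebraMap S1 E1 (i s) := fun s =>
    IsFractionRing.lift_algebraMap hinj s
  have hj : ∀ f, j (toE K S E0 f) = toE K S1 E1 (exm K m f) := by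
    intro f
    change j (algebraMap S E0 (algebraMap K[X] S f)) = algebraMap S1 E1 (algebraMap K[X] S1 _)
    rw [hjs, hiX]
  let jA : Ri K S E0 →+* Ri K S1 E1 :=
    (j.comp (Ri K S E0).subtype).codRestrict (Ri K S1 E1)
      (fun z => InfM_ri hm0 j hj (z : E0) z.2)
  have hjA : Function.Injective jA := by
    intro x y hxy
    exact Subtype.ext (j.injective (congrArg (fun x : Ri K S1 E1 => (x : E1)) hxy))
  have hu0 : InfCu K S E0 ≠ 0 := by
    intro h
    have h1 : uE K S E0 = 0 := congrArg (fun x : Ri K S E0 => (x : E0)) h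
    exact inv_ne_zero (InfM_X C) h1
  have hjau : jA (InfCu K S E0) = InfCu K S1 E1 ^ m :=
    Subtype.ext (InfM_u hm0 j hj)
  obtain ⟨d, hd⟩ := ri_pow C (algebraMap S E0 a)
  have hu0mem : uE K S E0 ∈ Ri K S E0 := uE_mem
  have hd' : algebraMap S E0 a * uE K S E0 ^ (n * d) ∈ Ri K S E0 := by
    have h1 : n * d = d + (n - 1) * d := by
      obtain ⟨n', rfl⟩ : ∃ n', n = n' + 1 := ⟨n - 1, by omega⟩
      rw [Nat.add_sub_cancel]
      ring
    rw [h1, pow_add, ← mul_assoc]
    exact (Ri K S E0).mul_mem hd ((Ri K S E0).pow_mem hu0mem _)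
  have ha0 : algebraMap S E0 a ≠ 0 := by
    intro h
    exact ha (IsFractionRing.injective S E0 (by rw [h, map_zero]))
  have hX1 := InfM_X (E := E1) C1
  have hXu1 := InfM_Xu (E := E1) C1
  have ha1 : (⟨algebraMap S E0 a * uE K S E0 ^ (n * d), hd'⟩ : Ri K S E0) ≠ 0 := by
    intro h
    have h1 : algebraMap S E0 a * uE K S E0 ^ (n * d) = 0 :=
      congrArg (fun x : Ri K S E0 => (x : E0)) h
    rcases mul_eq_zero.mp h1 with h2 | h2
    · exact ha0 h2
    · exact inv_ne_zero (InfM_X C) (eq_zero_of_pow_eq_zero h2)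
  obtain ⟨b, w, hb, hw, hbw⟩ := pid_ram (Ri K S E0) (Ri K S1 E1) jA hjA (InfCu K S E0) hu0
    (InfM_dvd C) p n (Fact.out : p.Prime) hn hn0 M hM m hm (InfCu K S1 E1) hjau _ ha1
  have hbw' : j (algebraMap S E0 a * uE K S E0 ^ (n * d)) = (w : E1) * (b : E1) ^ n :=
    congrArg (fun x : Ri K S1 E1 => (x : E1)) hbw
  obtain ⟨w', hw'⟩ := hw.exists_right_inv
  have hww : (w : E1) * (w' : E1) = 1 := congrArg (fun x : Ri K S1 E1 => (x : E1)) hw'
  have hw0 : (w : E1) ≠ 0 := left_ne_zero_of_mul_eq_one hww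
  have hwinv : (w : E1)⁻¹ = (w' : E1) := inv_eq_of_mul_eq_one_right hww
  have hb0 : (b : E1) ≠ 0 := fun h => hb (Subtype.ext h)
  refine InfM_last C1 p n hn hn0 (i a) (w : E1) ((b : E1) * toE K S1 E1 X ^ (m * d)) w.2 hw0
    (by rw [hwinv]; exact w'.2) (mul_ne_zero hb0 (pow_ne_zero _ hX1)) ?_
  rw [map_mul, hjs, map_pow, InfM_u hm0 j hj] at hbw'
  have h1 : algebraMap S1 E1 (i a) * (uE K S1 E1 ^ m) ^ (n * d) *
      toE K S1 E1 X ^ (m * (n * d)) = algebraMap S1 E1 (i a) := by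
    rw [← pow_mul, mul_assoc, ← mul_pow, mul_comm (uE K S1 E1), hXu1, one_pow, mul_one]
  rw [← h1, hbw']
  ring

theorem inf_main (K S H : Type) [Field K] [IsAlgClosed K] [CommRing S] [Algebra K[X] S]
    [Group H] [Finite H] (C : Cov K S H) (p : ℕ) [Fact p.Prime] [CharP K p] (n : ℕ)
    (hn : n.Coprime p) (hn0 : 0 < n) :
    ∃ m : ℕ, 2 ≤ m ∧ m.Coprime p ∧ n ∣ m ∧
      ∀ (S1 : Type) [CommRing S1] [Algebra K[X] S1] (C1 : Cov K S1 H) (i : S →+* S1)
        (_ : Function.Injective i)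
        (_ : ∀ f : K[X], i (algebraMap K[X] S f) = algebraMap K[X] S1 (exm K m f)) (a : S)
        (_ : a ≠ 0), ∃ (y : S1) (D : ℕ), 0 < D ∧ y ≠ 0 ∧
          InfD K S1 (i a * y ^ n - algebraMap K[X] S1 (X ^ (n * D))) (n * D - 1) := by
  have hdS : IsDomain S := cov_domain C
  have hpidA := ri_pid (E := FractionRing S) C
  have hp := (Fact.out : p.Prime)
  have hu0 : InfCu K S (FractionRing S) ≠ 0 := by
    intro h
    have h1 : uE K S (FractionRing S) = 0 :=
      congrArg (fun x : Ri K S (FractionRing S) => (x : FractionRing S)) h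
    exact inv_ne_zero (InfM_X C) h1
  obtain ⟨M, hM⟩ := pid_bound (Ri K S (FractionRing S)) (InfCu K S (FractionRing S)) hu0
  have ho : 0 < ordCompl[p] M.factorial := Nat.ordCompl_pos p (Nat.factorial_ne_zero M)
  refine ⟨n * ordCompl[p] M.factorial * (p + 1), ?_, ?_, ?_, ?_⟩
  · have h1 : 0 < n * ordCompl[p] M.factorial := Nat.mul_pos hn0 ho
    have h2 := hp.two_le
    nlinarith
  · refine Nat.Coprime.mul_left (Nat.Coprime.mul_left hn ?_) ?_
    · exact (Nat.coprime_ordCompl hp (Nat.factorial_ne_zero M)).symm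
    · rw [Nat.coprime_comm]
      simp
  · exact Dvd.intro _ (by rw [mul_assoc])
  · intro S1 _ _ C1 i hi hiX a ha
    have hdS1 : IsDomain S1 := cov_domain C1
    exact InfM_step K S S1 H (FractionRing S) (FractionRing S1) C p n hn hn0 M hM _
      (Nat.mul_pos (Nat.mul_pos hn0 ho) (Nat.succ_pos p)) (Dvd.intro _ rfl) C1 i hi hiX a ha

end Pool.Agent.AB3
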