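import Mathlib

/-!
# ETA: multiplicities of ideals in a Dedekind domain
-/

set_option autoImplicit false
set_option linter.unusedSectionVars false

namespace Pool.Agent.AB3

open UniqueFactorizationMonoid

variable {S : Type} [CommRing S] [IsDedekindDomain S]

/-- the multiplicity of `P` in `I` -/
noncomputable def qv (P I : Ideal S) : ℕ := multiplicity P I

theorem qv_prime {P : Ideal S} [hP : P.IsMaximal] (h0 : P ≠ ⊥) : Prime P :=
  Ideal.prime_of_isPrime h0 hP.isPrime

theorem qv_fin {P : Ideal S} [P.IsMaximal] (h0 : P ≠ ⊥) {I : Ideal S} (hI : I ≠ 0) :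
    FiniteMultiplicity P I := FiniteMultiplicity.of_prime_left (qv_prime h0) hI

theorem qv_mul {P : Ideal S} [P.IsMaximal] (h0 : P ≠ ⊥) {I J : Ideal S} (hI : I ≠ 0)
    (hJ : J ≠ 0) : qv P (I * J) = qv P I + qv P J :=
  multiplicity_mul (qv_prime h0) (qv_fin h0 (mul_ne_zero hI hJ))

theorem qv_pow {P : Ideal S} [P.IsMaximal] (h0 : P ≠ ⊥) {I : Ideal S} (hI : I ≠ 0) (n : ℕ) :
    qv P (I ^ n) = n * qv P I :=
  FiniteMultiplicity.multiplicity_pow (qv_prime h0) (qv_fin h0 hI)

theorem qv_zero {P I : Ideal S} (h : ¬ I ≤ P) : qv P I = 0 := by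
  rw [qv, multiplicity_eq_zero, Ideal.dvd_iff_le]
  exact h

theorem qv_one {P : Ideal S} [hP : P.IsMaximal] : qv P 1 = 0 := by
  apply qv_zero
  intro h
  exact hP.ne_top (top_le_iff.1 (by rw [← Ideal.one_eq_top]; exact h))

theorem qv_self (P : Ideal S) : qv P P = 1 := multiplicity_self

theorem qv_prod {P : Ideal S} [P.IsMaximal] (h0 : P ≠ ⊥) {ι : Type} (s : Finset ι)
    (f : ι → Ideal S) (hf : ∀ i ∈ s, f i ≠ 0) :
    qv P (∏ i ∈ s, f i) = ∑ i ∈ s, qv P (f i) := by
  classical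
  induction s using Finset.induction_on with
  | empty => rw [Finset.prod_empty, Finset.sum_empty, qv_one]
  | insert a s ha ih =>
    rw [Finset.prod_insert ha, Finset.sum_insert ha, qv_mul h0 (hf a (Finset.mem_insert_self a s))
      (Finset.prod_ne_zero_iff.2 fun i hi => hf i (Finset.mem_insert_of_mem hi)),
      ih fun i hi => hf i (Finset.mem_insert_of_mem hi)]

theorem qv_unram {P : Ideal S} [P.IsMaximal] {s : S} (h1 : s ∈ P) (h2 : s ∉ P ^ 2) :
    qv P (Ideal.span {s}) = 1 := by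
  apply multiplicity_eq_of_dvd_of_not_dvd
  · rw [pow_one, Ideal.dvd_iff_le, Ideal.span_singleton_le_iff_mem]
    exact h1
  · rw [Ideal.dvd_iff_le, Ideal.span_singleton_le_iff_mem]
    exact h2

theorem qv_max {P Q : Ideal S} [hP : P.IsMaximal] [hQ : Q.IsMaximal] (h : P ≠ Q) :
    qv P Q = 0 := by
  apply qv_zero
  intro h1
  exact h (hQ.eq_of_le hP.ne_top h1).symm

theorem qv_le {P : Ideal S} [P.IsMaximal] (h0 : P ≠ ⊥) {I : Ideal S} (hI : I ≠ 0) (k : ℕ) :
    I ≤ P ^ k ↔ k ≤ qv P I := by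
  rw [← Ideal.dvd_iff_le]
  exact (qv_fin h0 hI).pow_dvd_iff_le_multiplicity

/-- if all multiplicities are divisible by `n` the ideal is an `n`-th power -/
theorem qv_nth (n : ℕ) {I : Ideal S} (hI : I ≠ 0)
    (h : ∀ P : Ideal S, P.IsMaximal → P ≠ ⊥ → n ∣ qv P I) : ∃ J : Ideal S, J ^ n = I := by
  classical
  have hI' : I ≠ ⊥ := hI
  have hcount : ∀ m ∈ normalizedFactors I, n ∣ (normalizedFactors I).count m := by
    intro m hm
    have hp := prime_of_normalized_factor m hm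
    have hmp : m.IsPrime := Ideal.isPrime_of_prime hp
    have hm0 : m ≠ ⊥ := hp.ne_zero
    have hmax : m.IsMaximal := hmp.isMaximal hm0
    have h1 : I ≤ m ^ (qv m I) := (qv_le hm0 hI _).2 le_rfl
    have h2 : ¬ I ≤ m ^ (qv m I + 1) := by
      rw [qv_le hm0 hI]
      omega
    rw [Ideal.count_normalizedFactors_eq h1 h2]
    exact h m hmax hm0
  obtain ⟨t, ht⟩ := Multiset.exists_smul_of_dvd_count _ hcount
  refine ⟨t.prod, ?_⟩
  rw [← Multiset.prod_nsmul, ← ht, Ideal.prod_normalizedFactors_eq_self hI']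

end Pool.Agent.AB3
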