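import Pool.Agent.Lib.MP_5de024_nt.S.EtaX.Qa
import Pool.Agent.Lib.MP_5de024_nt.S.EtaX.Qv

/-!
# ETA: independence and norm on the cover
-/

set_option autoImplicit false
set_option linter.unusedSectionVars false

namespace Pool.Agent.AB3

open Polynomial

variable {K S H : Type} [Field K] [IsAlgClosed K] [CommRing S] [Algebra K[X] S] [Group H]
  [Finite H]

/-- constants are not in proper ideals -/
theorem qb_const (P : Ideal S) (hP : P ≠ ⊤) (c : K) (hc : c ≠ 0) :
    algebraMap K[X] S (Polynomial.C c) ∉ P := by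
  intro h
  apply hP
  rw [Ideal.eq_top_iff_one]
  have h1 := P.mul_mem_left (algebraMap K[X] S (Polynomial.C c⁻¹)) h
  rw [← map_mul, ← Polynomial.C_mul, inv_mul_cancel₀ hc, Polynomial.C_1, map_one] at h1
  exact h1

theorem qb_max (C : Cov K S H) (Q : Ideal S) [hQ : Q.IsMaximal] (h : H) :
    (Q.map (C.act h : S →+* S)).IsMaximal :=
  hQ.map_bijective (C.act h : S →+* S) (C.act h).bijective

theorem qb_ne (C : Cov K S H) (I : Ideal S) (hI : I ≠ 0) (h : H) :
    I.map (C.act h : S →+* S) ≠ 0 := by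
  intro h0
  apply hI
  rw [Ideal.zero_eq_bot, eq_bot_iff]
  intro x hx
  have h1 := Ideal.mem_map_of_mem (C.act h : S →+* S) hx
  rw [h0] at h1
  have h2 : C.act h x = 0 := h1
  have h3 : x = 0 := (C.act h).injective (by rw [h2, map_zero])
  exact h3

theorem qb_X (C : Cov K S H) (Q : Ideal S) (α : K)
    (hX : algebraMap K[X] S (X - Polynomial.C α) ∈ Q) (h : H) :
    algebraMap K[X] S (X - Polynomial.C α) ∈ Q.map (C.act h : S →+* S) := by
  have h1 := Ideal.mem_map_of_mem (C.act h : S →+* S) hX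
  have h2 : (C.act h : S →+* S) (algebraMap K[X] S (X - Polynomial.C α)) =
      algebraMap K[X] S (X - Polynomial.C α) := (C.act h).commutes _
  rwa [h2] at h1

theorem qb_inj (C : Cov K S H) (Q : Ideal S) [Q.IsMaximal] (g h : H)
    (hgh : Q.map (C.act h : S →+* S) = Q.map (C.act g : S →+* S)) : h = g := by
  by_contra hne
  have h1 : g⁻¹ * h ≠ 1 := by
    intro h1
    exact hne (inv_mul_eq_one.1 h1).symm
  refine qa_dist C Q (g⁻¹ * h) h1 ?_
  have h2 : ∀ a b : H, (Q.map (C.act a : S →+* S)).map (C.act b : S →+* S) =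
      Q.map (C.act (b * a) : S →+* S) := by
    intro a b
    rw [Ideal.map_map]
    congr 1
    rw [map_mul]
    rfl
  rw [← h2, hgh, h2, inv_mul_cancel, map_one]
  exact Ideal.map_id Q

theorem qb_val (C : Cov K S H) [IsDedekindDomain S] (Q A : Ideal S) [Q.IsMaximal] (n : ℕ)
    (hn : 0 < n) (a : S) (ha : a ≠ 0) (hQ : Q * A ^ n = Ideal.span {a}) (P : Ideal S)
    [P.IsMaximal] (hP0 : P ≠ ⊥) (h : H) :
    qv P (Ideal.span {C.act h a}) = qv P (Q.map (C.act h : S →+* S)) +
      n * qv P (A.map (C.act h : S →+* S)) := by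
  have hs : (Ideal.span {a} : Ideal S) ≠ 0 := by
    rw [Ne, Ideal.zero_eq_bot, Ideal.span_singleton_eq_bot]
    exact ha
  have hQ0 : Q ≠ 0 := by
    intro h0
    apply hs
    rw [← hQ, h0, zero_mul]
  have hA0 : A ≠ 0 := by
    intro h0
    apply hs
    rw [← hQ, h0, zero_pow hn.ne', mul_zero]
  have h1 : (Ideal.span {a} : Ideal S).map (C.act h : S →+* S) = Ideal.span {C.act h a} := by
    rw [Ideal.map_span, Set.image_singleton]
    rfl
  rw [← h1, ← hQ, Ideal.map_mul, Ideal.map_pow,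
    qv_mul hP0 (qb_ne C Q hQ0 h) (pow_ne_zero _ (qb_ne C A hA0 h)), qv_pow hP0 (qb_ne C A hA0 h)]

theorem qb_bot (C : Cov K S H) (P : Ideal S) (α : K)
    (hX : algebraMap K[X] S (X - Polynomial.C α) ∈ P) : P ≠ ⊥ := by
  intro h0
  rw [h0] at hX
  have h1 : algebraMap K[X] S (X - Polynomial.C α) = 0 := hX
  exact X_sub_C_ne_zero α (C.inj (h1.trans (map_zero _).symm))

theorem qb_span {s : S} (hs : s ≠ 0) : (Ideal.span {s} : Ideal S) ≠ 0 := by
  rw [Ne, Ideal.zero_eq_bot, Ideal.span_singleton_eq_bot]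
  exact hs

theorem qb_aux (C : Cov K S H) [IsDedekindDomain S] (Q A : Ideal S) [Q.IsMaximal] (n : ℕ)
    (hn : 0 < n)
    (hX : algebraMap K[X] S X ∈ Q) (a : S) (ha : a ≠ 0) (hQ : Q * A ^ n = Ideal.span {a})
    (e : H → ℕ) (c : K) (hc : c ≠ 0) (l : ℕ) (w : S)
    (h : (∏ᶠ h : H, (C.act h a) ^ e h) = algebraMap K[X] S (Polynomial.C c * X ^ l) * w ^ n)
    (h1 : H) : e h1 ≡ l [MOD n] := by
  classical
  have hfin : Fintype H := Fintype.ofFinite H
  have hX' : algebraMap K[X] S (X - Polynomial.C 0) ∈ Q := by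
    rw [Polynomial.C_0, sub_zero]
    exact hX
  obtain ⟨P, hP⟩ : ∃ P : Ideal S, P = Q.map (C.act h1 : S →+* S) := ⟨_, rfl⟩
  have hPm : P.IsMaximal := by
    rw [hP]
    exact qb_max C Q h1
  have hPX : algebraMap K[X] S (X - Polynomial.C 0) ∈ P := by
    rw [hP]
    exact qb_X C Q 0 hX' h1
  have hP0 : P ≠ ⊥ := qb_bot C P 0 hPX
  have hha : ∀ h : H, C.act h a ≠ 0 := fun h => by
    rw [Ne, map_eq_zero_iff _ (C.act h).injective]
    exact ha
  have hne : (∏ᶠ h : H, (C.act h a) ^ e h) ≠ 0 := by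
    rw [finprod_eq_prod_of_fintype]
    exact Finset.prod_ne_zero_iff.2 fun h _ => pow_ne_zero _ (hha h)
  have hw : w ≠ 0 := by
    intro h0
    apply hne
    rw [h, h0, zero_pow hn.ne', mul_zero]
  have hX0 : algebraMap K[X] S (X - Polynomial.C 0) ≠ 0 := by
    intro h0
    exact X_sub_C_ne_zero 0 (C.inj (h0.trans (map_zero _).symm))
  have hc0 : algebraMap K[X] S (Polynomial.C c) ≠ 0 := by
    intro h0
    exact hc (Polynomial.C_eq_zero.1 (C.inj (h0.trans (map_zero _).symm)))
  -- the left side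
  have hL : qv P (Ideal.span {∏ᶠ h : H, (C.act h a) ^ e h}) =
      ∑ h : H, e h * (qv P (Q.map (C.act h : S →+* S)) +
        n * qv P (A.map (C.act h : S →+* S))) := by
    rw [finprod_eq_prod_of_fintype, ← Ideal.prod_span_singleton, qv_prod hP0]
    · refine Finset.sum_congr rfl fun h _ => ?_
      rw [← Ideal.span_singleton_pow, qv_pow hP0 (qb_span (hha h)),
        qb_val C Q A n hn a ha hQ P hP0 h]
    · intro h _
      exact qb_span (pow_ne_zero _ (hha h))
  -- the right side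
  have hR : qv P (Ideal.span {∏ᶠ h : H, (C.act h a) ^ e h}) =
      l + n * qv P (Ideal.span {w}) := by
    have h3 : algebraMap K[X] S (Polynomial.C c * X ^ l) * w ^ n =
        algebraMap K[X] S (Polynomial.C c) *
          (algebraMap K[X] S (X - Polynomial.C 0) ^ l * w ^ n) := by
      rw [Polynomial.C_0, sub_zero, map_mul, map_pow, mul_assoc]
    rw [h, h3, ← Ideal.span_singleton_mul_span_singleton, ← Ideal.span_singleton_mul_span_singleton,
      ← Ideal.span_singleton_pow, ← Ideal.span_singleton_pow,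
      qv_mul hP0 (qb_span hc0) (mul_ne_zero (pow_ne_zero _ (qb_span hX0))
        (pow_ne_zero _ (qb_span hw))), qv_mul hP0 (pow_ne_zero _ (qb_span hX0))
        (pow_ne_zero _ (qb_span hw)), qv_pow hP0 (qb_span hX0), qv_pow hP0 (qb_span hw),
      qv_unram hPX (qa_unram C P 0), qv_zero, zero_add, mul_one]
    rw [Ideal.span_singleton_le_iff_mem]
    exact qb_const P hPm.ne_top c hc
  have hsum : ∑ h : H, e h * (qv P (Q.map (C.act h : S →+* S)) +
        n * qv P (A.map (C.act h : S →+* S))) =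
      e h1 + n * ∑ h : H, e h * qv P (A.map (C.act h : S →+* S)) := by
    have h4 : ∑ h : H, e h * (qv P (Q.map (C.act h : S →+* S)) +
        n * qv P (A.map (C.act h : S →+* S))) =
        ∑ h : H, e h * qv P (Q.map (C.act h : S →+* S)) +
          n * ∑ h : H, e h * qv P (A.map (C.act h : S →+* S)) := by
      rw [Finset.mul_sum, ← Finset.sum_add_distrib]
      exact Finset.sum_congr rfl fun h _ => by ring
    rw [h4, Finset.sum_eq_single h1]
    · rw [← hP, qv_self, mul_one]
    · intro h _ hh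
      have h5 := qb_max C Q h
      rw [qv_max, mul_zero]
      intro h6
      exact hh (qb_inj C Q h1 h (h6.symm.trans hP))
    · intro h5
      exact absurd (Finset.mem_univ _) h5
  rw [hL, hsum] at hR
  have h6 : (e h1 + n * ∑ h : H, e h * qv P (A.map (C.act h : S →+* S))) % n = e h1 % n :=
    Nat.add_mul_mod_self_left _ _ _
  have h7 : (l + n * qv P (Ideal.span {w})) % n = l % n := Nat.add_mul_mod_self_left _ _ _
  change e h1 % n = l % n
  rw [← h6, hR, h7]

theorem qb_ind (C : Cov K S H) (Q A : Ideal S) [Q.IsMaximal] (n : ℕ) (hn : 0 < n)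
    (hX : algebraMap K[X] S X ∈ Q) (a : S) (ha : a ≠ 0) (hQ : Q * A ^ n = Ideal.span {a})
    (e : H → ℕ) (c : K) (hc : c ≠ 0) (l : ℕ) (w : S)
    (h : (∏ᶠ h : H, (C.act h a) ^ e h) = algebraMap K[X] S (Polynomial.C c * X ^ l) * w ^ n)
    (h1 h2 : H) : e h1 ≡ e h2 [MOD n] := by
  have hded : IsDedekindDomain S := cov_dedekind C
  exact (qb_aux C Q A n hn hX a ha hQ e c hc l w h h1).trans
    (qb_aux C Q A n hn hX a ha hQ e c hc l w h h2).symm

/-- the polynomial lemma -/
theorem qb_poly (n : ℕ) (hn : 0 < n) (f : K[X])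
    (h : ∀ α : K, α ≠ 0 → n ∣ f.rootMultiplicity α) : ∃ (l : ℕ) (g : K[X]),
      f = X ^ l * g ^ n := by
  classical
  have h1 := (IsAlgClosed.splits f).eq_prod_roots
  obtain ⟨c, hc⟩ := IsAlgClosed.exists_pow_nat_eq f.leadingCoeff hn
  have h2 := Multiset.filter_add_not (fun a => a = 0) f.roots
  obtain ⟨s0, hs0⟩ : ∃ s0, s0 = Multiset.filter (fun a => a = 0) f.roots := ⟨_, rfl⟩
  obtain ⟨s1, hs1⟩ : ∃ s1, s1 = Multiset.filter (fun a => ¬ a = 0) f.roots := ⟨_, rfl⟩
  rw [← hs0, ← hs1] at h2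
  have h3 : ∀ m ∈ s1, n ∣ s1.count m := by
    intro m hm
    rw [hs1] at hm ⊢
    rw [Multiset.mem_filter] at hm
    rw [Multiset.count_filter_of_pos (p := fun a => ¬ a = 0) hm.2, Polynomial.count_roots]
    exact h m hm.2
  obtain ⟨t, ht⟩ := Multiset.exists_smul_of_dvd_count _ h3
  have h4 : s0 = Multiset.replicate (Multiset.card s0) 0 := by
    rw [Multiset.eq_replicate_card]
    intro b hb
    rw [hs0, Multiset.mem_filter] at hb
    exact hb.2
  refine ⟨Multiset.card s0, Polynomial.C c * (t.map (X - Polynomial.C ·)).prod, ?_⟩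
  rw [← h2, Multiset.map_add, Multiset.prod_add, ht, h4, Multiset.map_replicate,
    Multiset.prod_replicate, Multiset.map_nsmul, Multiset.prod_nsmul, ← hc, Polynomial.C_pow] at h1
  rw [h1, mul_pow, Polynomial.C_0, sub_zero]
  ring

theorem qb_norm (C : Cov K S H) (Q A : Ideal S) [Q.IsMaximal] (n : ℕ) (hn : 0 < n)
    (hX : algebraMap K[X] S X ∈ Q) (a : S) (ha : a ≠ 0) (hQ : Q * A ^ n = Ideal.span {a}) :
    ∃ (l : ℕ) (g : K[X]), (∏ᶠ h : H, C.act h a) = algebraMap K[X] S (X ^ l * g ^ n) := by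
  classical
  have hded : IsDedekindDomain S := cov_dedekind C
  have hfin : Fintype H := Fintype.ofFinite H
  have hX' : algebraMap K[X] S (X - Polynomial.C 0) ∈ Q := by
    rw [Polynomial.C_0, sub_zero]
    exact hX
  have hha : ∀ h : H, C.act h a ≠ 0 := fun h => by
    rw [Ne, map_eq_zero_iff _ (C.act h).injective]
    exact ha
  obtain ⟨f, hf⟩ : ∃ f : K[X], algebraMap K[X] S f = ∏ᶠ h : H, C.act h a := by
    apply C.fixed
    intro g
    rw [finprod_eq_prod_of_fintype, map_prod]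
    have h1 : ∀ h : H, C.act g (C.act h a) = C.act (g * h) a := by
      intro h
      rw [map_mul]
      rfl
    rw [Finset.prod_congr rfl fun h _ => h1 h]
    exact Fintype.prod_equiv (Equiv.mulLeft g) _ _ (fun h => rfl)
  have hne : (∏ᶠ h : H, C.act h a) ≠ 0 := by
    rw [finprod_eq_prod_of_fintype]
    exact Finset.prod_ne_zero_iff.2 fun h _ => hha h
  have hf0 : f ≠ 0 := by
    intro h0
    apply hne
    rw [← hf, h0, map_zero]
  rw [← hf]
  suffices h : ∀ α : K, α ≠ 0 → n ∣ f.rootMultiplicity α by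
    obtain ⟨l, g, hg⟩ := qb_poly n hn f h
    exact ⟨l, g, by rw [hg]⟩
  intro α hα
  obtain ⟨P, hPm, hPX⟩ := qa_exists C α
  have hP0 : P ≠ ⊥ := qb_bot C P α hPX
  have hX0 : algebraMap K[X] S (X - Polynomial.C α) ≠ 0 := by
    intro h0
    exact X_sub_C_ne_zero α (C.inj (h0.trans (map_zero _).symm))
  obtain ⟨g, hg, hgd⟩ := f.exists_eq_pow_rootMultiplicity_mul_and_not_dvd hf0 α
  have hg0 : g ≠ 0 := by
    intro h0
    exact hgd (h0 ▸ dvd_zero _)
  have hag0 : algebraMap K[X] S g ≠ 0 := by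
    intro h0
    exact hg0 (C.inj (h0.trans (map_zero _).symm))
  have hgP : algebraMap K[X] S g ∉ P := by
    intro h1
    have h2 : g.eval α ≠ 0 := fun h2 => hgd (dvd_iff_isRoot.2 h2)
    refine qb_const P hPm.ne_top (g.eval α) h2 ?_
    obtain ⟨q, hq⟩ := Polynomial.X_sub_C_dvd_sub_C_eval (a := α) (p := g)
    have h3 : Polynomial.C (g.eval α) = g - (X - Polynomial.C α) * q := by
      rw [← hq]
      ring
    rw [h3, map_sub, map_mul]
    exact P.sub_mem h1 (P.mul_mem_right _ hPX)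
  have hR : qv P (Ideal.span {∏ᶠ h : H, C.act h a}) = f.rootMultiplicity α := by
    rw [← hf]
    conv_lhs => rw [hg]
    rw [map_mul, map_pow, ← Ideal.span_singleton_mul_span_singleton, ← Ideal.span_singleton_pow,
      qv_mul hP0 (pow_ne_zero _ (qb_span hX0)) (qb_span hag0), qv_pow hP0 (qb_span hX0),
      qv_unram hPX (qa_unram C P α), mul_one, qv_zero, add_zero]
    rw [Ideal.span_singleton_le_iff_mem]
    exact hgP
  have hL : qv P (Ideal.span {∏ᶠ h : H, C.act h a}) =
      ∑ h : H, (qv P (Q.map (C.act h : S →+* S)) +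
        n * qv P (A.map (C.act h : S →+* S))) := by
    rw [finprod_eq_prod_of_fintype, ← Ideal.prod_span_singleton, qv_prod hP0]
    · exact Finset.sum_congr rfl fun h _ => qb_val C Q A n hn a ha hQ P hP0 h
    · intro h _
      exact qb_span (hha h)
  rw [← hR, hL]
  refine Finset.dvd_sum fun h _ => ?_
  have h5 := qb_max C Q h
  rw [qv_max, zero_add]
  · exact dvd_mul_right _ _
  · intro h6
    have h7 := qb_X C Q 0 hX' h
    rw [← h6] at h7
    have h8 := P.sub_mem h7 hPX
    rw [← map_sub] at h8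
    have h9 : (X - Polynomial.C 0 - (X - Polynomial.C α) : K[X]) = Polynomial.C α := by
      rw [Polynomial.C_0]
      ring
    rw [h9] at h8
    exact qb_const P hPm.ne_top α hα h8

end Pool.Agent.AB3
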