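import Pool.Agent.Lib.MP_5de024_nt.S.EtaX.Def
import Pool.Agent.Lib.MP_5de024_nt.S.EtaX.Qa
import Pool.Agent.Lib.MP_5de024_nt.S.EtaX.Qv
import Pool.Agent.Lib.MP_5de024_nt.S.PatX.ValB

/-!
# ETA: the certificate
-/

set_option autoImplicit false
set_option linter.unusedSectionVars false

namespace Pool.Agent.AB3

open Polynomial

theorem qc_span {S : Type} [CommRing S] {s : S} (hs : s ≠ 0) :
    (Ideal.span {s} : Ideal S) ≠ 0 := by
  rw [Ne, Ideal.zero_eq_bot, Ideal.span_singleton_eq_bot]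
  exact hs

theorem qc_mul {S : Type} [CommRing S] [IsDedekindDomain S] {P : Ideal S} [P.IsMaximal]
    (h0 : P ≠ ⊥) {x y : S} (hx : x ≠ 0) (hy : y ≠ 0) :
    qv P (Ideal.span {x * y}) = qv P (Ideal.span {x}) + qv P (Ideal.span {y}) := by
  rw [← Ideal.span_singleton_mul_span_singleton, qv_mul h0 (qc_span hx) (qc_span hy)]

theorem qc_pow {S : Type} [CommRing S] [IsDedekindDomain S] {P : Ideal S} [P.IsMaximal]
    (h0 : P ≠ ⊥) {x : S} (hx : x ≠ 0) (n : ℕ) :
    qv P (Ideal.span {x ^ n}) = n * qv P (Ideal.span {x}) := by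
  rw [← Ideal.span_singleton_pow, qv_pow h0 (qc_span hx)]

theorem qc_not {S : Type} [CommRing S] [IsDedekindDomain S] {P : Ideal S}
    {x : S} (hx : x ∉ P) : qv P (Ideal.span {x}) = 0 := by
  apply qv_zero
  rw [Ideal.span_singleton_le_iff_mem]
  exact hx

theorem qc_mem {S : Type} [CommRing S] [IsDedekindDomain S] {P : Ideal S} [P.IsMaximal]
    (h0 : P ≠ ⊥) {x : S} (hx : x ≠ 0) (h : qv P (Ideal.span {x}) = 0) : x ∉ P := by
  intro h1
  have h2 : Ideal.span {x} ≤ P ^ 1 := by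
    rw [pow_one, Ideal.span_singleton_le_iff_mem]
    exact h1
  have h3 := (qv_le h0 (qc_span hx) 1).1 h2
  omega

/-- localisation at an unramified prime -/
theorem qc_loc {S : Type} [CommRing S] [IsDedekindDomain S] {P : Ideal S} [P.IsMaximal]
    (h0 : P ≠ ⊥) {s a : S} (hs : s ≠ 0) (ha : a ≠ 0) (h1 : qv P (Ideal.span {s}) = 1) :
    ∃ (b c : S) (j : ℕ), b ∉ P ∧ c ∉ P ∧ b * a = c * s ^ j := by
  obtain ⟨j, hj⟩ : ∃ j, j = qv P (Ideal.span {a}) := ⟨_, rfl⟩
  have hsj : qv P (Ideal.span {s ^ j}) = j := by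
    rw [qc_pow h0 hs, h1, mul_one]
  have h2 : P ^ j ∣ Ideal.span {s ^ j} := by
    rw [Ideal.dvd_iff_le, qv_le h0 (qc_span (pow_ne_zero _ hs)), hsj]
  have h3 : P ^ j ∣ Ideal.span {a} := by
    rw [Ideal.dvd_iff_le, qv_le h0 (qc_span ha), ← hj]
  obtain ⟨I, hI⟩ := h2
  obtain ⟨I', hI'⟩ := h3
  have h4 : ¬ I ≤ P := by
    intro h4
    have h5 : Ideal.span {s ^ j} ≤ P ^ (j + 1) := by
      rw [hI, pow_succ]
      exact Ideal.mul_mono_right h4
    rw [qv_le h0 (qc_span (pow_ne_zero _ hs)), hsj] at h5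
    omega
  obtain ⟨b, hb, hbP⟩ := SetLike.not_le_iff_exists.1 h4
  have h5 : b * a ∈ Ideal.span {s ^ j} := by
    have h6 : b * a ∈ I * Ideal.span {a} :=
      Ideal.mul_mem_mul hb (Ideal.mem_span_singleton_self a)
    have h7 : I * Ideal.span {a} = Ideal.span {s ^ j} * I' := by
      rw [hI', ← mul_assoc, mul_comm I, ← hI]
    rw [h7] at h6
    have h8 : Ideal.span {s ^ j} * I' ≤ Ideal.span {s ^ j} := Ideal.mul_le_inf.trans inf_le_left
    exact h8 h6
  obtain ⟨c, hc⟩ := Ideal.mem_span_singleton'.1 h5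
  have hb0 : b ≠ 0 := fun h => hbP (h ▸ P.zero_mem)
  have hc0 : c ≠ 0 := by
    intro h
    rw [h, zero_mul] at hc
    exact mul_ne_zero hb0 ha hc.symm
  refine ⟨b, c, j, hbP, ?_, hc.symm⟩
  apply qc_mem h0 hc0
  have h6 : qv P (Ideal.span {c * s ^ j}) = qv P (Ideal.span {b * a}) := by rw [hc]
  rw [qc_mul h0 hc0 (pow_ne_zero _ hs), qc_mul h0 hb0 ha, hsj, qc_not hbP, ← hj] at h6
  omega

theorem qc_ne {S S1 : Type} [CommRing S] [CommRing S1] (i : S →+* S1)
    (hi : Function.Injective i) (I : Ideal S) (hI : I ≠ 0) : I.map i ≠ 0 := by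
  intro h0
  apply hI
  rw [Ideal.zero_eq_bot, eq_bot_iff]
  intro x hx
  have h1 := Ideal.mem_map_of_mem i hx
  rw [h0] at h1
  have h2 : i x = 0 := h1
  have h3 : x = 0 := hi (by rw [h2, map_zero])
  exact h3

theorem qc_cert (K S S1 H : Type) [Field K] [IsAlgClosed K] [CommRing S] [Algebra K[X] S]
    [Group H] [Finite H] (C : Cov K S H) [CommRing S1] [Algebra K[X] S1] [IsDedekindDomain S1]
    (n m : ℕ) (hn : 0 < n) (hmn : n ∣ m) (hm : 0 < m) (i : S →+* S1)
    (hi : Function.Injective i)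
    (hX : i (algebraMap K[X] S X) = algebraMap K[X] S1 X ^ m) (Q A : Ideal S) [Q.IsMaximal]
    (hXQ : algebraMap K[X] S X ∈ Q) (a : S) (ha : a ≠ 0) (hQ : Q * A ^ n = Ideal.span {a}) :
    ∃ J : Ideal S1, J ^ n = Ideal.span {i a} := by
  have hded : IsDedekindDomain S := cov_dedekind C
  have hia : i a ≠ 0 := by
    rw [Ne, map_eq_zero_iff _ hi]
    exact ha
  have hs0 : algebraMap K[X] S X ≠ 0 := by
    intro h0
    exact X_ne_zero (C.inj (h0.trans (map_zero _).symm))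
  have hX1 : algebraMap K[X] S1 X ≠ 0 := by
    intro h0
    apply hs0
    apply hi
    rw [hX, h0, zero_pow hm.ne', map_zero]
  have hspan : (Ideal.span {a} : Ideal S) ≠ 0 := qc_span ha
  have hQ0 : Q ≠ 0 := by
    intro h0
    apply hspan
    rw [← hQ, h0, zero_mul]
  have hA0 : A ≠ 0 := by
    intro h0
    apply hspan
    rw [← hQ, h0, zero_pow hn.ne', mul_zero]
  apply qv_nth n (qc_span hia)
  intro P hP hP0
  by_cases hXP : i (algebraMap K[X] S X) ∈ P
  · -- the prime is over `X`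
    obtain ⟨P0, hP0d⟩ : ∃ P0 : Ideal S, P0 = P.comap i := ⟨_, rfl⟩
    have hXP0 : algebraMap K[X] S X ∈ P0 := by
      rw [hP0d]
      exact hXP
    have hprime : P0.IsPrime := by
      rw [hP0d]
      exact hP.isPrime.comap i
    have hb : P0 ≠ ⊥ := by
      intro h0
      rw [h0] at hXP0
      exact hs0 hXP0
    have hmax : P0.IsMaximal := hprime.isMaximal hb
    have h2 : algebraMap K[X] S X ∉ P0 ^ 2 := by
      have h3 := qa_unram C P0 0
      rwa [Polynomial.C_0, sub_zero] at h3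
    obtain ⟨b, c, j, hbP, hcP, hbc⟩ := qc_loc hb hs0 ha (qv_unram hXP0 h2)
    have hb1 : i b ∉ P := by
      rw [hP0d] at hbP
      exact hbP
    have hc1 : i c ∉ P := by
      rw [hP0d] at hcP
      exact hcP
    have hb0 : i b ≠ 0 := fun h => hb1 (h ▸ P.zero_mem)
    have hc0 : i c ≠ 0 := fun h => hc1 (h ▸ P.zero_mem)
    have h3 : i b * i a = i c * algebraMap K[X] S1 X ^ (m * j) := by
      rw [← map_mul, hbc, map_mul, map_pow, hX, pow_mul]
    have h4 : qv P (Ideal.span {i b * i a}) =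
        qv P (Ideal.span {i c * algebraMap K[X] S1 X ^ (m * j)}) := by rw [h3]
    rw [qc_mul hP0 hb0 hia, qc_mul hP0 hc0 (pow_ne_zero _ hX1), qc_pow hP0 hX1, qc_not hb1,
      qc_not hc1, zero_add, zero_add] at h4
    rw [h4, mul_assoc]
    exact hmn.mul_right _
  · have h1 : (Ideal.span {a} : Ideal S).map i = Ideal.span {i a} := by
      rw [Ideal.map_span, Set.image_singleton]
    have hPm : P.IsMaximal := hP
    rw [← h1, ← hQ, Ideal.map_mul, Ideal.map_pow,
      qv_mul hP0 (qc_ne i hi Q hQ0) (pow_ne_zero _ (qc_ne i hi A hA0)),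
      qv_pow hP0 (qc_ne i hi A hA0), qv_zero, zero_add]
    · exact dvd_mul_right _ _
    · intro h2
      exact hXP (h2 (Ideal.mem_map_of_mem i hXQ))

end Pool.Agent.AB3
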