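import Pool.Agent.Lib.MP_5de024_nt.S.EtaX.Ii

/-!
# ETA: descent of `n`-th powers along `X ↦ X ^ m`
-/

set_option autoImplicit false
set_option linter.unusedSectionVars false

namespace Pool.Agent.AB3

open Polynomial

variable {k K R H : Type} [Field k] [Field K] [Algebra k K] [CommRing R] [Algebra k[X] R]
  [Group H] [Finite H]

theorem Tau_exm_C (m : ℕ) (a : K) : exm K m (Polynomial.C a) = Polynomial.C a := by
  simp [exm]

theorem Tau_exm_X (m : ℕ) : exm K m (X : K[X]) = X ^ m := by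
  simp [exm]

theorem Tau_root {S : Type} [CommRing S] [IsDomain S] (φ : K →+* S) (n : ℕ) (hn : 0 < n)
    (η : K) (hη : IsPrimitiveRoot η n) (x y : S) (hxy : x ^ n = y ^ n) :
    ∃ i : ℕ, x = φ (η ^ i) * y := by
  have hη' : IsPrimitiveRoot (φ η) n := hη.map_of_injective φ.injective
  have h0 : ∏ ζ ∈ nthRootsFinset n (1 : S), (x - ζ * y) = 0 := by
    rw [← hη'.pow_sub_pow_eq_prod_sub_mul x y hn, hxy, sub_self]
  obtain ⟨ξ, hξ, hx⟩ := Finset.prod_eq_zero_iff.mp h0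
  have h1 : ξ ^ n = 1 := (mem_nthRootsFinset hn 1).mp hξ
  have : NeZero n := ⟨hn.ne'⟩
  obtain ⟨i, _, hi⟩ := hη'.eq_pow_of_pow_eq_one h1
  refine ⟨i, ?_⟩
  rw [map_pow, hi]
  exact sub_eq_zero.mp hx

theorem tau_desc [IsAlgClosed K] (C : Cov k R H) (m n : ℕ) (hm : 0 < m) (hmK : (m : K) ≠ 0)
    (hn : 0 < n) (hmn : n ∣ m) (b : Fam k K X R) (hb : b ≠ 0) (w : Fam k K (X ^ m) R) (c : K)
    (hc : c ≠ 0)
    (h : iim k K R m b = algebraMap K[X] (Fam k K (X ^ m) R) (Polynomial.C c) * w ^ n) :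
    ∃ (l : ℕ) (w0 : Fam k K X R),
      b = algebraMap K[X] (Fam k K X R) (Polynomial.C c * X ^ l) * w0 ^ n := by
  classical
  have hdom : IsDomain (Fam k K (X ^ m : K[X]) R) := fam_pow_domain C m hm
  have : NeZero (m : K) := ⟨hmK⟩
  obtain ⟨ζ, hζ⟩ : ∃ ζ : K, IsPrimitiveRoot ζ m :=
    HasEnoughRootsOfUnity.exists_primitiveRoot K m
  obtain ⟨τ, hτi, hτC, hτX⟩ := iim_tau (k := k) (K := K) (R := R) m ζ hζ.pow_eq_one
  obtain ⟨q, hq⟩ := hmn
  have hη : IsPrimitiveRoot (ζ ^ q) n := by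
    refine hζ.pow hm ?_
    rw [hq, mul_comm]
  have hcu : IsUnit (algebraMap K[X] (Fam k K (X ^ m) R) (Polynomial.C c)) :=
    ((isUnit_C.mpr hc.isUnit).map _)
  have h1 : (τ w) ^ n = w ^ n := by
    have h2 := congrArg τ h
    rw [hτi, map_mul, hτC, map_pow, h] at h2
    exact (hcu.mul_left_cancel h2).symm
  obtain ⟨i, hi⟩ := Tau_root
    ((algebraMap K[X] (Fam k K (X ^ m) R)).comp (Polynomial.C : K →+* K[X])) n hn (ζ ^ q) hη
    (τ w) w h1
  obtain ⟨ξ, hξ⟩ : ∃ ξ : K, ξ = (ζ ^ q) ^ i := ⟨_, rfl⟩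
  have hi' : τ w = algebraMap K[X] (Fam k K (X ^ m) R) (Polynomial.C ξ) * w := by
    rw [hξ]; exact hi
  obtain ⟨j0, hj0⟩ : ∃ j0 : ℕ, j0 = (q * i) % m := ⟨_, rfl⟩
  have hj0m : j0 < m := by rw [hj0]; exact Nat.mod_lt _ hm
  have hξj : ξ = ζ ^ j0 := by
    rw [hξ, ← pow_mul, hj0, ← pow_mod_orderOf, ← hζ.eq_orderOf]
  have hξn : ζ ^ (j0 * n) = 1 := by
    rw [pow_mul, ← hξj, hξ, ← pow_mul, mul_comm i n, pow_mul, hη.pow_eq_one, one_pow]
  obtain ⟨l, hl⟩ : m ∣ j0 * n := hζ.dvd_of_pow_eq_one _ hξn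
  obtain ⟨v, hv⟩ := iim_dec C m hm w
  have hCi : ∀ a : K, iim k K R m (algebraMap K[X] (Fam k K X R) (Polynomial.C a)) =
      algebraMap K[X] (Fam k K (X ^ m) R) (Polynomial.C a) := by
    intro a
    rw [iim_alg, Tau_exm_C]
  have hτw : τ w = ∑ j : Fin m, algebraMap K[X] (Fam k K (X ^ m) R) (X ^ (j : ℕ)) *
      iim k K R m (algebraMap K[X] (Fam k K X R) (Polynomial.C (ζ ^ (j : ℕ))) * v j) := by
    conv_lhs => rw [hv]
    rw [map_sum]
    refine Finset.sum_congr rfl fun j _ => ?_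
    have hp : τ (algebraMap K[X] (Fam k K (X ^ m) R) (X ^ (j : ℕ))) =
        algebraMap K[X] (Fam k K (X ^ m) R) (Polynomial.C (ζ ^ (j : ℕ)) * X ^ (j : ℕ)) := by
      rw [map_pow (algebraMap K[X] (Fam k K (X ^ m) R)), map_pow τ, hτX, ← map_pow, mul_pow,
        ← Polynomial.C_pow]
    rw [map_mul τ, hτi, hp, map_mul (iim k K R m), hCi, map_mul]
    ring
  have hξw : algebraMap K[X] (Fam k K (X ^ m) R) (Polynomial.C ξ) * w =
      ∑ j : Fin m, algebraMap K[X] (Fam k K (X ^ m) R) (X ^ (j : ℕ)) *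
      iim k K R m (algebraMap K[X] (Fam k K X R) (Polynomial.C ξ) * v j) := by
    conv_lhs => rw [hv]
    rw [Finset.mul_sum]
    refine Finset.sum_congr rfl fun j _ => ?_
    rw [map_mul, hCi]
    ring
  have hsum : ∑ j : Fin m, algebraMap K[X] (Fam k K (X ^ m) R) (X ^ (j : ℕ)) *
      iim k K R m (algebraMap K[X] (Fam k K X R) (Polynomial.C (ζ ^ (j : ℕ) - ξ)) * v j) = 0 := by
    have h2 : (∑ j : Fin m, algebraMap K[X] (Fam k K (X ^ m) R) (X ^ (j : ℕ)) *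
      iim k K R m (algebraMap K[X] (Fam k K X R) (Polynomial.C (ζ ^ (j : ℕ))) * v j)) -
      ∑ j : Fin m, algebraMap K[X] (Fam k K (X ^ m) R) (X ^ (j : ℕ)) *
      iim k K R m (algebraMap K[X] (Fam k K X R) (Polynomial.C ξ) * v j) = 0 := by
      rw [← hτw, ← hξw, hi', sub_self]
    rw [← Finset.sum_sub_distrib] at h2
    rw [← h2]
    refine Finset.sum_congr rfl fun j _ => ?_
    rw [Polynomial.C_sub, map_sub, sub_mul, map_sub, mul_sub]
  have hz : ∀ j : Fin m, (j : ℕ) ≠ j0 → v j = 0 := by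
    intro j hj
    have h2 := iim_uniq C m hm _ hsum j
    have h3 : ζ ^ (j : ℕ) - ξ ≠ 0 := by
      intro h4
      rw [hξj, sub_eq_zero] at h4
      exact hj (hζ.pow_inj j.2 hj0m h4)
    have h5 : IsUnit (algebraMap K[X] (Fam k K X R) (Polynomial.C (ζ ^ (j : ℕ) - ξ))) :=
      ((isUnit_C.mpr h3.isUnit).map _)
    exact (h5.mul_right_eq_zero).mp h2
  have hw1 : w = algebraMap K[X] (Fam k K (X ^ m) R) (X ^ j0) * iim k K R m (v ⟨j0, hj0m⟩) := by
    conv_lhs => rw [hv]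
    rw [Finset.sum_eq_single (⟨j0, hj0m⟩ : Fin m)]
    · intro j _ hj
      rw [hz j (fun h => hj (Fin.ext h)), map_zero, mul_zero]
    · intro h
      exact absurd (Finset.mem_univ _) h
  refine ⟨l, v ⟨j0, hj0m⟩, ?_⟩
  apply iim_inj C m hm
  have hX : iim k K R m (algebraMap K[X] (Fam k K X R) (X ^ l)) =
      algebraMap K[X] (Fam k K (X ^ m) R) (X ^ (m * l)) := by
    rw [iim_alg, map_pow (exm K m), Tau_exm_X, ← pow_mul]
  have hX2 : (algebraMap K[X] (Fam k K (X ^ m) R) (X ^ j0)) ^ n =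
      algebraMap K[X] (Fam k K (X ^ m) R) (X ^ (m * l)) := by
    rw [← map_pow, ← pow_mul, hl]
  rw [map_mul (algebraMap K[X] (Fam k K X R)), map_mul (iim k K R m), map_mul (iim k K R m), hCi,
    hX, map_pow (iim k K R m), h]
  conv_lhs => rw [hw1]
  rw [mul_pow, hX2, mul_assoc]

end Pool.Agent.AB3
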