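import Pool.Agent.Lib.MP_5de024_nt.S.EtaX.InfM
import Pool.Agent.Lib.MP_5de024_nt.S.EtaX.Tau
import Pool.Agent.Lib.MP_5de024_nt.S.EtaX.Qb
import Pool.Agent.Lib.MP_5de024_nt.S.EtaX.Qc
import Pool.Agent.Lib.MP_5de024_nt.S.GeoV

/-!
# ETA: the element over the algebraic closure
-/

set_option autoImplicit false
set_option linter.unusedSectionVars false

namespace Pool.Agent.AB3

open Polynomial

theorem eta_bar (p : ℕ) [Fact p.Prime] (k K R H : Type) [Field k] [Field K] [IsAlgClosed K]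
    [Algebra k K] [CharP K p] [CommRing R] [Algebra k[X] R] [Group H] [Finite H]
    (C : Cov k R H) (n : ℕ) (hn : n.Coprime p) (hn0 : 0 < n) (Q A : Ideal (Fam k K X R))
    [Q.IsMaximal] (hX : algebraMap K[X] (Fam k K X R) X ∈ Q) (a : Fam k K X R) (ha : a ≠ 0)
    (hQ : Q * A ^ n = Ideal.span {a}) :
    ∃ m : ℕ, 2 ≤ m ∧ m.Coprime p ∧ ∃ (η : Fam k K (X ^ m) R) (D : ℕ), 0 < D ∧ 0 < n * D ∧
      Cert n η ∧
      InfD K (Fam k K (X ^ m) R) (η - algebraMap K[X] (Fam k K (X ^ m) R) (X ^ (n * D)))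
        (n * D - 1) ∧
      (∃ y : K[X], (∏ᶠ h : H, Bs.act (evg k K (X ^ m)) C.act h η) =
        algebraMap K[X] (Fam k K (X ^ m) R) y ^ n) ∧
      ∀ (e : H → ℕ) (c : K) (w : Fam k K (X ^ m) R), c ≠ 0 →
        (∏ᶠ h : H, (Bs.act (evg k K (X ^ m)) C.act h η) ^ e h) =
          algebraMap K[X] (Fam k K (X ^ m) R) (Polynomial.C c) * w ^ n →
        ∀ h h' : H, e h ≡ e h' [MOD n] := by
  classical
  have := Fintype.ofFinite H
  obtain ⟨CK, hCK⟩ := cov_bc k R H C K (X : K[X]) (by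
    intro F' _ _ _ _
    rw [Polynomial.map_X]
    exact C.geom F')
  have hdS : IsDomain (Fam k K X R) := cov_domain CK
  obtain ⟨m, hm2, hmp, hnm, hinf⟩ := inf_main K (Fam k K X R) H CK p n hn hn0
  have hm : 0 < m := by omega
  obtain ⟨C1, hC1⟩ := cov_bc k R H C K (X ^ m : K[X]) (by
    intro F' _ _ _ _
    rw [Polynomial.map_pow, Polynomial.map_X]
    exact fam_pow_domain C m hm)
  have hdS1 : IsDomain (Fam k K (X ^ m) R) := cov_domain C1
  have hded : IsDedekindDomain (Fam k K (X ^ m) R) := cov_dedekind C1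
  obtain ⟨y, D, hD, hy0, hinfd⟩ := hinf (Fam k K (X ^ m) R) C1 (iim k K R m)
    (iim_inj C m hm) (iim_alg m) a ha
  have hmK : (m : K) ≠ 0 := by
    intro h
    rw [CharP.cast_eq_zero_iff K p] at h
    exact (Fact.out : p.Prime).one_lt.ne' (Nat.eq_one_of_dvd_coprimes hmp h (dvd_refl p))
  have hia : iim k K R m a ≠ 0 := fun h => ha (iim_inj C m hm (by rw [h, map_zero]))
  have hη0 : iim k K R m a * y ^ n ≠ 0 := mul_ne_zero hia (pow_ne_zero _ hy0)
  have hact : ∀ h : H, Bs.act (evg k K (X ^ m)) C.act h (iim k K R m a * y ^ n) =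
      iim k K R m (CK.act h a) * (C1.act h y) ^ n := by
    intro h
    rw [map_mul, map_pow, ← iim_act C m h a, ← hCK, ← hC1]
  have hiX : iim k K R m (algebraMap K[X] (Fam k K X R) X) =
      algebraMap K[X] (Fam k K (X ^ m) R) X ^ m := by
    rw [iim_alg]
    simp [exm]
  refine ⟨m, hm2, hmp, iim k K R m a * y ^ n, D, hD, Nat.mul_pos hn0 hD, ?_, hinfd, ?_, ?_⟩
  · obtain ⟨J, hJ⟩ := qc_cert K (Fam k K X R) (Fam k K (X ^ m) R) H CK n m hn0 hnm hm
      (iim k K R m) (iim_inj C m hm) hiX Q A hX a ha hQ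
    refine cert_of_pow n hn0 _ hη0 (J * Ideal.span {y}) ?_
    rw [mul_pow, hJ, Ideal.span_singleton_pow, Ideal.span_singleton_mul_span_singleton]
  · obtain ⟨l, g, hg⟩ := qb_norm CK Q A n hn0 hX a ha hQ
    obtain ⟨y', hy'⟩ := C1.fixed (∏ h : H, C1.act h y) (by
      intro h
      rw [map_prod]
      refine Fintype.prod_equiv (Equiv.mulLeft h) _ _ (fun x => ?_)
      rw [Equiv.coe_mulLeft, map_mul, AlgEquiv.mul_apply])
    obtain ⟨m', hm'⟩ := hnm
    refine ⟨X ^ (m' * l) * exm K m g * y', ?_⟩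
    rw [finprod_eq_prod_of_fintype] at hg ⊢
    simp only [hact]
    rw [Finset.prod_mul_distrib, ← map_prod, hg, iim_alg, Finset.prod_pow, ← hy', ← map_pow,
      ← map_pow, ← map_mul]
    congr 1
    rw [map_mul, map_pow, map_pow]
    have hX' : exm K m X = X ^ m := by simp [exm]
    rw [hX', mul_pow, mul_pow, ← pow_mul, ← pow_mul]
    congr 3
    rw [hm']; ring
  · intro e c w hc hrel h1 h2
    rw [finprod_eq_prod_of_fintype] at hrel
    simp only [hact, mul_pow] at hrel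
    rw [Finset.prod_mul_distrib] at hrel
    have hY : (∏ h : H, ((C1.act h y) ^ n) ^ e h) = (∏ h : H, (C1.act h y) ^ e h) ^ n := by
      rw [← Finset.prod_pow]
      exact Finset.prod_congr rfl (fun h _ => by rw [← pow_mul, ← pow_mul, mul_comm])
    have hb : (∏ h : H, (iim k K R m (CK.act h a)) ^ e h) =
        iim k K R m (∏ h : H, (CK.act h a) ^ e h) := by
      rw [map_prod]
      exact Finset.prod_congr rfl (fun h _ => by rw [map_pow])
    rw [hY, hb] at hrel
    have hY0 : (∏ h : H, (C1.act h y) ^ e h) ≠ 0 := by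
      refine Finset.prod_ne_zero_iff.2 (fun h _ => pow_ne_zero _ ?_)
      exact fun h0 => hy0 ((C1.act h).injective (by rw [h0, map_zero]))
    have hb0 : (∏ h : H, (CK.act h a) ^ e h) ≠ 0 := by
      refine Finset.prod_ne_zero_iff.2 (fun h _ => pow_ne_zero _ ?_)
      exact fun h0 => ha ((CK.act h).injective (by rw [h0, map_zero]))
    have hcu : IsUnit (algebraMap K[X] (Fam k K (X ^ m) R) (Polynomial.C c)) :=
      (Polynomial.isUnit_C.2 (isUnit_iff_ne_zero.2 hc)).map _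
    have hdvd : (∏ h : H, (C1.act h y) ^ e h) ∣ w := by
      refine (IsIntegrallyClosed.pow_dvd_pow_iff hn0.ne').1 ?_
      rw [← hcu.dvd_mul_left (a := (∏ h : H, (C1.act h y) ^ e h) ^ n), ← hrel]
      exact dvd_mul_left _ _
    obtain ⟨w', hw'⟩ := hdvd
    have hrel2 : iim k K R m (∏ h : H, (CK.act h a) ^ e h) =
        algebraMap K[X] (Fam k K (X ^ m) R) (Polynomial.C c) * w' ^ n := by
      rw [hw', mul_pow] at hrel
      refine mul_right_cancel₀ (pow_ne_zero n hY0) ?_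
      rw [hrel]; ring
    obtain ⟨l, w0, hw0⟩ := tau_desc C m n hm hmK hn0 hnm _ hb0 w' c hc hrel2
    refine qb_ind CK Q A n hn0 hX a ha hQ e c hc l w0 ?_ h1 h2
    rw [finprod_eq_prod_of_fintype]
    exact hw0

end Pool.Agent.AB3
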