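import Pool.Agent.Lib.MP_5de024_nt.S.EtaX.Def

/-!
# ETA: the ring of rational functions without pole at infinity
-/

set_option autoImplicit false
set_option linter.unusedSectionVars false

namespace Pool.Agent.AB3

open Polynomial

variable {K S E : Type} [Field K] [CommRing S] [Algebra K[X] S] [Field E]
    [Algebra S E]

theorem Oi_mk {z : E} {f g : K[X]} (hg : g ≠ 0) (hd : f.natDegree ≤ g.natDegree)
    (h : z * toE K S E g = toE K S E f) : z ∈ Oi K S E := ⟨f, g, hg, hd, h⟩

theorem Oi_ne (hinj : Function.Injective (toE K S E)) {g : K[X]} (hg : g ≠ 0) :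
    toE K S E g ≠ 0 := by
  intro h
  exact hg (hinj (by rw [h, map_zero]))

theorem Oi_deg (hinj : Function.Injective (toE K S E)) {z : E} {f g : K[X]} (hg : g ≠ 0)
    (h : z * toE K S E g = toE K S E f) (hz : z ∈ Oi K S E) : f.natDegree ≤ g.natDegree := by
  obtain ⟨f', g', hg', hd', h'⟩ := hz
  have h1 : f * g' = f' * g := by
    apply hinj
    rw [map_mul, map_mul, ← h, ← h']
    ring
  by_cases hf : f = 0
  · rw [hf, natDegree_zero]
    exact Nat.zero_le _
  · have hf' : f' ≠ 0 := by
      rintro rfl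
      rw [zero_mul] at h1
      exact mul_ne_zero hf hg' h1
    have h2 := congrArg natDegree h1
    rw [natDegree_mul hf hg', natDegree_mul hf' hg] at h2
    omega

theorem Oi_ux (hinj : Function.Injective (toE K S E)) :
    uE K S E * toE K S E X = 1 := by
  unfold uE
  exact inv_mul_cancel₀ (Oi_ne hinj X_ne_zero)

theorem oi_pid (hinj : Function.Injective (toE K S E)) :
    IsPrincipalIdealRing (Oi K S E) := by
  classical
  refine ⟨fun I => ?_⟩
  by_cases hI : I = ⊥
  · rw [hI]
    exact bot_isPrincipal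
  · obtain ⟨z, hz, hz0⟩ := Submodule.exists_mem_ne_zero_of_ne_bot hI
    -- every nonzero element has a degree
    have hex : ∀ w : Oi K S E, w ≠ 0 → ∃ (d : ℕ) (f g : K[X]), f ≠ 0 ∧ g ≠ 0 ∧
        (w : E) * toE K S E g = toE K S E f ∧ g.natDegree = f.natDegree + d := by
      rintro ⟨w, f, g, hg, hd, h⟩ hw
      refine ⟨g.natDegree - f.natDegree, f, g, ?_, hg, h, by omega⟩
      rintro rfl
      rw [map_zero] at h
      rcases mul_eq_zero.mp h with h1 | h1
      · exact hw (Subtype.ext h1)
      · exact Oi_ne hinj hg h1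
    have hne : ∃ d : ℕ, ∃ w ∈ I, w ≠ 0 ∧ ∃ f g : K[X], f ≠ 0 ∧ g ≠ 0 ∧
        (w : E) * toE K S E g = toE K S E f ∧ g.natDegree = f.natDegree + d := by
      obtain ⟨d, h⟩ := hex z hz0
      exact ⟨d, z, hz, hz0, h⟩
    obtain ⟨w, hw, hw0, f, g, hf, hg, h, hd⟩ := Nat.find_spec hne
    refine ⟨w, le_antisymm ?_ ?_⟩
    · intro y hy
      by_cases hy0 : y = 0
      · rw [hy0]
        exact Submodule.zero_mem _
      obtain ⟨d', f', g', hf', hg', h', hd'⟩ := hex y hy0
      have hle : Nat.find hne ≤ d' := Nat.find_min' hne ⟨y, hy, hy0, f', g', hf', hg', h', hd'⟩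
      have hwE : (w : E) ≠ 0 := fun h0 => hw0 (Subtype.ext h0)
      have hmem : (y : E) / w ∈ Oi K S E := by
        refine Oi_mk (f := f' * g) (g := g' * f) (mul_ne_zero hg' hf) ?_ ?_
        · rw [natDegree_mul hf' hg, natDegree_mul hg' hf]
          omega
        · rw [map_mul, map_mul, ← h, ← h']
          field_simp
      have h1 : y = (⟨(y : E) / w, hmem⟩ : Oi K S E) • w := by
        apply Subtype.ext
        change (y : E) = (y : E) / w * w
        rw [div_mul_cancel₀ _ hwE]
      rw [h1]
      exact Submodule.smul_mem _ _ (Submodule.mem_span_singleton_self _)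
    · rw [Submodule.span_singleton_le_iff_mem]
      exact hw

/-- the only maximal ideal is generated by `u` -/
theorem oi_unit (hinj : Function.Injective (toE K S E)) (z : E) (hz : z ∈ Oi K S E) :
    z * uE K S E ∈ Oi K S E ∧ 1 + z * uE K S E ≠ 0 ∧ (1 + z * uE K S E)⁻¹ ∈ Oi K S E ∧
      (z = 0 ∨ z⁻¹ ∈ Oi K S E ∨ z * toE K S E X ∈ Oi K S E) := by
  obtain ⟨f, g, hg, hd, h⟩ := hz
  have hux := Oi_ux (K := K) (S := S) (E := E) hinj
  have hgX : g * X ≠ 0 := mul_ne_zero hg X_ne_zero
  have hdX : (g * X).natDegree = g.natDegree + 1 := natDegree_mul_X hg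
  have hlt : f.natDegree < (g * X).natDegree := by omega
  have hs : (g * X + f).natDegree = (g * X).natDegree := natDegree_add_eq_left_of_natDegree_lt hlt
  have hs0 : g * X + f ≠ 0 := by
    intro h0
    rw [h0, natDegree_zero] at hs
    omega
  have h1 : z * uE K S E * toE K S E (g * X) = toE K S E f := by
    rw [← h, map_mul]
    calc z * uE K S E * (toE K S E g * toE K S E X) =
      z * toE K S E g * (uE K S E * toE K S E X) := by ring
      _ = z * toE K S E g := by rw [hux, mul_one]
  have h2 : (1 + z * uE K S E) * toE K S E (g * X) = toE K S E (g * X + f) := by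
    rw [add_mul, one_mul, h1, map_add]
  have h3 : 1 + z * uE K S E ≠ 0 := by
    intro h0
    rw [h0, zero_mul] at h2
    exact Oi_ne hinj hs0 h2.symm
  refine ⟨Oi_mk hgX (by omega) h1, h3, Oi_mk (f := g * X) (g := g * X + f) hs0 hs.ge ?_, ?_⟩
  · rw [← h2, ← mul_assoc, inv_mul_cancel₀ h3, one_mul]
  · by_cases hf : f = 0
    · left
      rw [hf, map_zero] at h
      rcases mul_eq_zero.mp h with h4 | h4
      · exact h4
      · exact absurd h4 (Oi_ne hinj hg)
    · have hz0 : z ≠ 0 := by
        rintro rfl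
        rw [zero_mul] at h
        exact Oi_ne hinj hf h.symm
      right
      by_cases he : f.natDegree = g.natDegree
      · left
        refine Oi_mk (f := g) (g := f) hf he.ge ?_
        rw [← h, ← mul_assoc, inv_mul_cancel₀ hz0, one_mul]
      · right
        refine Oi_mk (f := f * X) (g := g) hg ?_ ?_
        · rw [natDegree_mul_X hf]
          omega
        · rw [map_mul, ← h]
          ring

/-- modulo `u` there are only constants -/
theorem oi_const (hinj : Function.Injective (toE K S E)) (z : E) (hz : z ∈ Oi K S E) :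
    ∃ (c : K) (t : E), t ∈ Oi K S E ∧ z = toE K S E (C c) + uE K S E * t := by
  obtain ⟨f, g, hg, hd, h⟩ := hz
  have hux := Oi_ux (K := K) (S := S) (E := E) hinj
  obtain ⟨c, hc⟩ : ∃ c : K, c = f.coeff g.natDegree / g.leadingCoeff := ⟨_, rfl⟩
  obtain ⟨f1, hf1⟩ : ∃ f1, f1 = f - C c * g := ⟨_, rfl⟩
  have hcoef : f1.coeff g.natDegree = 0 := by
    rw [hf1, coeff_sub, coeff_C_mul, hc, coeff_natDegree,
      div_mul_cancel₀ _ (leadingCoeff_ne_zero.mpr hg), sub_self]
  have hdeg : f1.natDegree ≤ g.natDegree := by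
    rw [hf1]
    refine (natDegree_sub_le _ _).trans (max_le hd (natDegree_C_mul_le _ _))
  refine ⟨c, (z - toE K S E (C c)) * toE K S E X, ?_, ?_⟩
  · refine Oi_mk (f := f1 * X) (g := g) hg ?_ ?_
    · by_cases h0 : f1 = 0
      · rw [h0, zero_mul, natDegree_zero]
        exact Nat.zero_le _
      · rw [natDegree_mul_X h0]
        have h1 : f1.natDegree ≠ g.natDegree := by
          intro h2
          rw [← h2, coeff_natDegree] at hcoef
          exact h0 (leadingCoeff_eq_zero.mp hcoef)
        omega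
    · rw [hf1, map_mul, map_sub, map_mul, ← h]
      ring
  · calc z = toE K S E (C c) + (z - toE K S E (C c)) * 1 := by ring
      _ = toE K S E (C c) + (z - toE K S E (C c)) * (uE K S E * toE K S E X) := by rw [hux]
      _ = _ := by ring

/-- integrally closed in `K(X)` -/
theorem oi_int (hinj : Function.Injective (toE K S E)) (f g : K[X]) (hg : g ≠ 0) (z : E)
    (h : z * toE K S E g = toE K S E f) (hz : z ∈ Ri K S E) : f.natDegree ≤ g.natDegree := by
  by_contra hlt
  have hlt' : g.natDegree < f.natDegree := by omega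
  have hf : f ≠ 0 := by
    rintro rfl
    rw [natDegree_zero] at hlt'
    omega
  have hz0 : z ≠ 0 := by
    rintro rfl
    rw [zero_mul] at h
    exact Oi_ne hinj hf h.symm
  have hinv : z⁻¹ ∈ Oi K S E := by
    refine Oi_mk (f := g) (g := f) hf hlt'.le ?_
    rw [← h, ← mul_assoc, inv_mul_cancel₀ hz0, one_mul]
  have hzO : z ∈ Oi K S E := by
    obtain ⟨P, hP, hP0⟩ := (mem_Ri z).mp hz
    let iv : Invertible z := invertibleOfNonzero hz0
    have h1 := (eval₂_reverse_eq_zero_iff (algebraMap (Oi K S E) E) z P).mpr hP0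
    rw [invOf_eq_inv, ← divX_mul_X_add P.reverse, coeff_zero_reverse, hP.leadingCoeff,
      eval₂_add, eval₂_mul, eval₂_X, eval₂_C, map_one] at h1
    have h2 : eval₂ (algebraMap (Oi K S E) E) z⁻¹ P.reverse.divX =
        ((P.reverse.divX.eval (⟨z⁻¹, hinv⟩ : Oi K S E) : Oi K S E) : E) := by
      have h3 := Polynomial.hom_eval₂ P.reverse.divX (RingHom.id (Oi K S E))
        (algebraMap (Oi K S E) E) (⟨z⁻¹, hinv⟩ : Oi K S E)
      rw [RingHom.comp_id] at h3
      exact h3.symm
    have h4 : z = -eval₂ (algebraMap (Oi K S E) E) z⁻¹ P.reverse.divX := by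
      have h5 : eval₂ (algebraMap (Oi K S E) E) z⁻¹ P.reverse.divX * z⁻¹ = -1 :=
        eq_neg_of_add_eq_zero_left h1
      calc z = -(-1) * z := by ring
        _ = -(eval₂ (algebraMap (Oi K S E) E) z⁻¹ P.reverse.divX * z⁻¹) * z := by rw [h5]
        _ = -eval₂ (algebraMap (Oi K S E) E) z⁻¹ P.reverse.divX * (z⁻¹ * z) := by ring
        _ = _ := by rw [inv_mul_cancel₀ hz0, mul_one]
    rw [h4, h2]
    exact neg_mem (SetLike.coe_mem _)
  exact hlt (Oi_deg hinj hg h hzO)

/-- every rational function times a power of `u` is in the ring -/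
theorem oi_pow (hinj : Function.Injective (toE K S E)) (f g : K[X]) (hg : g ≠ 0) :
    ∃ d : ℕ, toE K S E f / toE K S E g * uE K S E ^ d ∈ Oi K S E := by
  have hux := Oi_ux (K := K) (S := S) (E := E) hinj
  refine ⟨f.natDegree, Oi_mk (f := f) (g := g * X ^ f.natDegree)
    (mul_ne_zero hg (pow_ne_zero _ X_ne_zero)) ?_ ?_⟩
  · rw [natDegree_mul hg (pow_ne_zero _ X_ne_zero), natDegree_X_pow]
    omega
  · rw [map_mul, map_pow]
    have hg' := Oi_ne hinj hg
    calc toE K S E f / toE K S E g * uE K S E ^ f.natDegree *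
        (toE K S E g * toE K S E X ^ f.natDegree) =
        toE K S E f / toE K S E g * toE K S E g *
          (uE K S E * toE K S E X) ^ f.natDegree := by ring
      _ = toE K S E f := by rw [hux, one_pow, mul_one, div_mul_cancel₀ _ hg']

end Pool.Agent.AB3
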