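import Mathlib

/-!
# ETA: reduced bases
-/

set_option autoImplicit false
set_option linter.unusedSectionVars false

namespace Pool.Agent.AB3

open Polynomial

section rb
variable {F M : Type} [Field F] [AddCommGroup M] [Module F[X] M] {P : ℕ → AddSubgroup M}

theorem rb_mono (hmono : ∀ n, P n ≤ P (n + 1)) {m n : ℕ} (h : m ≤ n) : P m ≤ P n :=
  monotone_nat_of_le_succ hmono h

theorem rb_pow (hX : ∀ n x, x ∈ P n → (X : F[X]) • x ∈ P (n + 1)) (k : ℕ) :
    ∀ (n : ℕ) (x : M), x ∈ P n → (X ^ k : F[X]) • x ∈ P (n + k) := by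
  induction k with
  | zero => intro n x hx; rw [pow_zero, one_smul]; exact hx
  | succ k ih =>
    intro n x hx
    rw [pow_succ', mul_smul]
    exact hX _ _ (ih n x hx)

theorem rb_pdiv (hdiv : ∀ n x, (X : F[X]) • x ∈ P (n + 1) → x ∈ P n) (k : ℕ) :
    ∀ (n : ℕ) (x : M), (X ^ k : F[X]) • x ∈ P (n + k) → x ∈ P n := by
  induction k with
  | zero => intro n x hx; rw [pow_zero, one_smul] at hx; exact hx
  | succ k ih =>
    intro n x hx
    rw [pow_succ', mul_smul] at hx
    exact ih n x (hdiv _ _ hx)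

theorem rb_smul (hC : ∀ (n : ℕ) (x : M) (c : F), x ∈ P n → (C c : F[X]) • x ∈ P n)
    (hmono : ∀ n, P n ≤ P (n + 1)) (hX : ∀ n x, x ∈ P n → (X : F[X]) • x ∈ P (n + 1))
    (f : F[X]) {x : M} {k n : ℕ} (hx : x ∈ P k) (h : f = 0 ∨ f.natDegree + k ≤ n) :
    f • x ∈ P n := by
  rcases h with rfl | h
  · rw [zero_smul]; exact (P n).zero_mem
  · rw [f.as_sum_range_C_mul_X_pow, Finset.sum_smul]
    refine AddSubgroup.sum_mem _ (fun i hi => ?_)
    rw [mul_smul]
    have hi' : i ≤ f.natDegree := Nat.lt_succ_iff.1 (Finset.mem_range.1 hi)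
    exact hC _ _ _ (rb_mono hmono (by omega) (rb_pow hX i k x hx))

/-- a minimal generating set is reduced -/
theorem rb_red (hC : ∀ (n : ℕ) (x : M) (c : F), x ∈ P n → (C c : F[X]) • x ∈ P n)
    (hmono : ∀ n, P n ≤ P (n + 1)) (hX : ∀ n x, x ∈ P n → (X : F[X]) • x ∈ P (n + 1))
    (hdiv : ∀ n x, (X : F[X]) • x ∈ P (n + 1) → x ∈ P n)
    (dg : M → ℕ) (hdg : ∀ x n, x ∈ P n ↔ dg x ≤ n) (S : Finset M)
    (hS : Submodule.span F[X] (S : Set M) = ⊤) (hpos : ∀ s ∈ S, 1 ≤ dg s)
    (hmin : ∀ S' : Finset M, Submodule.span F[X] (S' : Set M) = ⊤ →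
      ∑ s ∈ S, (dg s + 1) ≤ ∑ s ∈ S', (dg s + 1))
    (c : M → F[X]) (n : ℕ) (h : ∑ s ∈ S, c s • s ∈ P n) :
    ∀ s ∈ S, c s = 0 ∨ (c s).natDegree + dg s ≤ n := by
  classical
  by_contra hcon
  push Not at hcon
  obtain ⟨s1, hs1, hc1, hn1⟩ := hcon
  have hmem : ∀ s : M, s ∈ P (dg s) := fun s => (hdg s _).2 le_rfl
  obtain ⟨T, hT⟩ : ∃ T, T = S.filter fun s => c s ≠ 0 := ⟨_, rfl⟩
  have hs1T : s1 ∈ T := by rw [hT]; exact Finset.mem_filter.2 ⟨hs1, hc1⟩
  obtain ⟨s2, hs2, hmax⟩ := Finset.exists_max_image T (fun s => (c s).natDegree + dg s) ⟨s1, hs1T⟩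
  obtain ⟨D, hD⟩ : ∃ D, D = (c s2).natDegree + dg s2 := ⟨_, rfl⟩
  have hmax' : ∀ s ∈ T, (c s).natDegree + dg s ≤ D := fun s hs => by rw [hD]; exact hmax s hs
  have hDn : n < D := lt_of_lt_of_le hn1 (hmax' s1 hs1T)
  obtain ⟨I, hI⟩ : ∃ I, I = T.filter fun s => (c s).natDegree + dg s = D := ⟨_, rfl⟩
  have hs2I : s2 ∈ I := by rw [hI]; exact Finset.mem_filter.2 ⟨hs2, hD.symm⟩
  obtain ⟨s0, hs0, hmax0⟩ := Finset.exists_max_image I dg ⟨s2, hs2I⟩
  have hIs : ∀ s ∈ I, s ∈ S ∧ c s ≠ 0 ∧ (c s).natDegree + dg s = D := by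
    intro s hs
    rw [hI, Finset.mem_filter, hT, Finset.mem_filter] at hs
    exact ⟨hs.1.1, hs.1.2, hs.2⟩
  obtain ⟨h0S, hc0, hD0⟩ := hIs s0 hs0
  obtain ⟨m0, hm0⟩ : ∃ m0, m0 = (c s0).natDegree := ⟨_, rfl⟩
  obtain ⟨g, hg⟩ : ∃ g : M → F[X], g = fun s =>
    C (c s).leadingCoeff * X ^ ((c s).natDegree - m0) := ⟨_, rfl⟩
  obtain ⟨y, hy⟩ : ∃ y, y = ∑ s ∈ I, g s • s := ⟨_, rfl⟩
  have hXy : (X ^ m0 : F[X]) • y = ∑ s ∈ S, (if s ∈ I then
      C (c s).leadingCoeff * X ^ (c s).natDegree else (0 : F[X])) • s := by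
    have hIS : I ⊆ S := fun s hs => (hIs s hs).1
    rw [hy, Finset.smul_sum, ← Finset.sum_subset hIS]
    · refine Finset.sum_congr rfl (fun s hs => ?_)
      rw [if_pos hs, smul_smul, hg]
      congr 1
      have h1 := (hIs s hs).2.2
      have h2 := hmax0 s hs
      have h3 : m0 + ((c s).natDegree - m0) = (c s).natDegree := by omega
      show X ^ m0 * (C (c s).leadingCoeff * X ^ ((c s).natDegree - m0)) = _
      calc X ^ m0 * (C (c s).leadingCoeff * X ^ ((c s).natDegree - m0))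
          = C (c s).leadingCoeff * X ^ (m0 + ((c s).natDegree - m0)) := by rw [pow_add]; ring
        _ = _ := by rw [h3]
    · intro s _ hs
      rw [if_neg hs, zero_smul]
  have hd0 : 1 ≤ dg s0 := hpos s0 h0S
  have hyP : y ∈ P (dg s0 - 1) := by
    apply rb_pdiv hdiv m0
    have h1 : dg s0 - 1 + m0 = D - 1 := by omega
    rw [h1]
    have h2 : (X ^ m0 : F[X]) • y = ∑ s ∈ S, c s • s - ∑ s ∈ S, (c s - (if s ∈ I then
      C (c s).leadingCoeff * X ^ (c s).natDegree else (0 : F[X]))) • s := by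
      rw [hXy]
      simp only [sub_smul, Finset.sum_sub_distrib]
      abel
    rw [h2]
    refine AddSubgroup.sub_mem _ (rb_mono hmono (by omega) h)
      (AddSubgroup.sum_mem _ (fun s hs => ?_))
    by_cases hsI : s ∈ I
    · rw [if_pos hsI]
      have h3 : c s - C (c s).leadingCoeff * X ^ (c s).natDegree = (c s).eraseLead := by
        rw [← Polynomial.self_sub_C_mul_X_pow]
      rw [h3]
      refine rb_smul hC hmono hX _ (hmem s) ?_
      obtain ⟨-, hcs, hDs⟩ := hIs s hsI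
      by_cases h4 : (c s).eraseLead = 0
      · exact Or.inl h4
      · right
        have h5 : (c s).eraseLead.natDegree < (c s).natDegree := by
          rcases Polynomial.eraseLead_natDegree_lt_or_eraseLead_eq_zero (c s) with h5 | h5
          · exact h5
          · exact absurd h5 h4
        omega
    · rw [if_neg hsI, sub_zero]
      refine rb_smul hC hmono hX _ (hmem s) ?_
      by_cases h4 : c s = 0
      · exact Or.inl h4
      · right
        have h5 : s ∈ T := by rw [hT]; exact Finset.mem_filter.2 ⟨hs, h4⟩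
        have h6 := hmax' s h5
        have h7 : (c s).natDegree + dg s ≠ D := fun h7 => hsI (by
          rw [hI]; exact Finset.mem_filter.2 ⟨h5, h7⟩)
        omega
  have hydg : dg y ≤ dg s0 - 1 := (hdg y _).1 hyP
  have hspan : Submodule.span F[X] ((insert y (S.erase s0) : Finset M) : Set M) = ⊤ := by
    rw [eq_top_iff, ← hS, Submodule.span_le]
    intro s hs
    by_cases hss : s = s0
    · subst hss
      have hy2 : y = g s • s + ∑ t ∈ I.erase s, g t • t := by
        rw [hy]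
        exact (Finset.add_sum_erase I (fun t => g t • t) hs0).symm
      have hgs : g s = C (c s).leadingCoeff := by
        rw [hg]
        show C (c s).leadingCoeff * X ^ ((c s).natDegree - m0) = _
        rw [hm0, Nat.sub_self, pow_zero, mul_one]
      have hs3 : s = (C ((c s).leadingCoeff)⁻¹ : F[X]) • (y - ∑ t ∈ I.erase s, g t • t) := by
        rw [hy2, add_sub_cancel_right, hgs, smul_smul, ← C_mul,
          inv_mul_cancel₀ (Polynomial.leadingCoeff_ne_zero.2 hc0), C_1, one_smul]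
      have hs4 : (C ((c s).leadingCoeff)⁻¹ : F[X]) • (y - ∑ t ∈ I.erase s, g t • t) ∈
          Submodule.span F[X] ((insert y (S.erase s) : Finset M) : Set M) := by
        refine Submodule.smul_mem _ _ (Submodule.sub_mem _ ?_
          (Submodule.sum_mem _ (fun t ht => ?_)))
        · exact Submodule.subset_span (Finset.mem_coe.2 (Finset.mem_insert_self y _))
        · refine Submodule.smul_mem _ _ (Submodule.subset_span (Finset.mem_coe.2 ?_))
          rw [Finset.mem_erase] at ht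
          exact Finset.mem_insert_of_mem (Finset.mem_erase.2 ⟨ht.1, (hIs t ht.2).1⟩)
      rw [← hs3] at hs4
      exact hs4
    · exact Submodule.subset_span (Finset.mem_coe.2
        (Finset.mem_insert_of_mem (Finset.mem_erase.2 ⟨hss, hs⟩)))
  have hle := hmin _ hspan
  have h1 : ∑ s ∈ insert y (S.erase s0), (dg s + 1) ≤
      (dg y + 1) + ∑ s ∈ S.erase s0, (dg s + 1) := by
    by_cases hyS : y ∈ S.erase s0
    · rw [Finset.insert_eq_of_mem hyS]; omega
    · rw [Finset.sum_insert hyS]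
  have h2 : ∑ s ∈ S, (dg s + 1) = (dg s0 + 1) + ∑ s ∈ S.erase s0, (dg s + 1) :=
    (Finset.add_sum_erase S (fun s => dg s + 1) h0S).symm
  omega

/-- the reduced basis for a filtration with `P 0 = ⊥` -/
theorem rb_core [Module.Finite F[X] M] (hP0 : P 0 = ⊥)
    (hC : ∀ (n : ℕ) (x : M) (c : F), x ∈ P n → (C c : F[X]) • x ∈ P n)
    (hmono : ∀ n, P n ≤ P (n + 1)) (hall : ∀ x, ∃ n, x ∈ P n)
    (hX : ∀ n x, x ∈ P n → (X : F[X]) • x ∈ P (n + 1))
    (hdiv : ∀ n x, (X : F[X]) • x ∈ P (n + 1) → x ∈ P n) :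
    ∃ (N : ℕ) (b : Module.Basis (Fin N) F[X] M) (dd : Fin N → ℕ), ∀ (x : M) (n : ℕ),
      x ∈ P (n + 1) ↔ ∀ i, b.repr x i = 0 ∨ (b.repr x i).natDegree + dd i ≤ n := by
  classical
  obtain ⟨dg, hdg'⟩ : ∃ dg : M → ℕ, dg = fun x => Nat.find (hall x) := ⟨_, rfl⟩
  have hdg : ∀ x n, x ∈ P n ↔ dg x ≤ n := by
    intro x n
    rw [hdg']
    constructor
    · intro h
      exact Nat.find_min' (hall x) h
    · intro h
      exact rb_mono hmono h (Nat.find_spec (hall x))
  have hd0 : ∀ x, dg x = 0 → x = 0 := by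
    intro x hx
    have h := (hdg x 0).2 hx.le
    rw [hP0] at h
    exact h
  have hex : ∃ w : ℕ, ∃ S : Finset M, Submodule.span F[X] (S : Set M) = ⊤ ∧
      ∑ s ∈ S, (dg s + 1) = w := by
    obtain ⟨S, hS⟩ := (Module.Finite.fg_top : (⊤ : Submodule F[X] M).FG)
    exact ⟨_, S, hS, rfl⟩
  obtain ⟨S, hS, hw⟩ := Nat.find_spec hex
  have hmin : ∀ S' : Finset M, Submodule.span F[X] (S' : Set M) = ⊤ →
      ∑ s ∈ S, (dg s + 1) ≤ ∑ s ∈ S', (dg s + 1) := by
    intro S' hS'
    rw [hw]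
    exact Nat.find_min' hex ⟨S', hS', rfl⟩
  have hpos : ∀ s ∈ S, 1 ≤ dg s := by
    intro s hs
    by_contra hlt
    have hs0 : s = 0 := hd0 s (by omega)
    have hsp : Submodule.span F[X] ((S.erase s : Finset M) : Set M) = ⊤ := by
      rw [eq_top_iff, ← hS, Submodule.span_le]
      intro t ht
      by_cases hts : t = s
      · rw [hts, hs0]
        exact Submodule.zero_mem _
      · exact Submodule.subset_span (Finset.mem_coe.2 (Finset.mem_erase.2 ⟨hts, ht⟩))
    have h1 := hmin _ hsp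
    have h2 := Finset.add_sum_erase S (fun s => dg s + 1) hs
    have h3 : (dg s + 1) + ∑ x ∈ S.erase s, (dg x + 1) = ∑ x ∈ S, (dg x + 1) := h2
    omega
  have hred := fun (c : S → F[X]) (n : ℕ) (h : ∑ s : S, c s • (s : M) ∈ P n) =>
    rb_red hC hmono hX hdiv dg hdg S hS hpos hmin
      (fun m => if hm : m ∈ S then c ⟨m, hm⟩ else 0) n (by
        rw [← Finset.sum_coe_sort S]
        simpa using h)
  have hred' : ∀ (c : S → F[X]) (n : ℕ), ∑ s : S, c s • (s : M) ∈ P n → ∀ s : S,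
      c s = 0 ∨ (c s).natDegree + dg s.1 ≤ n := by
    intro c n h s
    have h1 := hred c n h s.1 s.2
    simpa using h1
  have hli : LinearIndependent F[X] (fun s : S => (s : M)) := by
    rw [Fintype.linearIndependent_iff]
    intro c hc s
    have h1 := hred' c 0 (by rw [hc]; exact (P 0).zero_mem) s
    rcases h1 with h1 | h1
    · exact h1
    · have := hpos s.1 s.2
      omega
  have hsp : ⊤ ≤ Submodule.span F[X] (Set.range fun s : S => (s : M)) := by
    rw [← hS]
    apply Submodule.span_mono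
    intro s hs
    exact ⟨⟨s, hs⟩, rfl⟩
  obtain ⟨b0, hb0⟩ : ∃ b0 : Module.Basis S F[X] M, ∀ s, b0 s = (s : M) :=
    ⟨Module.Basis.mk hli hsp, fun s => Module.Basis.mk_apply hli hsp s⟩
  refine ⟨S.card, b0.reindex S.equivFin, fun i => dg (S.equivFin.symm i).1 - 1, ?_⟩
  intro x n
  have hx : ∑ s : S, b0.repr x s • (s : M) = x := by
    have h1 := b0.sum_repr x
    simpa only [hb0] using h1
  constructor
  · intro hxn i
    have h1 := hred' (fun s => b0.repr x s) (n + 1) (by rw [hx]; exact hxn) (S.equivFin.symm i)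
    have h2 := hpos (S.equivFin.symm i).1 (S.equivFin.symm i).2
    rw [Module.Basis.repr_reindex_apply]
    rcases h1 with h1 | h1
    · exact Or.inl h1
    · right
      show (b0.repr x (S.equivFin.symm i)).natDegree + (dg (S.equivFin.symm i).1 - 1) ≤ n
      omega
  · intro h
    rw [← hx]
    refine AddSubgroup.sum_mem _ (fun s _ => ?_)
    refine rb_smul hC hmono hX _ ((hdg s.1 _).2 le_rfl) ?_
    have h1 := h (S.equivFin s)
    rw [Module.Basis.repr_reindex_apply, Equiv.symm_apply_apply] at h1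
    rcases h1 with h1 | h1
    · exact Or.inl h1
    · right
      have h2 : (b0.repr x s).natDegree + (dg s.1 - 1) ≤ n := by
        have h3 := h1
        simp only [Equiv.symm_apply_apply] at h3
        exact h3
      have h4 := hpos s.1 s.2
      omega

end rb

/-- a filtration of a free module over `F[X]` which is saturated for the degree has an adapted
basis -/
theorem red_basis (F M : Type) [Field F] [AddCommGroup M] [Module F[X] M]
    [Module.Finite F[X] M] (Md : ℕ → AddSubgroup M)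
    (hC : ∀ (d : ℕ) (x : M) (c : F), x ∈ Md d → (C c : F[X]) • x ∈ Md d)
    (hmono : ∀ d, Md d ≤ Md (d + 1)) (hall : ∀ x, ∃ d, x ∈ Md d)
    (hX : ∀ d x, x ∈ Md d → (X : F[X]) • x ∈ Md (d + 1))
    (hdiv : ∀ d x, (X : F[X]) • x ∈ Md (d + 1) → x ∈ Md d)
    (h0 : ∀ x, (X : F[X]) • x ∈ Md 0 → x = 0) :
    ∃ (N : ℕ) (b : Module.Basis (Fin N) F[X] M) (dd : Fin N → ℕ), ∀ (x : M) (d : ℕ),
      x ∈ Md d ↔ ∀ i, b.repr x i = 0 ∨ (b.repr x i).natDegree + dd i ≤ d := by
  obtain ⟨P, hP0, hP⟩ : ∃ P : ℕ → AddSubgroup M, P 0 = ⊥ ∧ ∀ n, P (n + 1) = Md n :=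
    ⟨fun n => Nat.casesOn n ⊥ Md, rfl, fun _ => rfl⟩
  have h := rb_core (F := F) (M := M) (P := P) hP0 ?_ ?_ ?_ ?_ ?_
  · obtain ⟨N, b, dd, hb⟩ := h
    exact ⟨N, b, dd, fun x d => by rw [← hP d]; exact hb x d⟩
  · intro n x c hx
    cases n with
    | zero =>
      rw [hP0] at hx ⊢
      have hx0 : x = 0 := hx
      rw [hx0, smul_zero]
      exact AddSubgroup.zero_mem _
    | succ n => rw [hP] at hx ⊢; exact hC n x c hx
  · intro n
    cases n with
    | zero => rw [hP0]; exact bot_le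
    | succ n => rw [hP, hP]; exact hmono n
  · intro x
    obtain ⟨d, hd⟩ := hall x
    exact ⟨d + 1, by rw [hP]; exact hd⟩
  · intro n x hx
    cases n with
    | zero =>
      rw [hP0] at hx
      have hx0 : x = 0 := hx
      rw [hx0, smul_zero]
      exact AddSubgroup.zero_mem _
    | succ n => rw [hP] at hx ⊢; exact hX n x hx
  · intro n x hx
    rw [hP] at hx
    cases n with
    | zero => rw [hP0]; exact h0 x hx
    | succ n => rw [hP]; exact hdiv n x hx

end Pool.Agent.AB3
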